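import Pool.Agent.H67LP.Final

/-!
Measurability.
-/

set_option autoImplicit false

namespace Pool.Agent.H67LP

open H974 H731C Finset MeasureTheory Filter Topology

theorem meas_reach (u v : Vtx) : MeasurableSet {ω | Reach (opn ω ∩ HP) u v} := by
  have e : {ω | Reach (opn ω ∩ HP) u v} =
      ⋃ N : ℕ, {ω | (fun F : Finset Edg => Reach (↑F : Set Edg) u v)
        (FF (RE (-(N : ℤ)) N 0 N) ω)} := by
    ext ω
    rw [Set.mem_iUnion]
    constructor
    · intro h
      obtain ⟨N, hN⟩ := window h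
      refine ⟨N, ?_⟩
      show Reach (↑(FF (RE (-(N : ℤ)) N 0 N) ω) : Set Edg) u v
      rw [FF_coe]
      exact hN
    · rintro ⟨N, hN⟩
      have h : Reach (↑(FF (RE (-(N : ℤ)) N 0 N) ω) : Set Edg) u v := hN
      rw [FF_coe] at h
      exact h.mono (Set.inter_subset_inter_right _ (HP_RE le_rfl))
  rw [e]
  exact MeasurableSet.iUnion (fun N => meas_event (RE (-(N : ℤ)) N 0 N)
    (fun F : Finset Edg => Reach (↑F : Set Edg) u v))

theorem meas_CI (I : Set ℤ) (v : Vtx) : MeasurableSet {ω | CI I (opn ω) v} := by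
  have e : {ω | CI I (opn ω) v} = ⋃ i ∈ I, {ω | Reach (opn ω ∩ HP) (i, 0) v} := by
    ext ω
    simp only [Set.mem_iUnion, exists_prop]
    rfl
  rw [e]
  exact MeasurableSet.biUnion (Set.to_countable I) (fun i _ => meas_reach _ _)

theorem meas_opn (e : Edg) : MeasurableSet {ω | e ∈ opn ω} := by
  have h : {ω | e ∈ opn ω} = {ω | (fun F : Finset Edg => e ∈ F) (FF {e} ω)} := by
    ext ω
    show e ∈ opn ω ↔ e ∈ FF {e} ω
    rw [← Finset.mem_coe, FF_coe]
    simp
  rw [h]
  exact meas_event {e} (fun F => e ∈ F)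

theorem meas_wall (I : Set ℤ) (e : Edg) : MeasurableSet {ω | e ∈ Wall I (opn ω)} := by
  have h : {ω | e ∈ Wall I (opn ω)} = {_ω | 0 ≤ e.2.1} ∩
      (({ω | e ∈ opn ω} ∩ {ω | CI I (opn ω) (src e)}) ∪
        {_ω | e.2.1 = 0 ∧ e.2.2 = true ∧ e.1 ∈ I ∧ e.1 + 1 ∈ I}) := rfl
  rw [h]
  exact (MeasurableSet.const _).inter (((meas_opn e).inter (meas_CI I _)).union
    (MeasurableSet.const _))

/-- `n` steps on the faces -/
def stp (F : Set Edg) : ℕ → Vtx → Vtx → Prop
  | 0, u, v => u = v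
  | n + 1, u, v => ∃ w, stp F n u w ∧ DAdj F w v

theorem dreach_iff_stp {F : Set Edg} {u v : Vtx} : DReach F u v ↔ ∃ n, stp F n u v := by
  constructor
  · intro h
    induction h with
    | refl => exact ⟨0, rfl⟩
    | tail _ hs ih =>
      obtain ⟨n, hn⟩ := ih
      exact ⟨n + 1, _, hn, hs⟩
  · rintro ⟨n, hn⟩
    induction n generalizing v with
    | zero =>
      have : u = v := hn
      rw [this]
      exact DReach.refl _ _
    | succ n ih =>
      obtain ⟨w, h1, h2⟩ := hn
      exact Relation.ReflTransGen.tail (ih h1) h2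

theorem meas_stp {Ω : Type*} [MeasurableSpace Ω] {A : Ω → Set Edg}
    (hA : ∀ e, MeasurableSet {ω | e ∈ A ω}) (n : ℕ) (u v : Vtx) :
    MeasurableSet {ω | stp (A ω) n u v} := by
  induction n generalizing v with
  | zero => exact MeasurableSet.const _
  | succ n ih =>
    have e : {ω | stp (A ω) (n + 1) u v} = ⋃ w : Vtx, {ω | stp (A ω) n u w} ∩
        ⋃ e : Edg, {ω | e ∈ A ω} ∩
          {_ω | (dsrc e = w ∧ dtgt e = v) ∨ (dsrc e = v ∧ dtgt e = w)} := by
      ext ω
      simp only [Set.mem_iUnion, Set.mem_inter_iff]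
      rfl
    rw [e]
    exact MeasurableSet.iUnion (fun w => (ih w).inter (MeasurableSet.iUnion (fun e =>
      (hA e).inter (MeasurableSet.const _))))

theorem meas_out (I : Set ℤ) (x y : ℤ) : MeasurableSet (OutE I x y) := by
  have e : OutE I x y = ⋃ n : ℕ, {ω | stp (Wall I (opn ω))ᶜ n (x, y) (0, -1)} := by
    ext ω
    rw [Set.mem_iUnion]
    exact dreach_iff_stp
  rw [e]
  exact MeasurableSet.iUnion (fun n => meas_stp (fun e => (meas_wall I e).compl) n _ _)

theorem surr_eq (I : Set ℤ) (x y : ℤ) : SurrE I x y = (OutE I x y)ᶜ := rfl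

theorem real_out (I : Set ℤ) (x y : ℤ) :
    (bondLaw half).real (OutE I x y) = 1 - (bondLaw half).real (SurrE I x y) := by
  rw [surr_eq, probReal_compl_eq_one_sub (meas_out I x y)]
  ring

end Pool.Agent.H67LP
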