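import Mathlib

/-!
Elementary estimates for angles and for Schramm's function.
-/

set_option autoImplicit false

namespace Pool.Agent.H67LP

open Real

theorem arctan_up {t : ℝ} (ht : 0 ≤ t) : arctan t ≤ t := by
  have h := Real.le_tan (Real.arctan_nonneg.mpr ht) (Real.arctan_lt_pi_div_two t)
  rwa [Real.tan_arctan] at h

theorem arctan_low {t : ℝ} (ht : 0 ≤ t) : t / (1 + t) ≤ arctan t := by
  have h1 : Real.sin (arctan t) ≤ arctan t := Real.sin_le (Real.arctan_nonneg.mpr ht)
  rw [Real.sin_arctan] at h1
  refine le_trans ?_ h1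
  apply div_le_div_of_nonneg_left ht (by positivity)
  rw [Real.sqrt_le_left (by positivity)]
  nlinarith

theorem psi_low (u : ℝ) : 1 / (1 + max 0 u) ≤ π / 2 - arctan u := by
  rcases le_or_gt u 0 with h | h
  · rw [max_eq_left h]
    have h1 : arctan u ≤ 0 := by
      rw [← Real.arctan_zero]
      exact Real.arctan_mono h
    have := Real.pi_gt_three
    norm_num
    linarith
  · rw [max_eq_right h.le, ← Real.arctan_inv_of_pos h]
    refine le_trans (le_of_eq ?_) (arctan_low (inv_nonneg.mpr h.le))
    field_simp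
    ring

theorem psi_up (u : ℝ) : π / 2 - arctan u ≤ π / (1 + max 0 u) := by
  have hpi := Real.pi_gt_three
  rcases le_or_gt u 0 with h | h
  · rw [max_eq_left h]
    have h1 := Real.neg_pi_div_two_lt_arctan u
    norm_num
    linarith
  · rw [max_eq_right h.le]
    rcases le_or_gt u 1 with h1 | h1
    · have h2 : 0 ≤ arctan u := Real.arctan_nonneg.mpr h.le
      rw [le_div_iff₀ (by positivity)]
      nlinarith
    · rw [← Real.arctan_inv_of_pos h]
      refine (arctan_up (inv_nonneg.mpr h.le)).trans ?_
      rw [le_div_iff₀ (by positivity), inv_mul_le_iff₀ h]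
      nlinarith

theorem theta_pos_case {t θ : ℝ} (ht : 0 ≤ t) (h1 : θ ≤ t) (h2 : θ ≤ π) :
    θ ≤ 5 * (t / (1 + t)) := by
  rw [mul_div_assoc', le_div_iff₀ (by positivity)]
  have := Real.pi_lt_four
  nlinarith

/-- bounds for the angle, with `L = U + W` -/
theorem theta_bounds {U W η δ : ℝ} (hη : 0 < η) (hL : 0 < U + W)
    (hδ : δ = max 0 (max (-U) (-W))) :
    (U + W) * η / (η ^ 2 + δ * (U + W) + δ ^ 2 + (U + W) * η) ≤
        arctan (U / η) + arctan (W / η) ∧
      arctan (U / η) + arctan (W / η) ≤
        5 * ((U + W) * η / (η ^ 2 + δ * (U + W) + δ ^ 2 + (U + W) * η)) := by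
  have hs : 0 < U / η + W / η := by
    rw [← add_div]
    positivity
  by_cases hpos : 0 ≤ U ∧ 0 ≤ W
  · obtain ⟨hU, hW⟩ := hpos
    have hδ0 : δ = 0 := by
      rw [hδ]
      apply max_eq_left
      apply max_le <;> linarith
    have hu : 0 ≤ U / η := by positivity
    have hw : 0 ≤ W / η := by positivity
    have e : (U + W) * η / (η ^ 2 + δ * (U + W) + δ ^ 2 + (U + W) * η) =
        (U / η + W / η) / (1 + (U / η + W / η)) := by
      rw [hδ0]
      field_simp
      ring
    rw [e]
    constructor
    · have a1 := arctan_low hu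
      have a2 := arctan_low hw
      have b1 : U / η / (1 + (U / η + W / η)) ≤ U / η / (1 + U / η) := by
        apply div_le_div_of_nonneg_left hu (by positivity)
        linarith
      have b2 : W / η / (1 + (U / η + W / η)) ≤ W / η / (1 + W / η) := by
        apply div_le_div_of_nonneg_left hw (by positivity)
        linarith
      rw [add_div]
      linarith
    · apply theta_pos_case hs.le
      · linarith [arctan_up hu, arctan_up hw]
      · linarith [Real.arctan_lt_pi_div_two (U / η), Real.arctan_lt_pi_div_two (W / η)]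
  · -- one of the two is negative
    have huw : U * W ≤ 0 := by
      by_cases hU : 0 ≤ U
      · have hW : W < 0 := by
          by_contra h
          exact hpos ⟨hU, not_lt.mp h⟩
        nlinarith
      · push Not at hU
        nlinarith
    have hδ2 : δ * (U + W) + δ ^ 2 = -(U * W) := by
      by_cases hU : 0 ≤ U
      · have hW : W < 0 := by
          by_contra h
          exact hpos ⟨hU, not_lt.mp h⟩
        have : δ = -W := by
          rw [hδ, max_eq_right (by linarith : -U ≤ -W), max_eq_right (by linarith)]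
        rw [this]
        ring
      · push Not at hU
        have : δ = -U := by
          rw [hδ, max_eq_left (by linarith : -W ≤ -U), max_eq_right (by linarith)]
        rw [this]
        ring
    have huw2 : U / η * (W / η) ≤ 0 := by
      rw [div_mul_div_comm]
      apply div_nonpos_of_nonpos_of_nonneg huw
      positivity
    rw [Real.arctan_add (by linarith)]
    set t : ℝ := (U / η + W / η) / (1 - U / η * (W / η)) with ht
    have ht0 : 0 ≤ t := by
      rw [ht]
      apply div_nonneg hs.le
      linarith
    have e : (U + W) * η / (η ^ 2 + δ * (U + W) + δ ^ 2 + (U + W) * η) = t / (1 + t) := by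
      have e1 : η ^ 2 + δ * (U + W) + δ ^ 2 + (U + W) * η = η ^ 2 - U * W + (U + W) * η := by
        linarith
      rw [e1, ht]
      have h1 : 0 < 1 - U / η * (W / η) := by linarith
      have h2 : 0 < η ^ 2 - U * W := by nlinarith [sq_nonneg η, pow_pos hη 2]
      have h3 : 1 - U / η * (W / η) = (η ^ 2 - U * W) / η ^ 2 := by field_simp
      have h4 : 0 < η ^ 2 - U * W + (U + W) * η := by nlinarith [mul_pos hL hη]
      rw [h3, ← add_div]
      have h5 : (U + W) / η / ((η ^ 2 - U * W) / η ^ 2) = (U + W) * η / (η ^ 2 - U * W) := by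
        field_simp
      rw [h5]
      have h6 : 1 + (U + W) * η / (η ^ 2 - U * W) =
          (η ^ 2 - U * W + (U + W) * η) / (η ^ 2 - U * W) := by
        field_simp
      rw [h6, div_div_div_cancel_right₀ h2.ne']
    rw [e]
    refine ⟨arctan_low ht0, theta_pos_case ht0 (arctan_up ht0) ?_⟩
    linarith [Real.arctan_lt_pi_div_two t, Real.pi_pos]

theorem eta_low {h η m e : ℝ} (hη : h / 2 ≤ η) (hh : 1 ≤ h) (hm : 0 ≤ m) (hme : m ≤ e + 1)
    (he : 0 ≤ e) : 1 / 4 * (h / (e + h)) ≤ 1 / (1 + m / η) := by
  have hη0 : 0 < η := by linarith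
  have e1 : 1 / (1 + m / η) = η / (η + m) := by
    field_simp
  rw [e1, ← mul_div_assoc, div_le_div_iff₀ (by positivity) (by positivity)]
  nlinarith [mul_nonneg hm he]

theorem eta_up {h η m e : ℝ} (hη : h / 2 ≤ η) (hη2 : η ≤ h) (hh : 1 ≤ h)
    (hme : e ≤ m) (he : 0 ≤ e) : 1 / (1 + m / η) ≤ h / (e + h) := by
  have hη0 : 0 < η := by linarith
  have hm : 0 ≤ m := he.trans hme
  have e1 : 1 / (1 + m / η) = η / (η + m) := by
    field_simp
  rw [e1, div_le_div_iff₀ (by positivity) (by positivity)]
  nlinarith [mul_le_mul hη2 hme he (by linarith : 0 ≤ h)]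

theorem max_div {η u : ℝ} (hη : 0 < η) : max 0 (u / η) = max 0 u / η := by
  rcases le_total 0 u with h | h
  · rw [max_eq_right h, max_eq_right (by positivity)]
  · rw [max_eq_left h, max_eq_left (div_nonpos_of_nonpos_of_nonneg h hη.le), zero_div]

/-- bounds for the complementary angle of one boundary point -/
theorem psi_eta {h η u e : ℝ} (hη : h / 2 ≤ η) (hη2 : η ≤ h) (hh : 1 ≤ h) (he : e = max 0 u) :
    1 / 4 * (h / (e + h)) ≤ π / 2 - arctan (u / η) ∧
      π / 2 - arctan (u / η) ≤ 4 * (h / (e + h)) := by
  have hη0 : 0 < η := by linarith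
  have he0 : 0 ≤ e := by rw [he]; exact le_max_left _ _
  have h1 := psi_low (u / η)
  have h2 := psi_up (u / η)
  rw [max_div hη0, ← he] at h1 h2
  constructor
  · exact (eta_low hη hh he0 (by linarith) he0).trans h1
  · refine h2.trans ?_
    have h3 := eta_up hη hη2 hh (le_refl e) he0
    have h4 := Real.pi_lt_four
    have h5 : π / (1 + e / η) = π * (1 / (1 + e / η)) := by ring
    rw [h5]
    have h6 : 0 ≤ 1 / (1 + e / η) := by positivity
    nlinarith [Real.pi_pos]

end Pool.Agent.H67LP
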