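import Pool.Agent.H731R3.Cardy.Circ
import Pool.Agent.H731R3.Cardy.NoHalf
import Pool.Agent.H731R3.Cardy.HalfBox

/-!
Left passage of the half-plane exploration path: deterministic part, definitions and the easy
escapes of a face.
-/

set_option autoImplicit false

namespace Pool.Agent.H67LP

open H974 H731C

/-- Edges of the closed upper half-plane. -/
def HP : Set Edg := {e | 0 ≤ e.2.1}

/-- `v` is in the cluster of the boundary set `I` in the half-plane. -/
def CI (I : Set ℤ) (G : Set Edg) (v : Vtx) : Prop := ∃ x ∈ I, Reach (G ∩ HP) (x, 0) v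

/-- The open edges of the cluster of `I` and the boundary edges between neighbours of `I`. -/
def Wall (I : Set ℤ) (G : Set Edg) : Set Edg :=
  {e | 0 ≤ e.2.1 ∧ ((e ∈ G ∧ CI I G (src e)) ∨
    (e.2.1 = 0 ∧ e.2.2 = true ∧ e.1 ∈ I ∧ e.1 + 1 ∈ I))}

/-- The face `f` can be joined to the faces below the axis without crossing the wall. -/
def Out (I : Set ℤ) (G : Set Edg) (f : Vtx) : Prop := DReach (Wall I G)ᶜ f (0, -1)

theorem CI_mono {I J : Set ℤ} {G : Set Edg} (h : I ⊆ J) {v : Vtx} (hv : CI I G v) : CI J G v := by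
  obtain ⟨x, hx, hr⟩ := hv
  exact ⟨x, h hx, hr⟩

theorem Wall_mono {I J : Set ℤ} {G : Set Edg} (h : I ⊆ J) : Wall I G ⊆ Wall J G := by
  rintro e ⟨h0, h1 | h1⟩
  · exact ⟨h0, Or.inl ⟨h1.1, CI_mono h h1.2⟩⟩
  · exact ⟨h0, Or.inr ⟨h1.1, h1.2.1, h h1.2.2.1, h h1.2.2.2⟩⟩

theorem Out_anti {I J : Set ℤ} {G : Set Edg} (h : I ⊆ J) {f : Vtx} (hf : Out J G f) :
    Out I G f :=
  DReach.mono (Set.compl_subset_compl.mpr (Wall_mono h)) hf

theorem CI_of_mem {I : Set ℤ} {G : Set Edg} {x : ℤ} (hx : x ∈ I) : CI I G (x, 0) :=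
  ⟨x, hx, Reach.refl _ _⟩

theorem CI_trans {I : Set ℤ} {G : Set Edg} {u v : Vtx} (hu : CI I G u)
    (h : Reach (G ∩ HP) u v) : CI I G v := by
  obtain ⟨x, hx, hr⟩ := hu
  exact ⟨x, hx, hr.trans h⟩

theorem HP_RE {A B c D : ℤ} (hc : 0 ≤ c) : (↑(RE A B c D) : Set Edg) ⊆ HP := by
  rintro ⟨x, y, _ | _⟩ h
  · simp only [Finset.mem_coe, mem_RE_false] at h
    show 0 ≤ y
    omega
  · simp only [Finset.mem_coe, mem_RE_true] at h
    show 0 ≤ y
    omega

theorem inter_HP {G : Set Edg} {S : Set Edg} (hS : S ⊆ HP) : G ∩ S ⊆ G ∩ HP :=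
  Set.inter_subset_inter_right _ hS

/-- an open path which starts in the cluster lies in the wall -/
theorem reach_wall {I : Set ℤ} {G S : Set Edg} (hS : S ⊆ HP) {u v : Vtx} (hu : CI I G u)
    (h : Reach (G ∩ S) u v) : Reach (Wall I G ∩ S) u v := by
  induction h with
  | refl => exact Reach.refl _ _
  | @tail v w hv hs ih =>
    refine ih.trans (Adj.reach ?_)
    have hvC : CI I G v := CI_trans hu (Reach.mono (inter_HP hS) hv)
    obtain ⟨e, ⟨heG, heS⟩, hc⟩ := hs
    refine ⟨e, ⟨⟨hS heS, Or.inl ⟨heG, ?_⟩⟩, heS⟩, hc⟩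
    rcases hc with ⟨h1, h2⟩ | ⟨h1, h2⟩
    · rw [h1]; exact hvC
    · rw [h1]
      exact CI_trans hvC (Adj.reach ⟨e, ⟨heG, hS heS⟩, Or.inr ⟨h1, h2⟩⟩)

/-- the faces below the axis -/
theorem low_row (I : Set ℤ) (G : Set Edg) (p : ℤ) (n : ℕ) :
    DReach (Wall I G)ᶜ (p, -1) (p + n, -1) := by
  induction n with
  | zero => simpa using DReach.refl _ _
  | succ n ih =>
    refine ih.trans (DAdj.reach ⟨(p + n + 1, -1, false), ?_, Or.inl ⟨?_, ?_⟩⟩)
    · rintro ⟨h, -⟩
      simp only at h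
      omega
    · simp
    · simp only [dtgt_mk, Prod.mk.injEq, and_true]
      push_cast
      ring

theorem low_all (I : Set ℤ) (G : Set Edg) (p q : ℤ) : DReach (Wall I G)ᶜ (p, -1) (q, -1) := by
  rcases le_total p q with h | h
  · obtain ⟨n, hn⟩ := Int.eq_ofNat_of_zero_le (sub_nonneg.mpr h)
    have e : q = p + n := by omega
    rw [e]
    exact low_row I G p n
  · obtain ⟨n, hn⟩ := Int.eq_ofNat_of_zero_le (sub_nonneg.mpr h)
    have e : p = q + n := by omega
    rw [e]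
    exact (low_row I G q n).symm

theorem Out_low (I : Set ℤ) (G : Set Edg) (p : ℤ) : Out I G (p, -1) := low_all I G p 0

theorem Out_step {I : Set ℤ} {G : Set Edg} {e : Edg} (he : e ∉ Wall I G) :
    Out I G (dsrc e) ↔ Out I G (dtgt e) := by
  constructor
  · intro h
    exact (DAdj.reach ⟨e, he, Or.inr ⟨rfl, rfl⟩⟩ : DReach (Wall I G)ᶜ _ _).trans h
  · intro h
    exact (DAdj.reach ⟨e, he, Or.inl ⟨rfl, rfl⟩⟩ : DReach (Wall I G)ᶜ _ _).trans h

/-- straight down -/
theorem down_col {I : Set ℤ} {G : Set Edg} {x : ℤ} (n : ℕ)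
    (h : ∀ j : ℤ, 0 ≤ j → j < n → ((x, j, true) : Edg) ∉ Wall I G) : Out I G (x, (n : ℤ) - 1) := by
  induction n with
  | zero => simpa using Out_low I G x
  | succ n ih =>
    have h1 := ih (fun j h0 h1 => h j h0 (by push_cast; omega))
    have h2 := (Out_step (h n (by omega) (by push_cast; omega))).mp (by simpa using h1)
    simpa using h2

theorem surr_col {I : Set ℤ} {G : Set Edg} {x y : ℤ} (hy : 0 ≤ y) (h : ¬ Out I G (x, y)) :
    ∃ j, (0 ≤ j ∧ j ≤ y) ∧ CI I G (x, j) := by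
  by_contra hno
  push Not at hno
  apply h
  obtain ⟨n, hn⟩ := Int.eq_ofNat_of_zero_le (show (0 : ℤ) ≤ y + 1 by omega)
  have e : y = (n : ℤ) - 1 := by omega
  rw [e]
  apply down_col
  rintro j h0 h1 ⟨-, h2 | h2⟩
  · exact hno j ⟨h0, by omega⟩ h2.2
  · have : j = 0 := h2.1
    subst this
    exact hno 0 ⟨le_rfl, by omega⟩ (CI_of_mem h2.2.2.1)

/-- to the right, then down -/
theorem right_row {I : Set ℤ} {G : Set Edg} {x y : ℤ} (k : ℕ)
    (h : ∀ i : ℤ, ((i, y, false) : Edg) ∉ Wall I G) (hk : Out I G (x + k, y)) :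
    Out I G (x, y) := by
  induction k with
  | zero => simpa using hk
  | succ k ih =>
    apply ih
    have := (Out_step (h (x + k + 1))).mpr (by
      simp only [dtgt_mk]
      convert hk using 2
      push_cast
      ring_nf)
    simpa using this

/-- if the cluster of a small set does not reach height `y`, the face `(x, y)` escapes -/
theorem surr_near {I : Set ℤ} {G : Set Edg} {z m n x y : ℤ} (hI : ∀ i ∈ I, z - m ≤ i ∧ i ≤ z + m)
    (hmn : m ≤ n) (hn : 1 ≤ n) (hny : n ≤ y) (h : ¬ Out I G (x, y)) :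
    ∃ u v, inR (z - m) (z + m) 0 (0 + m) u ∧ onH z 0 n v ∧
      Reach (G ∩ ↑(RE (z - n) (z + n) 0 (0 + n))) u v := by
  by_contra hno
  push Not at hno
  apply h
  have key : ∀ i ∈ I, ∀ v, Reach (G ∩ HP) (i, 0) v →
      ((z - n < v.1 ∧ v.1 < z + n) ∧ (0 ≤ v.2 ∧ v.2 < n)) ∧
        Reach (G ∩ ↑(RE (z - n) (z + n) 0 (0 + n))) (i, 0) v := by
    intro i hi v hv
    have hi' := hI i hi
    have hin : inR (z - m) (z + m) 0 (0 + m) (i, 0) := by
      unfold inR
      simp only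
      omega
    induction hv with
    | refl =>
      refine ⟨⟨⟨?_, ?_⟩, le_rfl, by simp only; omega⟩, Reach.refl _ _⟩
      · by_contra hc
        exact hno (i, 0) (i, 0) hin (by unfold onH; simp only at hc ⊢; omega) (Reach.refl _ _)
      · by_contra hc
        exact hno (i, 0) (i, 0) hin (by unfold onH; simp only at hc ⊢; omega) (Reach.refl _ _)
    | @tail v w _ hs ih =>
      obtain ⟨⟨⟨h1, h2⟩, h3, h4⟩, hr⟩ := ih
      obtain ⟨e, ⟨heG, heH⟩, hc⟩ := hs
      have he0 : 0 ≤ e.2.1 := heH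
      have hbox : inR (z - n) (z + n) 0 (0 + n) w := by
        obtain ⟨p, q, _ | _⟩ := e
        · simp only [src_mk, tgt_false] at hc he0
          rcases hc with ⟨k1, k2⟩ | ⟨k1, k2⟩
          · rw [← k1] at h1 h2 h3 h4; rw [← k2]; unfold inR; simp only at *; omega
          · rw [← k2] at h1 h2 h3 h4; rw [← k1]; unfold inR; simp only at *; omega
        · simp only [src_mk, tgt_true] at hc he0
          rcases hc with ⟨k1, k2⟩ | ⟨k1, k2⟩
          · rw [← k1] at h1 h2 h3 h4; rw [← k2]; unfold inR; simp only at *; omega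
          · rw [← k2] at h1 h2 h3 h4; rw [← k1]; unfold inR; simp only at *; omega
      have hboxv : inR (z - n) (z + n) 0 (0 + n) v := by unfold inR; omega
      have heR : e ∈ RE (z - n) (z + n) 0 (0 + n) := by
        rcases hc with ⟨k1, k2⟩ | ⟨k1, k2⟩
        · exact RE_of_ends (by rw [k1]; exact hboxv) (by rw [k2]; exact hbox)
        · exact RE_of_ends (by rw [k1]; exact hbox) (by rw [k2]; exact hboxv)
      have hr2 : Reach (G ∩ ↑(RE (z - n) (z + n) 0 (0 + n))) (i, 0) w :=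
        hr.trans (Adj.reach ⟨e, ⟨heG, Finset.mem_coe.mpr heR⟩, hc⟩)
      have hnot : ¬ onH z 0 n w := fun hw => hno (i, 0) w hin hw hr2
      unfold onH at hnot
      unfold inR at hbox
      refine ⟨⟨⟨by omega, by omega⟩, by omega, by omega⟩, hr2⟩
  obtain ⟨k, hk⟩ : ∃ k : ℕ, z + n ≤ x + k := ⟨(z + n - x).toNat, by omega⟩
  apply right_row k
  · rintro i ⟨-, h2 | h2⟩
    · obtain ⟨i0, hi0, hr⟩ := h2.2
      have := (key i0 hi0 _ hr).1.2.2
      simp only [src_mk] at this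
      omega
    · exact absurd h2.2.1 (by simp)
  · obtain ⟨N, hN⟩ := Int.eq_ofNat_of_zero_le (show (0 : ℤ) ≤ y + 1 by omega)
    have e : y = (N : ℤ) - 1 := by omega
    rw [e]
    apply down_col
    rintro j h0 h1 ⟨-, h2 | h2⟩
    · obtain ⟨i0, hi0, hr⟩ := h2.2
      have := (key i0 hi0 _ hr).1.1.2
      simp only [src_mk] at this
      omega
    · have h3 := hI _ h2.2.2.2
      simp only at h3
      omega

end Pool.Agent.H67LP
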