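import Pool.Agent.H67LP.Ring

/-!
Left passage: a closed dual ring which is joined to the free faces frees the faces inside.
-/

set_option autoImplicit false

namespace Pool.Agent.H67LP

open H974 H731C

theorem closed_not_wall {I : Set ℤ} {G : Set Edg} {e : Edg} (he : e ∉ G)
    (h : e.2.2 = true → e.2.1 ≠ 0) : e ∉ Wall I G := by
  rintro ⟨-, h1 | h1⟩
  · exact he h1.1
  · exact h h1.2.1 h1.1

/-- the faces joined by closed dual paths to a free boundary face are free -/
theorem inv {I : Set ℤ} {G F : Set Edg} (hF : F ⊆ dl '' (Gᶜ ∩ HP)) {q : ℤ}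
    (hq : ¬ (q ∈ I ∧ q + 1 ∈ I)) {g : Vtx} (h : Reach F (q, -1) g) :
    -1 ≤ g.2 ∧ (0 ≤ g.2 → Out I G g) ∧ (g.2 = -1 → g.1 = q ∨ Out I G (g.1, 0)) := by
  induction h with
  | refl => exact ⟨le_rfl, fun h => by simp at h, fun _ => Or.inl rfl⟩
  | @tail v w _ hs ih =>
    obtain ⟨h1, h2, h3⟩ := ih
    obtain ⟨e, he, hc⟩ := hs
    obtain ⟨⟨a, b, _ | _⟩, ⟨heG, hb⟩, rfl⟩ := hF he
    · have hb0 : 0 ≤ b := hb
      have hst := Out_step (I := I) (G := G) (e := (a, b, false))
        (closed_not_wall heG (by simp))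
      simp only [dsrc_false, dtgt_mk] at hst
      simp only [dl_f, src_mk, tgt_true] at hc
      have ea : a - 1 + 1 = a := by ring
      rw [ea] at hc
      rcases hc with ⟨k1, k2⟩ | ⟨k1, k2⟩
      · rw [← k1] at h1 h2
        rw [← k2]
        refine ⟨by simp only; omega, fun _ => hst.mp (h2 hb0), fun h => ?_⟩
        simp only at h
        omega
      · rw [← k2] at h1 h2
        rw [← k1]
        refine ⟨by simp only; omega, fun _ => hst.mpr (h2 hb0), fun h => ?_⟩
        simp only at h
        omega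
    · have hb0 : 0 ≤ b := hb
      simp only [dl_t, src_mk, tgt_false] at hc
      have ea : b - 1 + 1 = b := by ring
      rw [ea] at hc
      rcases hb0.eq_or_lt with h0 | h0
      · subst h0
        rcases hc with ⟨k1, k2⟩ | ⟨k1, k2⟩
        · rw [← k1] at h3
          rw [← k2]
          have hO : Out I G (a, 0) := by
            rcases h3 (by simp) with h4 | h4
            · have h4' : a = q := h4
              subst h4'
              have hnw : ((a, 0, true) : Edg) ∉ Wall I G := by
                rintro ⟨-, h5 | h5⟩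
                · exact heG h5.1
                · exact hq h5.2.2
              exact (Out_step hnw).mp (by simpa using Out_low I G a)
            · exact h4
          exact ⟨by simp, fun _ => hO, fun h => by simp at h⟩
        · rw [← k2] at h2
          rw [← k1]
          exact ⟨by simp, fun h => by simp at h, fun _ => Or.inr (h2 le_rfl)⟩
      · have hst := Out_step (I := I) (G := G) (e := (a, b, true))
          (closed_not_wall heG (by intro _; simp only; omega))
        simp only [dsrc_true, dtgt_mk] at hst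
        rcases hc with ⟨k1, k2⟩ | ⟨k1, k2⟩
        · rw [← k1] at h1 h2
          rw [← k2]
          refine ⟨by simp only; omega, fun _ => hst.mp (h2 (by simp only; omega)), fun h => ?_⟩
          simp only at h
          omega
        · rw [← k2] at h1 h2
          rw [← k1]
          refine ⟨by simp only; omega, fun _ => hst.mpr (h2 (by simp only; omega)), fun h => ?_⟩
          simp only at h
          omega

/-- closed dual paths through free faces avoid the additional edges -/
theorem restr {I : Set ℤ} {G F : Set Edg} (hF : F ⊆ dl '' (Gᶜ ∩ HP)) {q x y j : ℤ}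
    (hq : ¬ (q ∈ I ∧ q + 1 ∈ I)) (hy : 0 ≤ y) (hno : ∀ i, y ≤ i → i < j → ¬ Out I G (x, i))
    {S : Finset Edg} {S' : Finset Edg} (hS : ∀ e : Edg, dl e ∈ S → e ∈ S') {v w : Vtx}
    (hv : Reach F (q, -1) v) (h : Reach (F ∩ ↑S) v w) :
    DReach ((G ∪ {e | e.1 = x ∧ e.2.2 = false ∧ y + 1 ≤ e.2.1 ∧ e.2.1 < j})ᶜ ∩ ↑S') v w := by
  induction h with
  | refl => exact DReach.refl _ _
  | @tail w w' hw hs ih =>
    refine ih.trans (DAdj.reach ?_)
    have hqw : Reach F (q, -1) w := hv.trans (Reach.mono Set.inter_subset_left hw)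
    have hqw' : Reach F (q, -1) w' := hqw.trans (Reach.mono Set.inter_subset_left hs.reach)
    obtain ⟨e, ⟨heF, heS⟩, hc⟩ := hs
    obtain ⟨e', ⟨heG, hb⟩, rfl⟩ := hF heF
    rw [src_dl, tgt_dl] at hc
    refine ⟨e', ⟨?_, Finset.mem_coe.mpr (hS e' (Finset.mem_coe.mp heS))⟩, hc⟩
    rintro (h1 | ⟨h1, h2, h3, h4⟩)
    · exact heG h1
    · obtain ⟨a, b, t⟩ := e'
      simp only at h1 h2 h3 h4
      subst h1 h2
      have hO : Out I G (a, b) := by
        rcases hc with ⟨-, k2⟩ | ⟨-, k2⟩
        · have := (inv hF hq hqw').2.1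
          rw [← k2] at this
          exact this (by simp only [dtgt_mk]; omega)
        · have := (inv hF hq hqw).2.1
          rw [← k2] at this
          exact this (by simp only [dtgt_mk]; omega)
      exact hno b (by omega) h4 hO

theorem F_low {G F : Set Edg} (hF : F ⊆ dl '' (Gᶜ ∩ HP)) {e : Edg} (he : e ∈ F) : -1 ≤ e.2.1 := by
  obtain ⟨⟨a, b, _ | _⟩, ⟨-, hb⟩, rfl⟩ := hF he
  · have hb0 : 0 ≤ b := hb
    simp only [dl_f]; omega
  · have hb0 : 0 ≤ b := hb
    simp only [dl_t]; omega

theorem F_row {G F : Set Edg} (hF : F ⊆ dl '' (Gᶜ ∩ HP)) {u v : Vtx} (hu : -1 ≤ u.2)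
    (h : Reach F u v) : -1 ≤ v.2 := by
  induction h with
  | refl => exact hu
  | tail _ hs ih =>
    obtain ⟨⟨a, b, _ | _⟩, he, hc⟩ := hs
    · have h1 := F_low hF he
      simp only [src_mk, tgt_false] at hc h1
      rcases hc with ⟨k1, k2⟩ | ⟨k1, k2⟩
      · rw [← k2]; simp only; omega
      · rw [← k1]; exact h1
    · have h1 := F_low hF he
      simp only [src_mk, tgt_true] at hc h1
      rcases hc with ⟨k1, k2⟩ | ⟨k1, k2⟩
      · rw [← k2]; exact h1
      · rw [← k1]; exact h1

/-- the first wall edge above a face -/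
theorem first_above {I : Set ℤ} {G : Set Edg} {x y D : ℤ}
    (h : ∃ j, y < j ∧ j ≤ D ∧ ((x, j, true) : Edg) ∈ Wall I G) (hO : ¬ Out I G (x, y)) :
    ∃ j, (y < j ∧ j ≤ D) ∧ ((x, j, true) : Edg) ∈ Wall I G ∧
      ∀ i, y ≤ i → i < j → ¬ Out I G (x, i) := by
  classical
  have hex : ∃ n : ℕ, ((x, y + 1 + n, true) : Edg) ∈ Wall I G := by
    obtain ⟨j, h1, -, h3⟩ := h
    refine ⟨(j - (y + 1)).toNat, ?_⟩
    have e : y + 1 + ((j - (y + 1)).toNat : ℤ) = j := by omega
    rw [e]
    exact h3
  obtain ⟨j, h1, h2, h3⟩ := h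
  have hmin : ∀ m : ℕ, m < Nat.find hex → ((x, y + 1 + m, true) : Edg) ∉ Wall I G :=
    fun m hm => Nat.find_min hex hm
  refine ⟨y + 1 + (Nat.find hex : ℕ), ⟨by omega, ?_⟩, Nat.find_spec hex, ?_⟩
  · have : Nat.find hex ≤ (j - (y + 1)).toNat := by
      apply Nat.find_min'
      have e : y + 1 + ((j - (y + 1)).toNat : ℤ) = j := by omega
      rw [e]
      exact h3
    omega
  · intro i hi hij
    obtain ⟨m, hm⟩ := Int.eq_ofNat_of_zero_le (sub_nonneg.mpr hi)
    have ei : i = y + m := by omega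
    subst ei
    clear hi hm
    induction m with
    | zero => simpa using hO
    | succ m ih =>
      intro hc
      apply ih (by push_cast at hij; omega)
      have hnw := hmin m (by push_cast at hij; omega)
      have hst := Out_step (I := I) (G := G) hnw
      simp only [dsrc_true, dtgt_mk] at hst
      have e1 : y + 1 + (m : ℤ) - 1 = y + m := by ring
      rw [e1] at hst
      apply hst.mpr
      convert hc using 2
      push_cast
      ring_nf

/-- **The faces inside a closed dual ring joined to the free side are free.** -/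
theorem out_ring {I : Set ℤ} {G : Set Edg} {z r x y q p : ℤ} (hr : 2 ≤ r)
    (hx : z - r ≤ x) (hx2 : x ≤ z + r) (hy : 1 ≤ y) (hy2 : y + 2 ≤ r)
    {F : Finset Edg} (hF : (↑F : Set Edg) ⊆ dl '' (Gᶜ ∩ HP))
    (hT : LRc (z - 3 * r) (z + 3 * r) (r - 1) (3 * r - 1) F)
    (hR : TBc (z + r) (z + 3 * r - 1) (-1) (3 * r) F)
    (hL : TBc (z - 3 * r + 1) (z - r - 1) (-1) (3 * r) F)
    (hB : LRc (z - 3 * r) (z + 3 * r) 0 y F)
    (hp : z - r ≤ p ∧ p ≤ z + r) (hq : q ≤ z - 3 * r ∨ z + 3 * r ≤ q)
    (hpq : Reach (↑F : Set Edg) (p, -1) (q, -1)) (hqI : ¬ (q ∈ I ∧ q + 1 ∈ I)) :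
    Out I G (x, y) := by
  by_contra hO
  obtain ⟨s, s', hs, hs', hT⟩ := hT
  obtain ⟨fr, fr', hr1, hr2, hR⟩ := hR
  obtain ⟨fl, fl', hl1, hl2, hL⟩ := hL
  obtain ⟨t, t', ht, ht', hB⟩ := hB
  have hT0 := hT.mono (Set.inter_subset_inter_right (↑F : Set Edg)
    (by exact_mod_cast LRE_subset_RE : (↑(LRE (z - 3 * r) (z + 3 * r) (r - 1) (3 * r - 1)) :
      Set Edg) ⊆ ↑(RE (z - 3 * r) (z + 3 * r) (r - 1) (3 * r - 1))))
  have hR0 := hR.mono (Set.inter_subset_inter_right (↑F : Set Edg)
    (by exact_mod_cast TBE_subset_RE : (↑(TBE (z + r) (z + 3 * r - 1) (-1) (3 * r)) :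
      Set Edg) ⊆ ↑(RE (z + r) (z + 3 * r - 1) (-1) (3 * r))))
  have hL0 := hL.mono (Set.inter_subset_inter_right (↑F : Set Edg)
    (by exact_mod_cast TBE_subset_RE : (↑(TBE (z - 3 * r + 1) (z - r - 1) (-1) (3 * r)) :
      Set Edg) ⊆ ↑(RE (z - 3 * r + 1) (z - r - 1) (-1) (3 * r))))
  have hB0 := hB.mono (Set.inter_subset_inter_right (↑F : Set Edg)
    (by exact_mod_cast LRE_subset_RE : (↑(LRE (z - 3 * r) (z + 3 * r) 0 y) :
      Set Edg) ⊆ ↑(RE (z - 3 * r) (z + 3 * r) 0 y)))
  have mTR := cross_meet (F := (↑F : Set Edg)) (A := z - 3 * r) (B := z + 3 * r) (C := -1)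
    (D := 3 * r) (a := z + r) (b := z + 3 * r - 1) (c := r - 1) (d := 3 * r - 1) (by omega)
    (by omega) (by omega) (by omega) (by omega) (by omega) hT0 (by simp only; omega)
    (by simp only; omega) hR0 (by simp only; omega) (by simp only; omega)
  have mTL := cross_meet (F := (↑F : Set Edg)) (A := z - 3 * r) (B := z + 3 * r) (C := -1)
    (D := 3 * r) (a := z - 3 * r + 1) (b := z - r - 1) (c := r - 1) (d := 3 * r - 1) (by omega)
    (by omega) (by omega) (by omega) (by omega) (by omega) hT0 (by simp only; omega)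
    (by simp only; omega) hL0 (by simp only; omega) (by simp only; omega)
  have mBL := cross_meet (F := (↑F : Set Edg)) (A := z - 3 * r) (B := z + 3 * r) (C := -1)
    (D := 3 * r) (a := z - 3 * r + 1) (b := z - r - 1) (c := 0) (d := y) (by omega)
    (by omega) (by omega) (by omega) (by omega) (by omega) hB0 (by simp only; omega)
    (by simp only; omega) hL0 (by simp only; omega) (by simp only; omega)
  have tTR := mTR.mono Set.inter_subset_left
  have tTL := mTL.mono Set.inter_subset_left
  have tBL := mBL.mono Set.inter_subset_left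
  -- the start of the top crossing is joined to `(p, -1)`
  have hpT : Reach (↑F : Set Edg) (z - 3 * r, s) (p, -1) := by
    obtain ⟨w, hw1, hw2, hw3⟩ := first_exit (a := z - 3 * r + 1) (b := z + 3 * r - 1) (c := -2)
      (d := 3 * r - 1) (u := (p, -1)) (by unfold inR; simp only; omega) hpq
      (by simp only; omega)
    have hw4 : -1 ≤ w.2 := F_row hF (u := (p, -1)) (by simp) (hw3.mono Set.inter_subset_left)
    have hw5 : Reach (↑F ∩ ↑(RE (z - 3 * r + 1) (z + 3 * r - 1) (-1) (3 * r - 1))) (p, -1) w := by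
      refine hw3.mono ?_
      rintro ⟨a, b, _ | _⟩ ⟨h1, h2⟩
      · have h3 := F_low hF h1
        simp only at h3
        refine ⟨h1, ?_⟩
        rw [Finset.mem_coe, mem_RE_false] at h2 ⊢
        omega
      · have h3 := F_low hF h1
        simp only at h3
        refine ⟨h1, ?_⟩
        rw [Finset.mem_coe, mem_RE_true] at h2 ⊢
        omega
    rcases hw2 with h1 | h1 | h1 | h1
    · have m := cross_meet (F := (↑F : Set Edg)) (A := z - 3 * r + 1) (B := z + 3 * r - 1)
        (C := -1) (D := 3 * r) (a := z - 3 * r + 1) (b := z - r - 1) (c := -1) (d := 3 * r - 1)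
        le_rfl (by omega) (by omega) le_rfl (by omega) (by omega) hw5.symm (by omega)
        (by simp only; omega) hL0 (by simp only; omega) (by simp only; omega)
      exact tTL.trans ((m.mono Set.inter_subset_left).symm.trans
        (hw5.mono Set.inter_subset_left).symm)
    · have m := cross_meet (F := (↑F : Set Edg)) (A := z - 3 * r + 1) (B := z + 3 * r - 1)
        (C := -1) (D := 3 * r) (a := z + r) (b := z + 3 * r - 1) (c := -1) (d := 3 * r - 1)
        (by omega) (by omega) (by omega) le_rfl (by omega) (by omega) hw5 (by simp only; omega)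
        (by omega) hR0 (by simp only; omega) (by simp only; omega)
      exact tTR.trans (m.mono Set.inter_subset_left).symm
    · omega
    · have m := cross_meet (F := (↑F : Set Edg)) (A := z - 3 * r) (B := z + 3 * r)
        (C := -1) (D := 3 * r - 1) (a := z - 3 * r + 1) (b := z + 3 * r - 1) (c := r - 1)
        (d := 3 * r - 1) (by omega) (by omega) (by omega) (by omega) (by omega) le_rfl hT0
        (by simp only; omega) (by simp only; omega) hw5 (by simp only; omega) (by omega)
      exact m.mono Set.inter_subset_left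
  have qT : Reach (↑F : Set Edg) (q, -1) (z - 3 * r, s) := hpq.symm.trans hpT.symm
  have qR : Reach (↑F : Set Edg) (q, -1) (fr, -1) := qT.trans tTR
  have qL : Reach (↑F : Set Edg) (q, -1) (fl, -1) := qT.trans tTL
  have qB : Reach (↑F : Set Edg) (q, -1) (z - 3 * r, t) := qL.trans tBL.symm
  have OT : Out I G (z - 3 * r, s) := (inv hF hqI qT).2.1 (by simp only; omega)
  -- there is a wall edge above the face
  have hwall : ∃ j, y < j ∧ j ≤ 3 * r - 1 ∧ ((x, j, true) : Edg) ∈ Wall I G := by
    by_contra hno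
    push Not at hno
    have hvert : ∀ n : ℕ, y + n ≤ 3 * r - 1 →
        Reach (dl '' (Wall I G)ᶜ ∩ ↑(RE x (x + 1) y (3 * r - 1))) (x, y) (x, y + n) := by
      intro n
      induction n with
      | zero => intro _; simpa using Reach.refl _ _
      | succ n ih =>
        intro hn
        push_cast at hn
        refine (ih (by omega)).trans (Adj.reach ⟨(x, y + n, false), ⟨?_, ?_⟩, Or.inl ⟨rfl, ?_⟩⟩)
        · refine ⟨(x, y + n + 1, true), hno _ (by omega) (by omega), ?_⟩
          simp only [dl_t, Prod.mk.injEq, true_and, and_true]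
          ring
        · rw [Finset.mem_coe, mem_RE_false]; omega
        · simp only [tgt_false, Prod.mk.injEq, true_and]
          push_cast
          ring
    have h1 := hvert (3 * r - 1 - y).toNat (by omega)
    have e1 : y + ((3 * r - 1 - y).toNat : ℤ) = 3 * r - 1 := by omega
    rw [e1] at h1
    have hTw : Reach (dl '' (Wall I G)ᶜ ∩ ↑(RE (z - 3 * r) (z + 3 * r) (r - 1) (3 * r - 1)))
        (z - 3 * r, s) (z + 3 * r, s') := by
      refine hT0.mono ?_
      rintro e ⟨h2, h3⟩
      refine ⟨?_, h3⟩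
      obtain ⟨⟨a, b, _ | _⟩, ⟨h4, h5⟩, rfl⟩ := hF h2
      · exact Set.mem_image_of_mem _ (closed_not_wall h4 (by simp))
      · refine Set.mem_image_of_mem _ (closed_not_wall h4 ?_)
        intro _
        simp only
        rw [Finset.mem_coe, dl_t, mem_RE_false] at h3
        omega
    have m := cross_meet (F := dl '' (Wall I G)ᶜ) (A := z - 3 * r) (B := z + 3 * r) (C := y)
      (D := 3 * r - 1) (a := x) (b := x + 1) (c := r - 1) (d := 3 * r - 1) (by omega)
      (by omega) (by omega) (by omega) (by omega) le_rfl hTw (by simp only; omega)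
      (by simp only; omega) h1 (by simp only; omega) (by simp only; omega)
    have m2 := reach_dl.mp (m.mono Set.inter_subset_left)
    exact hO (m2.symm.trans OT)
  obtain ⟨j, ⟨hj1, hj2⟩, hjW, hno⟩ := first_above hwall hO
  -- an open path from the top of the face to `I`
  have hCI : CI I G (x, j) := by
    rcases hjW.2 with h1 | h1
    · exact h1.2
    · have := h1.1
      simp only at this
      omega
  obtain ⟨i0, hi0, hri⟩ := hCI
  set E : Set Edg := {e | e.1 = x ∧ e.2.2 = false ∧ y + 1 ≤ e.2.1 ∧ e.2.1 < j} with hE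
  have hup : ∀ n : ℕ, y + 1 + n ≤ j →
      Reach ((G ∪ E) ∩ HP) (x, y + 1) (x, y + 1 + n) := by
    intro n
    induction n with
    | zero => intro _; simpa using Reach.refl _ _
    | succ n ih =>
      intro hn
      push_cast at hn
      refine (ih (by omega)).trans (Adj.reach ⟨(x, y + 1 + n, false),
        ⟨Or.inr ⟨rfl, rfl, by simp only; omega, by simp only; omega⟩, ?_⟩, Or.inl ⟨rfl, ?_⟩⟩)
      · show 0 ≤ y + 1 + (n : ℤ)
        omega
      · simp only [tgt_false, Prod.mk.injEq, true_and]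
        push_cast
        ring
  have hu1 := hup (j - (y + 1)).toNat (by omega)
  have ej : y + 1 + ((j - (y + 1)).toNat : ℤ) = j := by omega
  rw [ej] at hu1
  have hpath : Reach ((G ∪ E) ∩ HP) (x, y + 1) (i0, 0) :=
    hu1.trans (hri.symm.mono (Set.inter_subset_inter_left _ Set.subset_union_left))
  obtain ⟨w, hw1, hw2, hw3⟩ := first_exit (a := z - 3 * r + 1) (b := z + 3 * r) (c := 0)
    (d := 3 * r) (u := (x, y + 1)) (by unfold inR; simp only; omega) hpath (by simp)
  have hw4 : Reach ((G ∪ E) ∩ ↑(RE (z - 3 * r + 1) (z + 3 * r) 0 (3 * r))) (x, y + 1) w :=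
    hw3.mono (by
      rintro e ⟨⟨h6, -⟩, h7⟩
      exact ⟨h6, h7⟩)
  have hy0 : 0 ≤ y := by omega
  rcases hw2 with h1 | h1 | h1 | h1
  · -- left
    obtain ⟨y1, y2, h2, h3, h4, -⟩ := sub_LR (a := z - 3 * r + 1) (b := z - r) (c := 0)
      (d := 3 * r) (by omega)
      (by
        rintro a b ⟨-, h⟩ _ _
        rw [Finset.mem_coe, mem_RE_true] at h
        omega)
      (by
        rintro a b ⟨-, h⟩ _ _
        rw [Finset.mem_coe, mem_RE_false] at h
        omega) hw4.symm h1.le (by simp only; omega)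
    have h5 := restr hF hqI hy0 hno (S := TBE (z - 3 * r + 1) (z - r - 1) (-1) (3 * r))
      (S' := LRE (z - 3 * r + 1) (z - r) 0 (3 * r)) (by
        rintro ⟨a, b, _ | _⟩ h
        · rw [dl_f, mem_TBE_true] at h
          rw [mem_LRE_false]; omega
        · rw [dl_t, mem_TBE_false] at h
          rw [mem_LRE_true]; omega) qL hL
    have h4' : Reach ((G ∪ E) ∩ ↑(LRE (z - 3 * r + 1) (z - r) 0 (3 * r)))
        (z - 3 * r + 1, y1) (z - r, y2) := by
      refine h4.mono ?_
      rintro e ⟨⟨h6, -⟩, h7⟩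
      exact ⟨h6, h7⟩
    exact no_both (F := G ∪ E) (by omega) h3 (by omega) h4' h5
  · -- right
    obtain ⟨y1, y2, h2, h3, h4, -⟩ := sub_LR (a := z + r) (b := z + 3 * r) (c := 0)
      (d := 3 * r) (by omega)
      (by
        rintro a b ⟨-, h⟩ _ _
        rw [Finset.mem_coe, mem_RE_true] at h
        omega)
      (by
        rintro a b ⟨-, h⟩ _ _
        rw [Finset.mem_coe, mem_RE_false] at h
        omega) hw4 (by simp only; omega) h1.ge
    have h5 := restr hF hqI hy0 hno (S := TBE (z + r) (z + 3 * r - 1) (-1) (3 * r))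
      (S' := LRE (z + r) (z + 3 * r) 0 (3 * r)) (by
        rintro ⟨a, b, _ | _⟩ h
        · rw [dl_f, mem_TBE_true] at h
          rw [mem_LRE_false]; omega
        · rw [dl_t, mem_TBE_false] at h
          rw [mem_LRE_true]; omega) qR hR
    have h4' : Reach ((G ∪ E) ∩ ↑(LRE (z + r) (z + 3 * r) 0 (3 * r)))
        (z + r, y1) (z + 3 * r, y2) := by
      refine h4.mono ?_
      rintro e ⟨⟨h6, -⟩, h7⟩
      exact ⟨h6, h7⟩
    exact no_both (F := G ∪ E) (by omega) h3 (by omega) h4' h5
  · -- bottom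
    obtain ⟨y1, y2, h2, h3, h4, -⟩ := sub_TB (a := z - 3 * r + 1) (b := z + 3 * r) (c := 0)
      (d := y + 1) (by omega)
      (by
        rintro a b ⟨-, h⟩ _ _
        rw [Finset.mem_coe, mem_RE_false] at h
        omega)
      (by
        rintro a b ⟨-, h⟩ _ _
        rw [Finset.mem_coe, mem_RE_true] at h
        omega) hw4.symm h1.le (by simp only; omega)
    have h5 := restr hF hqI hy0 hno (S := LRE (z - 3 * r) (z + 3 * r) 0 y)
      (S' := TBE (z - 3 * r + 1) (z + 3 * r) 0 (y + 1)) (by
        rintro ⟨a, b, _ | _⟩ h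
        · rw [dl_f, mem_LRE_true] at h
          rw [mem_TBE_false]; omega
        · rw [dl_t, mem_LRE_false] at h
          rw [mem_TBE_true]; omega) qB hB
    have h5' : DReach ((G ∪ E)ᶜ ∩ ↑(TBE (z - 3 * r + 1) (z + 3 * r) 0 (y + 1)))
        (z - 3 * r + 1 - 1, t) (z + 3 * r, t') := by
      have e2 : z - 3 * r + 1 - 1 = z - 3 * r := by ring
      rw [e2]
      exact h5
    have h4' : Reach ((G ∪ E) ∩ ↑(TBE (z - 3 * r + 1) (z + 3 * r) 0 (y + 1)))
        (y1, 0) (y2, y + 1) := by
      refine h4.mono ?_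
      rintro e ⟨⟨h6, -⟩, h7⟩
      exact ⟨h6, h7⟩
    exact no_both_TB (F := G ∪ E) (by omega) h3 (by omega) h4' h5'
  · -- top
    obtain ⟨y1, y2, h2, h3, h4, -⟩ := sub_TB (a := z - 3 * r + 1) (b := z + 3 * r) (c := r - 1)
      (d := 3 * r) (by omega)
      (by
        rintro a b ⟨-, h⟩ _ _
        rw [Finset.mem_coe, mem_RE_false] at h
        omega)
      (by
        rintro a b ⟨-, h⟩ _ _
        rw [Finset.mem_coe, mem_RE_true] at h
        omega) hw4 (by simp only; omega) h1.ge
    have h5 := restr hF hqI hy0 hno (S := LRE (z - 3 * r) (z + 3 * r) (r - 1) (3 * r - 1))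
      (S' := TBE (z - 3 * r + 1) (z + 3 * r) (r - 1) (3 * r)) (by
        rintro ⟨a, b, _ | _⟩ h
        · rw [dl_f, mem_LRE_true] at h
          rw [mem_TBE_false]; omega
        · rw [dl_t, mem_LRE_false] at h
          rw [mem_TBE_true]; omega) qT hT
    have h5' : DReach ((G ∪ E)ᶜ ∩ ↑(TBE (z - 3 * r + 1) (z + 3 * r) (r - 1) (3 * r)))
        (z - 3 * r + 1 - 1, s) (z + 3 * r, s') := by
      have e2 : z - 3 * r + 1 - 1 = z - 3 * r := by ring
      rw [e2]
      exact h5
    have h4' : Reach ((G ∪ E) ∩ ↑(TBE (z - 3 * r + 1) (z + 3 * r) (r - 1) (3 * r)))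
        (y1, r - 1) (y2, 3 * r) := by
      refine h4.mono ?_
      rintro e ⟨⟨h6, -⟩, h7⟩
      exact ⟨h6, h7⟩
    exact no_both_TB (F := G ∪ E) (by omega) h3 (by omega) h4' h5'

end Pool.Agent.H67LP
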