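import Mathlib

/-!
Schramm's function for `κ = 6`.
-/

set_option autoImplicit false

namespace Pool.Agent.H67LP

open Real MeasureTheory intervalIntegral

/-- the density -/
noncomputable def sf (t : ℝ) : ℝ := (Real.sin t) ^ (-(2 / 3) : ℝ)

/-- Schramm's function for `κ = 6` -/
noncomputable def schramm (θ : ℝ) : ℝ := (∫ t in (0 : ℝ)..θ, sf t) / ∫ t in (0 : ℝ)..π, sf t

theorem sf_meas : Measurable sf := Real.continuous_sin.measurable.pow_const _

theorem sf_pi_sub (t : ℝ) : sf (π - t) = sf t := by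
  unfold sf
  rw [Real.sin_pi_sub]

theorem rpow_int (a b : ℝ) : IntervalIntegrable (fun t : ℝ => t ^ (-(2 / 3) : ℝ)) volume a b :=
  intervalIntegral.intervalIntegrable_rpow' (by norm_num)

theorem sf_nonneg {t : ℝ} (h0 : 0 ≤ t) (h1 : t ≤ π) : 0 ≤ sf t :=
  Real.rpow_nonneg (Real.sin_nonneg_of_nonneg_of_le_pi h0 h1) _

theorem sf_le {t : ℝ} (h0 : 0 ≤ t) (h1 : t ≤ π / 2) :
    sf t ≤ (2 / π) ^ (-(2 / 3) : ℝ) * t ^ (-(2 / 3) : ℝ) := by
  rw [← Real.mul_rpow (by positivity) h0]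
  rcases eq_or_lt_of_le h0 with h | h
  · unfold sf
    rw [← h]
    simp
  · exact Real.rpow_le_rpow_of_nonpos (by positivity) (Real.mul_le_sin h0 h1) (by norm_num)

theorem le_sf {t : ℝ} (h0 : 0 < t) (h1 : t < π) : t ^ (-(2 / 3) : ℝ) ≤ sf t :=
  Real.rpow_le_rpow_of_nonpos (Real.sin_pos_of_pos_of_lt_pi h0 h1) (Real.sin_le h0.le)
    (by norm_num)

theorem sf_int_half : IntervalIntegrable sf volume 0 (π / 2) := by
  have h := (rpow_int 0 (π / 2)).const_mul ((2 / π) ^ (-(2 / 3) : ℝ))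
  refine h.mono_fun sf_meas.aestronglyMeasurable ?_
  refine (ae_restrict_iff' measurableSet_uIoc).mpr (Filter.Eventually.of_forall ?_)
  intro t ht
  rw [Set.uIoc_of_le (by positivity)] at ht
  have h1 := sf_le ht.1.le ht.2
  have h2 := sf_nonneg ht.1.le (by linarith [ht.2, Real.pi_pos])
  show ‖sf t‖ ≤ ‖(2 / π) ^ (-(2 / 3) : ℝ) * t ^ (-(2 / 3) : ℝ)‖
  rw [Real.norm_of_nonneg h2]
  exact h1.trans (le_abs_self _)

theorem sf_int : IntervalIntegrable sf volume 0 π := by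
  have h := sf_int_half.comp_sub_left π
  have e : (fun x => sf (π - x)) = sf := funext sf_pi_sub
  rw [e, sub_zero] at h
  have e2 : π - π / 2 = π / 2 := by ring
  rw [e2] at h
  exact sf_int_half.trans h.symm

theorem sf_int_sub {a b : ℝ} (ha : 0 ≤ a) (hab : a ≤ b) (hb : b ≤ π) :
    IntervalIntegrable sf volume a b := by
  apply sf_int.mono_set
  rw [Set.uIcc_of_le hab, Set.uIcc_of_le (ha.trans (hab.trans hb))]
  exact Set.Icc_subset_Icc ha hb

theorem int_rpow {θ : ℝ} : ∫ t in (0 : ℝ)..θ, t ^ (-(2 / 3) : ℝ) = 3 * θ ^ ((1 : ℝ) / 3) := by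
  rw [integral_rpow (Or.inl (by norm_num))]
  have e : (-(2 / 3) : ℝ) + 1 = 1 / 3 := by norm_num
  rw [e, Real.zero_rpow (by norm_num)]
  ring

theorem int_low {θ : ℝ} (h0 : 0 ≤ θ) (h1 : θ ≤ π) :
    3 * θ ^ ((1 : ℝ) / 3) ≤ ∫ t in (0 : ℝ)..θ, sf t := by
  rw [← int_rpow]
  apply intervalIntegral.integral_mono_on_of_le_Ioo h0 (rpow_int 0 θ)
    (sf_int_sub le_rfl h0 h1)
  intro t ht
  exact le_sf ht.1 (lt_of_lt_of_le ht.2 h1)

theorem int_up {θ : ℝ} (h0 : 0 ≤ θ) (h1 : θ ≤ π / 2) :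
    ∫ t in (0 : ℝ)..θ, sf t ≤ (2 / π) ^ (-(2 / 3) : ℝ) * (3 * θ ^ ((1 : ℝ) / 3)) := by
  rw [← int_rpow, ← intervalIntegral.integral_const_mul]
  apply intervalIntegral.integral_mono_on h0 (sf_int_sub le_rfl h0 (by linarith [Real.pi_pos]))
    ((rpow_int 0 θ).const_mul _)
  intro t ht
  exact sf_le ht.1 (ht.2.trans h1)

theorem total_pos : 0 < ∫ t in (0 : ℝ)..π, sf t :=
  lt_of_lt_of_le (by positivity) (int_low Real.pi_pos.le le_rfl)

theorem int_split {θ : ℝ} (h0 : 0 ≤ θ) (h1 : θ ≤ π) :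
    (∫ t in (0 : ℝ)..π, sf t) = (∫ t in (0 : ℝ)..θ, sf t) + ∫ t in (0 : ℝ)..(π - θ), sf t := by
  rw [← intervalIntegral.integral_add_adjacent_intervals (sf_int_sub le_rfl h0 h1)
    (sf_int_sub h0 h1 le_rfl)]
  congr 1
  have h := intervalIntegral.integral_comp_sub_left (a := 0) (b := π - θ) sf π
  have e : (fun x => sf (π - x)) = sf := funext sf_pi_sub
  rw [e, sub_zero] at h
  rw [h]
  congr 1
  ring

theorem schramm_symm {θ : ℝ} (h0 : 0 ≤ θ) (h1 : θ ≤ π) : 1 - schramm θ = schramm (π - θ) := by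
  have h := int_split h0 h1
  have hp := total_pos
  unfold schramm
  rw [eq_div_iff hp.ne', sub_mul, one_mul, div_mul_cancel₀ _ hp.ne']
  linarith

theorem int_le_total {θ : ℝ} (h0 : 0 ≤ θ) (h1 : θ ≤ π) :
    (∫ t in (0 : ℝ)..θ, sf t) ≤ ∫ t in (0 : ℝ)..π, sf t := by
  rw [int_split h0 h1]
  have h2 := int_low (θ := π - θ) (by linarith) (by linarith)
  have h3 : 0 ≤ 3 * (π - θ) ^ ((1 : ℝ) / 3) := by
    have : 0 ≤ π - θ := by linarith
    positivity
  linarith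

theorem schramm_bounds : ∃ c C : ℝ, 0 < c ∧ 0 < C ∧ ∀ θ : ℝ, 0 ≤ θ → θ ≤ π →
    c * θ ^ ((1 : ℝ) / 3) ≤ schramm θ ∧ schramm θ ≤ C * θ ^ ((1 : ℝ) / 3) := by
  have hp := total_pos
  set B : ℝ := ∫ t in (0 : ℝ)..π, sf t with hB
  refine ⟨3 / B, (2 / π) ^ (-(2 / 3) : ℝ) * 3 / B + 1, by positivity, by positivity, ?_⟩
  intro θ h0 h1
  have hθ : 0 ≤ θ ^ ((1 : ℝ) / 3) := by positivity
  constructor
  · have h := int_low h0 h1
    unfold schramm
    rw [← hB, div_mul_eq_mul_div]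
    exact div_le_div_of_nonneg_right h hp.le
  · rcases le_or_gt θ (π / 2) with h2 | h2
    · have h := int_up h0 h2
      unfold schramm
      rw [← hB]
      have h3 : (∫ t in (0 : ℝ)..θ, sf t) / B ≤
          ((2 / π) ^ (-(2 / 3) : ℝ) * (3 * θ ^ ((1 : ℝ) / 3))) / B :=
        div_le_div_of_nonneg_right h hp.le
      refine h3.trans ?_
      have e : ((2 / π) ^ (-(2 / 3) : ℝ) * (3 * θ ^ ((1 : ℝ) / 3))) / B =
          ((2 / π) ^ (-(2 / 3) : ℝ) * 3 / B) * θ ^ ((1 : ℝ) / 3) := by ring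
      rw [e]
      exact mul_le_mul_of_nonneg_right (by linarith) hθ
    · have h3 : schramm θ ≤ 1 := by
        unfold schramm
        rw [← hB, div_le_one hp]
        exact int_le_total h0 h1
      have h4 : (1 : ℝ) ≤ θ ^ ((1 : ℝ) / 3) :=
        Real.one_le_rpow (by linarith [Real.pi_gt_three]) (by norm_num)
      have h5 : 0 ≤ (2 / π) ^ (-(2 / 3) : ℝ) * 3 / B := by positivity
      calc schramm θ ≤ 1 := h3
        _ ≤ θ ^ ((1 : ℝ) / 3) := h4
        _ ≤ _ := by nlinarith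

end Pool.Agent.H67LP
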