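import Pool.Agent.H67LP.ProbD
import Pool.Agent.H67LP.Schramm
import Pool.Agent.H67LP.Angle

/-!
Left passage probabilities: the final comparison.
-/

set_option autoImplicit false

namespace Pool.Agent.H67LP

open H974 H731C Finset MeasureTheory Filter Topology

/-- the angle under which the interval is seen from the centre of the face -/
noncomputable def angI (a b x y : ℤ) : ℝ :=
  Real.arctan (((b : ℝ) - x) / ((y : ℝ) + 1 / 2)) -
    Real.arctan (((a : ℝ) - 1 - x) / ((y : ℝ) + 1 / 2))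

/-- the angle under which the half-line is seen from the centre of the face -/
noncomputable def angInf (b x y : ℤ) : ℝ :=
  Real.pi / 2 + Real.arctan (((b : ℝ) - x) / ((y : ℝ) + 1 / 2))

theorem angI_eq (a b x y : ℤ) : angI a b x y =
    Real.arctan (((b : ℝ) - x) / ((y : ℝ) + 1 / 2)) +
      Real.arctan (((x : ℝ) - a + 1) / ((y : ℝ) + 1 / 2)) := by
  unfold angI
  have e : ((a : ℝ) - 1 - x) / ((y : ℝ) + 1 / 2) = -(((x : ℝ) - a + 1) / ((y : ℝ) + 1 / 2)) := by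
    rw [← neg_div]
    congr 1
    ring
  rw [e, Real.arctan_neg]
  ring

theorem phi_le {h L D η δ : ℝ} (hη : h / 2 ≤ η) (hη2 : η ≤ h) (hh : 1 ≤ h) (hL : 0 < L)
    (hδ : 0 ≤ δ) (hδD : δ ≤ D) :
    1 / 2 * ((h * L) / ((D + h) * (D + h + L))) ≤
      L * η / (η ^ 2 + δ * L + δ ^ 2 + L * η) := by
  have hη0 : 0 < η := by linarith
  have hD : 0 ≤ D := hδ.trans hδD
  rw [← mul_div_assoc, div_le_div_iff₀ (by positivity) (by positivity)]
  have h1 : η ^ 2 + δ * L + δ ^ 2 + L * η ≤ (D + h) * (D + h + L) := by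
    have a1 : δ * L ≤ D * L := mul_le_mul_of_nonneg_right hδD hL.le
    have a2 : L * η ≤ L * h := mul_le_mul_of_nonneg_left hη2 hL.le
    have a3 : η ^ 2 ≤ h ^ 2 := pow_le_pow_left₀ hη0.le hη2 2
    have a4 : δ ^ 2 ≤ D ^ 2 := pow_le_pow_left₀ hδ hδD 2
    nlinarith [mul_nonneg hD (by linarith : (0 : ℝ) ≤ h)]
  calc 1 / 2 * (h * L) * (η ^ 2 + δ * L + δ ^ 2 + L * η)
      ≤ 1 / 2 * (h * L) * ((D + h) * (D + h + L)) :=
        mul_le_mul_of_nonneg_left h1 (by positivity)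
    _ = (L * (h / 2)) * ((D + h) * (D + h + L)) := by ring
    _ ≤ (L * η) * ((D + h) * (D + h + L)) := by
        apply mul_le_mul_of_nonneg_right (mul_le_mul_of_nonneg_left hη hL.le)
        positivity

theorem le_phi {h L D η δ : ℝ} (hη : h / 2 ≤ η) (hη2 : η ≤ h) (hh : 1 ≤ h) (hL : 0 < L)
    (hδ : 0 ≤ δ) (hD0 : 0 ≤ D) (hδD : D ≤ δ + 1) :
    5 * (L * η / (η ^ 2 + δ * L + δ ^ 2 + L * η)) ≤
      160 * ((h * L) / ((D + h) * (D + h + L))) := by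
  have hη0 : 0 < η := by linarith
  rw [← mul_div_assoc, ← mul_div_assoc, div_le_div_iff₀ (by positivity) (by positivity)]
  have h1 : (δ + η) * (δ + η + L) ≤ 2 * (η ^ 2 + δ * L + δ ^ 2 + L * η) := by
    nlinarith [sq_nonneg (δ - η), mul_nonneg hδ hL.le, mul_nonneg hL.le hη0.le]
  have h2 : D + h ≤ 4 * (δ + η) := by linarith
  have h3 : D + h + L ≤ 4 * (δ + η + L) := by linarith
  have h4 : (D + h) * (D + h + L) ≤ 32 * (η ^ 2 + δ * L + δ ^ 2 + L * η) := by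
    have : (D + h) * (D + h + L) ≤ (4 * (δ + η)) * (4 * (δ + η + L)) :=
      mul_le_mul h2 h3 (by positivity) (by positivity)
    nlinarith
  calc 5 * (L * η) * ((D + h) * (D + h + L))
      ≤ 5 * (L * η) * (32 * (η ^ 2 + δ * L + δ ^ 2 + L * η)) :=
        mul_le_mul_of_nonneg_left h4 (by positivity)
    _ = 160 * (η * L) * (η ^ 2 + δ * L + δ ^ 2 + L * η) := by ring
    _ ≤ 160 * (h * L) * (η ^ 2 + δ * L + δ ^ 2 + L * η) := by
        apply mul_le_mul_of_nonneg_right _ (by positivity)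
        nlinarith

theorem angI_Phi {a b x y D : ℤ} (hab : a ≤ b) (hy : 0 ≤ y)
    (hD : D = max 0 (max (a - x) (x - b))) :
    1 / 2 * Phi (y + 1) (b - a + 1) D ≤ angI a b x y ∧
      angI a b x y ≤ 160 * Phi (y + 1) (b - a + 1) D := by
  have hyr : (0 : ℝ) ≤ (y : ℝ) := by exact_mod_cast hy
  have habr : (a : ℝ) ≤ (b : ℝ) := by exact_mod_cast hab
  have hη0 : (0 : ℝ) < (y : ℝ) + 1 / 2 := by linarith
  obtain ⟨δ, hδ⟩ : ∃ δ : ℤ, δ = max 0 (max (-(b - x)) (-(x - a + 1))) := ⟨_, rfl⟩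
  have hδr : (δ : ℝ) = max 0 (max (-((b : ℝ) - x)) (-((x : ℝ) - a + 1))) := by
    rw [hδ]
    push_cast
    rfl
  have h1 := theta_bounds (U := (b : ℝ) - x) (W := (x : ℝ) - a + 1) (η := (y : ℝ) + 1 / 2)
    (δ := δ) hη0 (by linarith) hδr
  rw [← angI_eq] at h1
  have e : (b : ℝ) - x + ((x : ℝ) - a + 1) = ((b - a + 1 : ℤ) : ℝ) := by
    push_cast
    ring
  rw [e] at h1
  have hL : (0 : ℝ) < ((b - a + 1 : ℤ) : ℝ) := by exact_mod_cast (by omega : 0 < b - a + 1)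
  have hh : (1 : ℝ) ≤ ((y + 1 : ℤ) : ℝ) := by exact_mod_cast (by omega : (1 : ℤ) ≤ y + 1)
  have hη1 : ((y + 1 : ℤ) : ℝ) / 2 ≤ (y : ℝ) + 1 / 2 := by push_cast; linarith
  have hη2 : (y : ℝ) + 1 / 2 ≤ ((y + 1 : ℤ) : ℝ) := by push_cast; linarith
  have hδ0 : (0 : ℝ) ≤ (δ : ℝ) := by exact_mod_cast (by omega : 0 ≤ δ)
  have hD0 : (0 : ℝ) ≤ (D : ℝ) := by exact_mod_cast (by omega : 0 ≤ D)
  have hδD : (δ : ℝ) ≤ (D : ℝ) := by exact_mod_cast (by omega : δ ≤ D)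
  have hDδ : (D : ℝ) ≤ (δ : ℝ) + 1 := by exact_mod_cast (by omega : D ≤ δ + 1)
  constructor
  · refine le_trans ?_ h1.1
    unfold Phi
    exact phi_le hη1 hη2 hh hL hδ0 hδD
  · refine h1.2.trans ?_
    unfold Phi
    exact le_phi hη1 hη2 hh hL hδ0 hD0 hDδ

theorem angI_comp {a b x y e : ℤ} (hy : 0 ≤ y)
    (he : e = max 0 (min (x - a) (b - x))) :
    1 / 4 * (((y + 1 : ℤ) : ℝ) / ((e : ℝ) + ((y + 1 : ℤ) : ℝ))) ≤ Real.pi - angI a b x y ∧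
      Real.pi - angI a b x y ≤ 8 * (((y + 1 : ℤ) : ℝ) / ((e : ℝ) + ((y + 1 : ℤ) : ℝ))) := by
  have hyr : (0 : ℝ) ≤ (y : ℝ) := by exact_mod_cast hy
  have hη0 : (0 : ℝ) < (y : ℝ) + 1 / 2 := by linarith
  have hh : (1 : ℝ) ≤ ((y + 1 : ℤ) : ℝ) := by exact_mod_cast (by omega : (1 : ℤ) ≤ y + 1)
  have hη1 : ((y + 1 : ℤ) : ℝ) / 2 ≤ (y : ℝ) + 1 / 2 := by push_cast; linarith
  have hη2 : (y : ℝ) + 1 / 2 ≤ ((y + 1 : ℤ) : ℝ) := by push_cast; linarith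
  have he0 : (0 : ℝ) ≤ (e : ℝ) := by exact_mod_cast (by omega : 0 ≤ e)
  obtain ⟨m1, hm1⟩ : ∃ m : ℤ, m = max 0 (b - x) := ⟨_, rfl⟩
  obtain ⟨m2, hm2⟩ : ∃ m : ℤ, m = max 0 (x - a + 1) := ⟨_, rfl⟩
  have hm1r : (m1 : ℝ) = max 0 ((b : ℝ) - x) := by rw [hm1]; push_cast; rfl
  have hm2r : (m2 : ℝ) = max 0 ((x : ℝ) - a + 1) := by rw [hm2]; push_cast; rfl
  have u1 := psi_low (((b : ℝ) - x) / ((y : ℝ) + 1 / 2))
  have u2 := psi_up (((b : ℝ) - x) / ((y : ℝ) + 1 / 2))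
  have w1 := psi_low (((x : ℝ) - a + 1) / ((y : ℝ) + 1 / 2))
  have w2 := psi_up (((x : ℝ) - a + 1) / ((y : ℝ) + 1 / 2))
  rw [max_div hη0, ← hm1r] at u1 u2
  rw [max_div hη0, ← hm2r] at w1 w2
  have hm10 : (0 : ℝ) ≤ (m1 : ℝ) := by exact_mod_cast (by omega : 0 ≤ m1)
  have hm20 : (0 : ℝ) ≤ (m2 : ℝ) := by exact_mod_cast (by omega : 0 ≤ m2)
  have n1 : 0 ≤ 1 / (1 + (m1 : ℝ) / ((y : ℝ) + 1 / 2)) := by positivity
  have n2 : 0 ≤ 1 / (1 + (m2 : ℝ) / ((y : ℝ) + 1 / 2)) := by positivity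
  have hpi := Real.pi_lt_four
  rw [angI_eq]
  constructor
  · rcases le_or_gt m1 m2 with h | h
    · have := eta_low (m := (m1 : ℝ)) hη1 hh hm10
        (by exact_mod_cast (by omega : m1 ≤ e + 1)) he0
      linarith
    · have := eta_low (m := (m2 : ℝ)) hη1 hh hm20
        (by exact_mod_cast (by omega : m2 ≤ e + 1)) he0
      linarith
  · have v1 := eta_up (m := (m1 : ℝ)) hη1 hη2 hh
      (by exact_mod_cast (by omega : e ≤ m1)) he0
    have v2 := eta_up (m := (m2 : ℝ)) hη1 hη2 hh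
      (by exact_mod_cast (by omega : e ≤ m2)) he0
    have p1 : Real.pi / (1 + (m1 : ℝ) / ((y : ℝ) + 1 / 2)) ≤
        4 * (1 / (1 + (m1 : ℝ) / ((y : ℝ) + 1 / 2))) := by
      rw [mul_one_div]
      exact div_le_div_of_nonneg_right hpi.le (by positivity)
    have p2 : Real.pi / (1 + (m2 : ℝ) / ((y : ℝ) + 1 / 2)) ≤
        4 * (1 / (1 + (m2 : ℝ) / ((y : ℝ) + 1 / 2))) := by
      rw [mul_one_div]
      exact div_le_div_of_nonneg_right hpi.le (by positivity)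
    linarith

theorem angInf_bounds {b x y D : ℤ} (hy : 0 ≤ y) (hD : D = max 0 (x - b)) :
    1 / 4 * (((y + 1 : ℤ) : ℝ) / ((D : ℝ) + ((y + 1 : ℤ) : ℝ))) ≤ angInf b x y ∧
      angInf b x y ≤ 4 * (((y + 1 : ℤ) : ℝ) / ((D : ℝ) + ((y + 1 : ℤ) : ℝ))) := by
  have hh : (1 : ℝ) ≤ ((y + 1 : ℤ) : ℝ) := by exact_mod_cast (by omega : (1 : ℤ) ≤ y + 1)
  have hyr : (0 : ℝ) ≤ (y : ℝ) := by exact_mod_cast hy
  have hη1 : ((y + 1 : ℤ) : ℝ) / 2 ≤ (y : ℝ) + 1 / 2 := by push_cast; linarith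
  have hη2 : (y : ℝ) + 1 / 2 ≤ ((y + 1 : ℤ) : ℝ) := by push_cast; linarith
  have hDr : (D : ℝ) = max 0 ((x : ℝ) - b) := by rw [hD]; push_cast; rfl
  have h := psi_eta (u := (x : ℝ) - b) hη1 hη2 hh hDr
  have e : Real.pi / 2 - Real.arctan (((x : ℝ) - b) / ((y : ℝ) + 1 / 2)) = angInf b x y := by
    unfold angInf
    have e1 : ((x : ℝ) - b) / ((y : ℝ) + 1 / 2) = -(((b : ℝ) - x) / ((y : ℝ) + 1 / 2)) := by
      rw [← neg_div]
      congr 1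
      ring
    rw [e1, Real.arctan_neg]
    ring
  rwa [e] at h

theorem angInf_comp {b x y e : ℤ} (hy : 0 ≤ y) (he : e = max 0 (b - x)) :
    1 / 4 * (((y + 1 : ℤ) : ℝ) / ((e : ℝ) + ((y + 1 : ℤ) : ℝ))) ≤ Real.pi - angInf b x y ∧
      Real.pi - angInf b x y ≤ 4 * (((y + 1 : ℤ) : ℝ) / ((e : ℝ) + ((y + 1 : ℤ) : ℝ))) := by
  have hh : (1 : ℝ) ≤ ((y + 1 : ℤ) : ℝ) := by exact_mod_cast (by omega : (1 : ℤ) ≤ y + 1)
  have hyr : (0 : ℝ) ≤ (y : ℝ) := by exact_mod_cast hy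
  have hη1 : ((y + 1 : ℤ) : ℝ) / 2 ≤ (y : ℝ) + 1 / 2 := by push_cast; linarith
  have hη2 : (y : ℝ) + 1 / 2 ≤ ((y + 1 : ℤ) : ℝ) := by push_cast; linarith
  have her : (e : ℝ) = max 0 ((b : ℝ) - x) := by rw [he]; push_cast; rfl
  have h := psi_eta (u := (b : ℝ) - x) hη1 hη2 hh her
  have e1 : Real.pi / 2 - Real.arctan (((b : ℝ) - x) / ((y : ℝ) + 1 / 2)) =
      Real.pi - angInf b x y := by
    unfold angInf
    ring
  rwa [e1] at h

theorem combine {c1 C1 c2 C2 X θ P S : ℝ} (hC1 : 0 < C1) (hc1 : 0 < c1) (hc2 : 0 < c2)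
    (hC2 : 0 < C2) (hX : 0 ≤ X) (hθ : 0 ≤ θ) (h1 : X ≤ 4 * θ) (h2 : θ ≤ 216 * X)
    (hP1 : c1 * X ^ ((1 : ℝ) / 3) ≤ P) (hP2 : P ≤ C1 * X ^ ((1 : ℝ) / 3))
    (hS1 : c2 * θ ^ ((1 : ℝ) / 3) ≤ S) (hS2 : S ≤ C2 * θ ^ ((1 : ℝ) / 3)) :
    c1 / (6 * C2) * S ≤ P ∧ P ≤ 2 * C1 / c2 * S := by
  have k1 := cube_root_le (K := 2) hX hθ (by norm_num) h1 (by norm_num)
  have k2 := cube_root_le (K := 6) hθ hX (by norm_num) h2 (by norm_num)
  constructor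
  · refine le_trans ?_ hP1
    calc c1 / (6 * C2) * S ≤ c1 / (6 * C2) * (C2 * (6 * X ^ ((1 : ℝ) / 3))) := by
          apply mul_le_mul_of_nonneg_left _ (by positivity)
          exact hS2.trans (mul_le_mul_of_nonneg_left k2 hC2.le)
      _ = c1 * X ^ ((1 : ℝ) / 3) := by
          field_simp
  · refine hP2.trans ?_
    calc C1 * X ^ ((1 : ℝ) / 3) ≤ C1 * (2 * θ ^ ((1 : ℝ) / 3)) :=
          mul_le_mul_of_nonneg_left k1 hC1.le
      _ = 2 * C1 / c2 * (c2 * θ ^ ((1 : ℝ) / 3)) := by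
          field_simp
      _ ≤ 2 * C1 / c2 * S := mul_le_mul_of_nonneg_left hS1 (by positivity)

/-- the interval -/
theorem main_Icc : ∃ c C : ℝ, 0 < c ∧ 0 < C ∧ ∀ a b x y : ℤ, a ≤ b → 0 ≤ y →
    (c * schramm (angI a b x y) ≤ (bondLaw half).real (SurrE (Set.Icc a b) x y) ∧
      (bondLaw half).real (SurrE (Set.Icc a b) x y) ≤ C * schramm (angI a b x y)) ∧
    (c * (1 - schramm (angI a b x y)) ≤ (bondLaw half).real (OutE (Set.Icc a b) x y) ∧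
      (bondLaw half).real (OutE (Set.Icc a b) x y) ≤ C * (1 - schramm (angI a b x y))) := by
  obtain ⟨c1, hc1, h1⟩ := surr_lower
  obtain ⟨C1, hC1, h2⟩ := surr_upper
  obtain ⟨c3, hc3, h3⟩ := out_lower
  obtain ⟨C3, hC3, h4⟩ := out_upper
  obtain ⟨c2, C2, hc2, hC2, hS⟩ := schramm_bounds
  refine ⟨min (c1 / (6 * C2)) (c3 / (6 * C2)), 2 * C1 / c2 + 2 * C3 / c2,
    lt_min (by positivity) (by positivity), by positivity, ?_⟩
  intro a b x y hab hy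
  obtain ⟨D, hD⟩ : ∃ D : ℤ, D = max 0 (max (a - x) (x - b)) := ⟨_, rfl⟩
  obtain ⟨e, he⟩ : ∃ e : ℤ, e = max 0 (min (x - a) (b - x)) := ⟨_, rfl⟩
  have a1 := angI_Phi hab hy hD
  have a2 := angI_comp (a := a) (b := b) hy he
  have b1 := h1 a b x y hab hy
  have b2 := h2 a b x y hab hy
  have b3 := h3 a b x y hab hy
  have b4 := h4 a b x y hab hy
  rw [← hD] at b1 b2
  rw [← he] at b3 b4
  have hPhi : 0 ≤ Phi (y + 1) (b - a + 1) D := Phi_nonneg (by omega) (by omega) (by omega)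
  have her : (0 : ℝ) ≤ (e : ℝ) := by exact_mod_cast (by omega : 0 ≤ e)
  have hh : (1 : ℝ) ≤ ((y + 1 : ℤ) : ℝ) := by exact_mod_cast (by omega : (1 : ℤ) ≤ y + 1)
  have hE : 0 ≤ ((y + 1 : ℤ) : ℝ) / ((e : ℝ) + ((y + 1 : ℤ) : ℝ)) := by positivity
  have hθ0 : 0 ≤ angI a b x y := by linarith [a1.1]
  have hθ1 : 0 ≤ Real.pi - angI a b x y := by linarith [a2.1]
  have s1 := hS (angI a b x y) hθ0 (by linarith)
  have s2 := hS (Real.pi - angI a b x y) hθ1 (by linarith)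
  rw [schramm_symm hθ0 (by linarith)]
  have r1 := combine hC1 hc1 hc2 hC2 hPhi hθ0 (by linarith [a1.1]) (by linarith [a1.2]) b1 b2
    s1.1 s1.2
  have r2 := combine hC3 hc3 hc2 hC2 hE hθ1 (by linarith [a2.1]) (by linarith [a2.2]) b3 b4
    s2.1 s2.2
  have t1 : 0 ≤ schramm (angI a b x y) := le_trans (by positivity) s1.1
  have t2 : 0 ≤ schramm (Real.pi - angI a b x y) := le_trans (by positivity) s2.1
  have p1 : 0 ≤ 2 * C1 / c2 := by positivity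
  have p3 : 0 ≤ 2 * C3 / c2 := by positivity
  refine ⟨⟨?_, ?_⟩, ?_, ?_⟩
  · exact (mul_le_mul_of_nonneg_right (min_le_left _ _) t1).trans r1.1
  · exact r1.2.trans (mul_le_mul_of_nonneg_right (by linarith) t1)
  · exact (mul_le_mul_of_nonneg_right (min_le_right _ _) t2).trans r2.1
  · exact r2.2.trans (mul_le_mul_of_nonneg_right (by linarith) t2)

/-- the half-line -/
theorem main_Iic : ∃ c C : ℝ, 0 < c ∧ 0 < C ∧ ∀ b x y : ℤ, 0 ≤ y →
    (c * schramm (angInf b x y) ≤ (bondLaw half).real (SurrE (Set.Iic b) x y) ∧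
      (bondLaw half).real (SurrE (Set.Iic b) x y) ≤ C * schramm (angInf b x y)) ∧
    (c * (1 - schramm (angInf b x y)) ≤ (bondLaw half).real (OutE (Set.Iic b) x y) ∧
      (bondLaw half).real (OutE (Set.Iic b) x y) ≤ C * (1 - schramm (angInf b x y))) := by
  obtain ⟨c1, hc1, h1⟩ := surr_lower_Iic
  obtain ⟨C1, hC1, h2⟩ := surr_upper_Iic
  obtain ⟨c3, hc3, h3⟩ := out_lower_Iic
  obtain ⟨C3, hC3, h4⟩ := out_upper_Iic
  obtain ⟨c2, C2, hc2, hC2, hS⟩ := schramm_bounds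
  refine ⟨min (c1 / (6 * C2)) (c3 / (6 * C2)), 2 * C1 / c2 + 2 * C3 / c2,
    lt_min (by positivity) (by positivity), by positivity, ?_⟩
  intro b x y hy
  obtain ⟨D, hD⟩ : ∃ D : ℤ, D = max 0 (x - b) := ⟨_, rfl⟩
  obtain ⟨e, he⟩ : ∃ e : ℤ, e = max 0 (b - x) := ⟨_, rfl⟩
  have a1 := angInf_bounds hy hD
  have a2 := angInf_comp hy he
  have b1 := h1 b x y hy
  have b2 := h2 b x y hy
  have b3 := h3 b x y hy
  have b4 := h4 b x y hy
  rw [← hD] at b1 b2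
  rw [← he] at b3 b4
  have hDr : (0 : ℝ) ≤ (D : ℝ) := by exact_mod_cast (by omega : 0 ≤ D)
  have her : (0 : ℝ) ≤ (e : ℝ) := by exact_mod_cast (by omega : 0 ≤ e)
  have hh : (1 : ℝ) ≤ ((y + 1 : ℤ) : ℝ) := by exact_mod_cast (by omega : (1 : ℤ) ≤ y + 1)
  have hE1 : 0 ≤ ((y + 1 : ℤ) : ℝ) / ((D : ℝ) + ((y + 1 : ℤ) : ℝ)) := by positivity
  have hE : 0 ≤ ((y + 1 : ℤ) : ℝ) / ((e : ℝ) + ((y + 1 : ℤ) : ℝ)) := by positivity
  have hθ0 : 0 ≤ angInf b x y := by linarith [a1.1]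
  have hθ1 : 0 ≤ Real.pi - angInf b x y := by linarith [a2.1]
  have s1 := hS (angInf b x y) hθ0 (by linarith)
  have s2 := hS (Real.pi - angInf b x y) hθ1 (by linarith)
  rw [schramm_symm hθ0 (by linarith)]
  have r1 := combine hC1 hc1 hc2 hC2 hE1 hθ0 (by linarith [a1.1]) (by linarith [a1.2]) b1 b2
    s1.1 s1.2
  have r2 := combine hC3 hc3 hc2 hC2 hE hθ1 (by linarith [a2.1]) (by linarith [a2.2]) b3 b4
    s2.1 s2.2
  have t1 : 0 ≤ schramm (angInf b x y) := le_trans (by positivity) s1.1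
  have t2 : 0 ≤ schramm (Real.pi - angInf b x y) := le_trans (by positivity) s2.1
  have p1 : 0 ≤ 2 * C1 / c2 := by positivity
  have p3 : 0 ≤ 2 * C3 / c2 := by positivity
  refine ⟨⟨?_, ?_⟩, ?_, ?_⟩
  · exact (mul_le_mul_of_nonneg_right (min_le_left _ _) t1).trans r1.1
  · exact r1.2.trans (mul_le_mul_of_nonneg_right (by linarith) t1)
  · exact (mul_le_mul_of_nonneg_right (min_le_right _ _) t2).trans r2.1
  · exact r2.2.trans (mul_le_mul_of_nonneg_right (by linarith) t2)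

end Pool.Agent.H67LP
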