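import Pool.Agent.H67LP.Meas

/-!
Points of the upper half-plane, small mesh.
-/

set_option autoImplicit false

namespace Pool.Agent.H67LP

open H974 H731C Finset MeasureTheory Filter Topology

theorem arg_eq {z : ℂ} (h : 0 < z.im) : z.arg = Real.pi / 2 - Real.arctan (z.re / z.im) := by
  set t : ℝ := z.re / z.im with ht
  have hs : 0 < Real.sqrt (1 + t ^ 2) := Real.sqrt_pos.mpr (by positivity)
  have h1 : z = ((z.im * Real.sqrt (1 + t ^ 2) : ℝ) : ℂ) *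
      (Real.cos (Real.pi / 2 - Real.arctan t) + Real.sin (Real.pi / 2 - Real.arctan t) *
        Complex.I) := by
    rw [Real.cos_pi_div_two_sub, Real.sin_pi_div_two_sub, Real.sin_arctan, Real.cos_arctan]
    apply Complex.ext
    · simp only [Complex.mul_re, Complex.ofReal_re, Complex.ofReal_im, Complex.add_re,
        Complex.I_re, Complex.I_im, Complex.add_im, Complex.mul_im]
      rw [ht]
      field_simp
      ring
    · simp only [Complex.mul_re, Complex.ofReal_re, Complex.ofReal_im, Complex.add_re,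
        Complex.I_re, Complex.I_im, Complex.add_im, Complex.mul_im]
      field_simp
      ring
  have h2 := Real.arctan_lt_pi_div_two t
  have h3 := Real.neg_pi_div_two_lt_arctan t
  have h4 := Complex.arg_mul_cos_add_sin_mul_I (r := z.im * Real.sqrt (1 + t ^ 2))
    (θ := Real.pi / 2 - Real.arctan t) (by positivity) ⟨by linarith, by linarith⟩
  conv_lhs => rw [h1, Complex.ofReal_cos, Complex.ofReal_sin]
  exact h4

theorem floor_tendsto (X : ℝ) : Tendsto (fun δ : ℝ => δ * (⌊X / δ⌋ : ℝ)) (𝓝[>] 0) (𝓝 X) := by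
  have h1 : Tendsto (fun δ : ℝ => X - δ) (𝓝[>] 0) (𝓝 X) := by
    have : Tendsto (fun δ : ℝ => X - δ) (𝓝 0) (𝓝 (X - 0)) := tendsto_const_nhds.sub tendsto_id
    rw [sub_zero] at this
    exact this.mono_left nhdsWithin_le_nhds
  refine tendsto_of_tendsto_of_tendsto_of_le_of_le' h1 tendsto_const_nhds ?_ ?_
  · filter_upwards [self_mem_nhdsWithin] with δ hδ
    have hδ0 : (0 : ℝ) < δ := hδ
    have h2 := Int.sub_one_lt_floor (X / δ)
    have h3 : X - δ = δ * (X / δ - 1) := by field_simp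
    rw [h3]
    exact mul_le_mul_of_nonneg_left h2.le hδ0.le
  · filter_upwards [self_mem_nhdsWithin] with δ hδ
    have hδ0 : (0 : ℝ) < δ := hδ
    have h2 := Int.floor_le (X / δ)
    calc δ * (⌊X / δ⌋ : ℝ) ≤ δ * (X / δ) := mul_le_mul_of_nonneg_left h2 hδ0.le
      _ = X := by field_simp

theorem ang_tendsto {X Y : ℝ} (hY : 0 < Y) :
    Tendsto (fun δ : ℝ => angInf 0 ⌊X / δ⌋ ⌊Y / δ⌋) (𝓝[>] 0)
      (𝓝 (Real.pi / 2 - Real.arctan (X / Y))) := by
  have h1 := floor_tendsto X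
  have h2 := floor_tendsto Y
  have hid : Tendsto (fun δ : ℝ => δ * (1 / 2)) (𝓝[>] 0) (𝓝 0) := by
    have : Tendsto (fun δ : ℝ => δ * (1 / 2)) (𝓝 0) (𝓝 (0 * (1 / 2))) :=
      tendsto_id.mul tendsto_const_nhds
    rw [zero_mul] at this
    exact this.mono_left nhdsWithin_le_nhds
  have h3 := h2.add hid
  rw [add_zero] at h3
  have h4 := (h1.neg).div h3 hY.ne'
  have h5 := (Real.continuous_arctan.tendsto _).comp h4
  have h6 := h5.const_add (Real.pi / 2)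
  have e : Real.pi / 2 + Real.arctan (-X / Y) = Real.pi / 2 - Real.arctan (X / Y) := by
    rw [neg_div, Real.arctan_neg]
    ring
  rw [e] at h6
  refine h6.congr' ?_
  filter_upwards [self_mem_nhdsWithin] with δ hδ
  have hδ0 : (0 : ℝ) < δ := hδ
  have e2 : δ * (⌊Y / δ⌋ : ℝ) + δ * (1 / 2) = δ * ((⌊Y / δ⌋ : ℝ) + 1 / 2) := by ring
  have e3 : -(δ * (⌊X / δ⌋ : ℝ)) = δ * (((0 : ℤ) : ℝ) - (⌊X / δ⌋ : ℝ)) := by
    push_cast
    ring
  have key : -(δ * (⌊X / δ⌋ : ℝ)) / (δ * (⌊Y / δ⌋ : ℝ) + δ * (1 / 2)) =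
      (((0 : ℤ) : ℝ) - (⌊X / δ⌋ : ℝ)) / ((⌊Y / δ⌋ : ℝ) + 1 / 2) := by
    rw [e2, e3, mul_div_mul_left _ _ hδ0.ne']
  show Real.pi / 2 + Real.arctan (-(δ * (⌊X / δ⌋ : ℝ)) /
    (δ * (⌊Y / δ⌋ : ℝ) + δ * (1 / 2))) = angInf 0 ⌊X / δ⌋ ⌊Y / δ⌋
  rw [key]
  rfl

theorem schramm_compare {c2 C2 : ℝ} (hc2 : 0 < c2) (hC2 : 0 < C2)
    (hS : ∀ θ : ℝ, 0 ≤ θ → θ ≤ Real.pi →
      c2 * θ ^ ((1 : ℝ) / 3) ≤ schramm θ ∧ schramm θ ≤ C2 * θ ^ ((1 : ℝ) / 3))
    {θ θ' : ℝ} (h0 : 0 ≤ θ) (h1 : θ ≤ Real.pi) (h0' : 0 ≤ θ') (h1' : θ' ≤ Real.pi)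
    (h : θ ≤ 2 * θ') : schramm θ ≤ 2 * C2 / c2 * schramm θ' := by
  have a1 := (hS θ h0 h1).2
  have a2 := (hS θ' h0' h1').1
  have a3 := cube_root_le (K := 2) h0 h0' (by norm_num) h (by norm_num)
  calc schramm θ ≤ C2 * θ ^ ((1 : ℝ) / 3) := a1
    _ ≤ C2 * (2 * θ' ^ ((1 : ℝ) / 3)) := mul_le_mul_of_nonneg_left a3 hC2.le
    _ = 2 * C2 / c2 * (c2 * θ' ^ ((1 : ℝ) / 3)) := by field_simp
    _ ≤ _ := mul_le_mul_of_nonneg_left a2 (by positivity)

theorem schramm_mem {θ : ℝ} (h0 : 0 ≤ θ) (h1 : θ ≤ Real.pi) : 0 ≤ schramm θ ∧ schramm θ ≤ 1 := by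
  have hp := total_pos
  have h2 := int_low h0 h1
  have h3 := int_le_total h0 h1
  unfold schramm
  constructor
  · exact div_nonneg (le_trans (by positivity) h2) hp.le
  · rw [div_le_one hp]
    exact h3

/-- comparison of the probability and of its complement -/
def Comp (c C p s : ℝ) : Prop :=
  c * s ≤ p ∧ p ≤ C * s ∧ c * (1 - s) ≤ 1 - p ∧ 1 - p ≤ C * (1 - s)

theorem Comp.mono {c C p s c' C' : ℝ} (h : Comp c C p s) (h0 : 0 ≤ s) (h1 : s ≤ 1)
    (hc : c' ≤ c) (hC : C ≤ C') : Comp c' C' p s := by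
  obtain ⟨a1, a2, a3, a4⟩ := h
  refine ⟨?_, ?_, ?_, ?_⟩
  · exact (mul_le_mul_of_nonneg_right hc h0).trans a1
  · exact a2.trans (mul_le_mul_of_nonneg_right hC h0)
  · exact (mul_le_mul_of_nonneg_right hc (by linarith)).trans a3
  · exact a4.trans (mul_le_mul_of_nonneg_right hC (by linarith))

theorem angI_mem {a b x y : ℤ} (hab : a ≤ b) (hy : 0 ≤ y) :
    0 ≤ angI a b x y ∧ angI a b x y ≤ Real.pi := by
  have a1 := angI_Phi (x := x) hab hy rfl
  have a2 := angI_comp (a := a) (b := b) (x := x) hy rfl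
  have hPhi : 0 ≤ Phi (y + 1) (b - a + 1) (max 0 (max (a - x) (x - b))) :=
    Phi_nonneg (by omega) (by omega) (by omega)
  have her : (0 : ℝ) ≤ ((max 0 (min (x - a) (b - x)) : ℤ) : ℝ) := by
    exact_mod_cast (by omega : 0 ≤ max 0 (min (x - a) (b - x)))
  have hh : (1 : ℝ) ≤ ((y + 1 : ℤ) : ℝ) := by exact_mod_cast (by omega : (1 : ℤ) ≤ y + 1)
  have hE : 0 ≤ ((y + 1 : ℤ) : ℝ) /
      (((max 0 (min (x - a) (b - x)) : ℤ) : ℝ) + ((y + 1 : ℤ) : ℝ)) := by positivity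
  constructor
  · linarith [a1.1]
  · linarith [a2.1]

theorem angInf_mem {b x y : ℤ} : 0 ≤ angInf b x y ∧ angInf b x y ≤ Real.pi := by
  unfold angInf
  constructor
  · linarith [Real.neg_pi_div_two_lt_arctan (((b : ℝ) - x) / ((y : ℝ) + 1 / 2))]
  · linarith [Real.arctan_lt_pi_div_two (((b : ℝ) - x) / ((y : ℝ) + 1 / 2))]

theorem main_all : ∃ c C : ℝ, 0 < c ∧ 0 < C ∧
    (∀ a b x y : ℤ, a ≤ b → 0 ≤ y →
      Comp c C ((bondLaw half).real (SurrE (Set.Icc a b) x y)) (schramm (angI a b x y))) ∧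
    (∀ b x y : ℤ, 0 ≤ y →
      Comp c C ((bondLaw half).real (SurrE (Set.Iic b) x y)) (schramm (angInf b x y))) ∧
    (∀ z : ℂ, 0 < z.im → ∀ᶠ δ in 𝓝[>] (0 : ℝ),
      Comp c C ((bondLaw half).real (SurrE (Set.Iic 0) ⌊z.re / δ⌋ ⌊z.im / δ⌋))
        (schramm z.arg)) := by
  obtain ⟨c1, C1, hc1, hC1, h1⟩ := main_Icc
  obtain ⟨c3, C3, hc3, hC3, h3⟩ := main_Iic
  obtain ⟨c2, C2, hc2, hC2, hS⟩ := schramm_bounds
  obtain ⟨k, hk⟩ : ∃ k : ℝ, k = 2 * C2 / c2 := ⟨_, rfl⟩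
  have hk0 : 0 < k := by rw [hk]; positivity
  refine ⟨min c1 (min c3 (c3 / k)), C1 + C3 + C3 * k, lt_min hc1 (lt_min hc3 (by positivity)),
    by positivity, ?_, ?_, ?_⟩
  · intro a b x y hab hy
    obtain ⟨m0, m1⟩ := angI_mem (x := x) hab hy
    obtain ⟨s0, s1⟩ := schramm_mem m0 m1
    obtain ⟨⟨a1, a2⟩, a3, a4⟩ := h1 a b x y hab hy
    rw [real_out] at a3 a4
    refine Comp.mono (⟨a1, a2, a3, a4⟩ : Comp c1 C1 _ _) s0 s1 (min_le_left _ _) ?_
    have : 0 ≤ C3 * k := by positivity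
    linarith
  · intro b x y hy
    obtain ⟨m0, m1⟩ := angInf_mem (b := b) (x := x) (y := y)
    obtain ⟨s0, s1⟩ := schramm_mem m0 m1
    obtain ⟨⟨a1, a2⟩, a3, a4⟩ := h3 b x y hy
    rw [real_out] at a3 a4
    refine Comp.mono (⟨a1, a2, a3, a4⟩ : Comp c3 C3 _ _) s0 s1
      ((min_le_right _ _).trans (min_le_left _ _)) ?_
    have : 0 ≤ C3 * k := by positivity
    linarith
  · intro z hz
    have hlim := ang_tendsto (X := z.re) hz
    rw [← arg_eq hz] at hlim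
    have hθ0 : 0 < z.arg := by
      rw [arg_eq hz]
      linarith [Real.arctan_lt_pi_div_two (z.re / z.im)]
    have hθ1 : z.arg < Real.pi := by
      rw [arg_eq hz]
      linarith [Real.neg_pi_div_two_lt_arctan (z.re / z.im)]
    have e1 := hlim.eventually_lt_const (by linarith : z.arg < 2 * z.arg)
    have e2 := hlim.eventually_const_lt (by linarith : z.arg / 2 < z.arg)
    have e3 := hlim.eventually_lt_const (by linarith : z.arg < (Real.pi + z.arg) / 2)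
    have e4 := hlim.eventually_const_lt (by linarith : 2 * z.arg - Real.pi < z.arg)
    filter_upwards [e1, e2, e3, e4, self_mem_nhdsWithin] with δ d1 d2 d3 d4 hδ
    have hδ0 : (0 : ℝ) < δ := hδ
    have hy : 0 ≤ ⌊z.im / δ⌋ := Int.floor_nonneg.mpr (by positivity)
    set θ' : ℝ := angInf 0 ⌊z.re / δ⌋ ⌊z.im / δ⌋ with hθ'
    obtain ⟨m0, m1⟩ := angInf_mem (b := 0) (x := ⌊z.re / δ⌋) (y := ⌊z.im / δ⌋)
    rw [← hθ'] at m0 m1
    obtain ⟨s0, s1⟩ := schramm_mem hθ0.le hθ1.le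
    obtain ⟨⟨a1, a2⟩, a3, a4⟩ := h3 0 ⌊z.re / δ⌋ ⌊z.im / δ⌋ hy
    rw [real_out] at a3 a4
    rw [← hθ'] at a1 a2 a3 a4
    have k1 := schramm_compare hc2 hC2 hS hθ0.le hθ1.le m0 m1 (by linarith)
    have k2 := schramm_compare hc2 hC2 hS m0 m1 hθ0.le hθ1.le (by linarith)
    have k3 := schramm_compare hc2 hC2 hS (θ := Real.pi - z.arg) (θ' := Real.pi - θ')
      (by linarith) (by linarith) (by linarith) (by linarith) (by linarith)
    have k4 := schramm_compare hc2 hC2 hS (θ := Real.pi - θ') (θ' := Real.pi - z.arg)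
      (by linarith) (by linarith) (by linarith) (by linarith) (by linarith)
    rw [← schramm_symm m0 m1, ← schramm_symm hθ0.le hθ1.le, ← hk] at k3 k4
    rw [← hk] at k1 k2
    have hC3k : 0 ≤ C1 + C3 := by positivity
    have t0 : 0 ≤ 1 - schramm z.arg := by linarith
    refine Comp.mono (⟨?_, ?_, ?_, ?_⟩ : Comp (c3 / k) (C3 * k) _ _) s0 s1
      ((min_le_right _ _).trans (min_le_right _ _)) (by linarith)
    · calc c3 / k * schramm z.arg ≤ c3 / k * (k * schramm θ') :=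
            mul_le_mul_of_nonneg_left k1 (by positivity)
        _ = c3 * schramm θ' := by field_simp
        _ ≤ _ := a1
    · calc _ ≤ C3 * schramm θ' := a2
        _ ≤ C3 * (k * schramm z.arg) := mul_le_mul_of_nonneg_left k2 hC3.le
        _ = _ := by ring
    · calc c3 / k * (1 - schramm z.arg) ≤ c3 / k * (k * (1 - schramm θ')) :=
            mul_le_mul_of_nonneg_left k3 (by positivity)
        _ = c3 * (1 - schramm θ') := by field_simp
        _ ≤ _ := a3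
    · calc _ ≤ C3 * (1 - schramm θ') := a4
        _ ≤ C3 * (k * (1 - schramm z.arg)) := mul_le_mul_of_nonneg_left k4 hC3.le
        _ = _ := by ring

end Pool.Agent.H67LP
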