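import Pool.Agent.H67LP.Ring
import Pool.Agent.H731R3.Cardy.Final
import Pool.Agent.H731R3.Rect.Long

/-!
Lower bound for the probability that a face is surrounded by the cluster of a boundary interval.
-/

set_option autoImplicit false

namespace Pool.Agent.H67LP

open H974 H731C Finset MeasureTheory Filter Topology

/-- the face is surrounded -/
def SurrE (I : Set ℤ) (x y : ℤ) : Set (sqLattice.edgeSet → Bool) :=
  {ω | ¬ Out I (opn ω) (x, y)}

/-- the face is not surrounded -/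
def OutE (I : Set ℤ) (x y : ℤ) : Set (sqLattice.edgeSet → Bool) :=
  {ω | Out I (opn ω) (x, y)}

theorem real_mono' {A B : Set (sqLattice.edgeSet → Bool)} (h : A ⊆ B) :
    (bondLaw half).real A ≤ (bondLaw half).real B := measureReal_mono h (measure_ne_top _ _)

theorem law2 (S : Finset Edg) (Q : Finset Edg → Prop) :
    (bondLaw half).real {ω | Q (FF S ω)} = P2 S Q := law_event half S Q

theorem P2_le_real {S : Finset Edg} {Q : Finset Edg → Prop}
    {A : Set (sqLattice.edgeSet → Bool)} (h : ∀ ω, Q (FF S ω) → ω ∈ A) :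
    P2 S Q ≤ (bondLaw half).real A := by
  rw [← law2 S Q]
  exact real_mono' h

theorem real_le_P2 {S : Finset Edg} {Q : Finset Edg → Prop}
    {A : Set (sqLattice.edgeSet → Bool)} (h : ∀ ω ∈ A, Q (FF S ω)) :
    (bondLaw half).real A ≤ P2 S Q := by
  rw [← law2 S Q]
  exact real_mono' h

theorem FF_sub (S : Finset Edg) (ω : sqLattice.edgeSet → Bool) :
    (↑(FF S ω) : Set Edg) ⊆ opn ω := by
  rw [FF_coe]
  exact Set.inter_subset_left

/-- the first exit from a half-box -/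
theorem exit_box {A B D z m n : ℤ} {F : Finset Edg} {u v : Vtx} (hmn : m ≤ n)
    (hA : A ≤ z - n) (hB : z + n ≤ B) (hD : n ≤ D)
    (hu : inR (z - m) (z + m) 0 (0 + m) u) (hv : v.1 ≤ z - n ∨ z + n ≤ v.1)
    (h : Reach (↑F ∩ ↑(RE A B 0 D)) u v) :
    ∃ w, onH z 0 n w ∧ Reach (↑F ∩ ↑(RE (z - n) (z + n) 0 (0 + n))) u w := by
  obtain ⟨⟨hu1, hu2⟩, hu3, hu4⟩ := hu
  obtain ⟨w, hw1, hw2, hw3⟩ := first_exit (G := ↑F ∩ ↑(RE A B 0 D)) (a := z - n) (b := z + n)
    (c := 0 - 1) (d := 0 + n) (u := u) (v := v) ⟨⟨by omega, by omega⟩, by omega, by omega⟩ h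
    (by rcases hv with hv | hv
        · exact Or.inl hv
        · exact Or.inr (Or.inl hv))
  have hin : inR A B 0 D w := by
    apply reach_inR (G := ↑F ∩ ↑(RE (z - n) (z + n) (0 - 1) (0 + n))) (u := u)
      ⟨⟨by omega, by omega⟩, by omega, by omega⟩
    refine Reach.mono ?_ hw3
    rintro e ⟨⟨h1, h2⟩, h3⟩
    exact ⟨⟨h1, h3⟩, h2⟩
  obtain ⟨⟨hi1, hi2⟩, hi3, hi4⟩ := hin
  refine ⟨w, ?_, ?_⟩
  · unfold onH
    rcases hw2 with h1 | h1 | h1 | h1
    · exact Or.inl h1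
    · exact Or.inr (Or.inl h1)
    · omega
    · exact Or.inr (Or.inr h1)
  · refine Reach.mono ?_ hw3
    rintro ⟨x, y, o⟩ ⟨⟨h1, h2⟩, h3⟩
    refine ⟨h1, ?_⟩
    rw [Finset.mem_coe] at h2 h3 ⊢
    cases o
    · rw [mem_RE_false] at h2 h3 ⊢
      omega
    · rw [mem_RE_true] at h2 h3 ⊢
      omega

theorem ring_of_reach {I : Set ℤ} {G : Set Edg} {x y r A B D : ℤ} (hr : 1 ≤ r) (hy : 0 ≤ y)
    (hy2 : y + 1 ≤ r) {F : Finset Edg} (hFG : (↑F : Set Edg) ⊆ G) (hHC : HC x 0 r F)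
    (hL : LRc (x - 3 * r) (x + 3 * r) 0 y F) (hA : A ≤ x - 3 * r) (hB : x + 3 * r ≤ B)
    (hD : 3 * r ≤ D) {u v : Vtx} (hu : inR (x - r) (x + r) 0 (0 + r) u)
    (hv : v.1 ≤ x - 3 * r ∨ x + 3 * r ≤ v.1) (h : Reach (↑F ∩ ↑(RE A B 0 D)) u v)
    (huI : CI I G u) : ¬ Out I G (x, y) := by
  obtain ⟨w, hw, hr2⟩ := exit_box (z := x) (m := r) (n := 3 * r) (by omega) hA hB hD hu hv h
  exact surr_ring hr (by omega) (by omega) hy hy2 hFG hHC hL hu hw hr2 huI

/-- Harris' inequality for three increasing events -/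
theorem harris3 {S : Finset Edg} {A B C : Finset Edg → Prop} (hA : IncrE S A) (hB : IncrE S B)
    (hC : IncrE S C) :
    P2 S A * (P2 S B * P2 S C) ≤ P2 S (fun F => A F ∧ B F ∧ C F) := by
  have h1 := Pr_harris okhalf2 hB hC
  have h2 := Pr_harris okhalf2 hA (B := fun F => B F ∧ C F)
    (fun F G h1 h2 h3 => ⟨hB F G h1 h2 h3.1, hC F G h1 h2 h3.2⟩)
  exact le_trans (mul_le_mul_of_nonneg_left h1 (Pr_nonneg okhalf2 _ _)) h2

theorem LR_low (K : ℕ) : ∃ c : ℝ, 0 < c ∧ ∀ x y r : ℤ, 0 ≤ y → 1 ≤ r → r ≤ K * (y + 1) →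
    ∀ S : Finset Edg, LRE (x - 3 * r) (x + 3 * r) 0 y ⊆ S →
      c ≤ P2 S (LRc (x - 3 * r) (x + 3 * r) 0 y) := by
  obtain ⟨c, hc, hk⟩ := H731R.CLong.hh_long' (12 * K)
  refine ⟨min c ((1/2 : ℝ) ^ (6 * K)), lt_min hc (by positivity), ?_⟩
  intro x y r hy hr hrK S hS
  unfold P2
  rw [pr_LRc (1/2) hS]
  have e : x + 3 * r - (x - 3 * r) = 6 * r := by ring
  rw [e, sub_zero]
  rcases eq_or_lt_of_le hy with h0 | h0
  · subst h0
    refine le_trans (min_le_right _ _) ?_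
    have h1 := H731R.CLong.hh_line (6 * r).toNat
    have h2 : (((6 * r).toNat : ℕ) : ℤ) = 6 * r := Int.toNat_of_nonneg (by omega)
    rw [h2] at h1
    refine le_trans ?_ h1
    apply pow_le_pow_of_le_one (by norm_num) (by norm_num)
    omega
  · refine le_trans (min_le_left _ _) ?_
    apply hk (6 * r) y (by omega) (by omega)
    push_cast
    have : (K : ℤ) * (y + 1) ≤ K * (2 * y) :=
      mul_le_mul_of_nonneg_left (by omega) (by positivity)
    linarith

theorem CN_symm {a b c d A B t D : ℤ} {F : Finset Edg} (h : CN a b c d A B t D F) :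
    CN c d a b A B t D F := by
  obtain ⟨x, y, h1, h2, h3⟩ := h
  exact ⟨y, x, h2, h1, h3.symm⟩

/-- far away from the interval, deterministic part -/
theorem surr_far {a b x y N : ℤ} {G : Set Edg} {F : Finset Edg} (hy : 0 ≤ y)
    (hFG : (↑F : Set Edg) ⊆ G) (hd : b ≤ x - 3 * (y + 1) ∨ x + 3 * (y + 1) ≤ a)
    (hN1 : -N ≤ x - 3 * (y + 1)) (hN2 : x + 3 * (y + 1) ≤ N) (hN3 : 3 * (y + 1) ≤ N)
    (h1 : CN a b (x - (y + 1)) (x + (y + 1)) (-N) N 0 N F) (h2 : HC x 0 (y + 1) F)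
    (h3 : LRc (x - 3 * (y + 1)) (x + 3 * (y + 1)) 0 y F) :
    ¬ Out (Set.Icc a b) G (x, y) := by
  obtain ⟨i, j, hi, hj, hr⟩ := h1
  refine ring_of_reach (r := y + 1) (by omega) hy le_rfl hFG h2 h3 hN1 hN2 hN3 (u := (j, 0))
    (v := (i, 0)) ⟨⟨hj.1, hj.2⟩, by simp, by simp; omega⟩ ?_ hr.symm ?_
  · simp only
    omega
  · refine ⟨i, hi, hr.mono ?_⟩
    exact Set.inter_subset_inter hFG (HP_RE le_rfl)

/-- close to the interval, deterministic part -/
theorem surr_close {a b x y r N M : ℤ} {G : Set Edg} {F : Finset Edg} (hy : 0 ≤ y)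
    (hFG : (↑F : Set Edg) ⊆ G) (hyr : y + 1 ≤ r) (hI : x - r ≤ a ∧ b ≤ x + r)
    (hN1 : -N ≤ x - 3 * r) (hN2 : x + 3 * r ≤ N) (hN3 : 3 * r ≤ N)
    (h1 : CN a b (x + 3 * r) M (-N) N 0 N F) (h2 : HC x 0 r F)
    (h3 : LRc (x - 3 * r) (x + 3 * r) 0 y F) :
    ¬ Out (Set.Icc a b) G (x, y) := by
  obtain ⟨i, j, hi, hj, hr⟩ := h1
  refine ring_of_reach (r := r) (by omega) hy hyr hFG h2 h3 hN1 hN2 hN3 (u := (i, 0))
    (v := (j, 0)) ⟨⟨by simp only; omega, by simp only; omega⟩, by simp, by simp; omega⟩ ?_ hr ?_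
  · simp only
    omega
  · exact CI_of_mem hi

/-- the part of the interval seen from the face -/
noncomputable def Phi (h l D : ℤ) : ℝ := ((h : ℝ) * l) / (((D : ℝ) + h) * ((D : ℝ) + h + l))

theorem Phi_nonneg {h l D : ℤ} (hh : 1 ≤ h) (hl : 1 ≤ l) (hD : 0 ≤ D) : 0 ≤ Phi h l D := by
  have h1 : (1 : ℝ) ≤ h := by exact_mod_cast hh
  have h2 : (1 : ℝ) ≤ l := by exact_mod_cast hl
  have h3 : (0 : ℝ) ≤ D := by exact_mod_cast hD
  unfold Phi
  positivity

theorem lower_combine {S : Finset Edg} {A B C : Finset Edg → Prop} {c1 c2 c3 X : ℝ}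
    (hA : IncrE S A) (hB : IncrE S B) (hC : IncrE S C) (hc1 : 0 ≤ c1) (hc2 : 0 ≤ c2) (hc3 : 0 ≤ c3)
    (hX : 0 ≤ X)
    (h1 : c1 * X ≤ P2 S A) (h2 : c2 ≤ P2 S B) (h3 : c3 ≤ P2 S C) :
    c1 * c2 * c3 * X ≤ P2 S (fun F => A F ∧ B F ∧ C F) := by
  refine le_trans ?_ (harris3 hA hB hC)
  calc c1 * c2 * c3 * X = (c1 * X) * (c2 * c3) := by ring
    _ ≤ _ := mul_le_mul h1 (mul_le_mul h2 h3 hc3 (hc2.trans h2)) (by positivity)
        (le_trans (by positivity) h1)

theorem far_ratio {h l d : ℝ} (hh : 1 ≤ h) (hl : 1 ≤ l) (hd : 4 * h ≤ d) :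
    h * l / ((d + h) * (d + h + l)) ≤
      (l / (l + (d - h))) * ((2 * h + 1) / ((d - h) + (2 * h + 1))) := by
  rw [div_mul_div_comm, div_le_div_iff₀ (by nlinarith) (by nlinarith)]
  have h1 : (l + (d - h)) * ((d - h) + (2 * h + 1)) ≤ (d + h + l) * (d + h + 1) := by nlinarith
  have h2 : h * (d + h + 1) ≤ (2 * h + 1) * (d + h) := by nlinarith
  calc h * l * ((l + (d - h)) * (d - h + (2 * h + 1)))
      ≤ h * l * ((d + h + l) * (d + h + 1)) := mul_le_mul_of_nonneg_left h1 (by positivity)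
    _ = (l * (d + h + l)) * (h * (d + h + 1)) := by ring
    _ ≤ (l * (d + h + l)) * ((2 * h + 1) * (d + h)) :=
        mul_le_mul_of_nonneg_left h2 (by nlinarith)
    _ = _ := by ring

theorem close_ratio {h l l' d s : ℝ} (hh : 1 ≤ h) (hl : 1 ≤ l) (hd : 0 ≤ d) (hl' : 1 ≤ l')
    (hm : l' = min l h) (hs0 : 0 < s) (hs : s ≤ 20 * h) :
    h * l / ((d + h) * (d + h + l)) ≤
      64 * ((l' / (l' + s)) * ((15 * h + 1) / (s + (15 * h + 1)))) := by
  have hl'h : l' ≤ h := by rw [hm]; exact min_le_right _ _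
  have h1 : h * l / ((d + h) * (d + h + l)) ≤ l' / h := by
    rw [div_le_div_iff₀ (by nlinarith) (by linarith)]
    have e1 : h * (h + l) ≤ (d + h) * (d + h + l) := by nlinarith
    have e2 : l * h ≤ l' * (h + l) := by
      rw [hm]
      rcases le_total l h with h' | h'
      · rw [min_eq_left h']; nlinarith
      · rw [min_eq_right h']; nlinarith
    calc h * l * h = h * (l * h) := by ring
      _ ≤ h * (l' * (h + l)) := mul_le_mul_of_nonneg_left e2 (by linarith)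
      _ = l' * (h * (h + l)) := by ring
      _ ≤ _ := mul_le_mul_of_nonneg_left e1 (by linarith)
  have h2 : l' / (21 * h) ≤ l' / (l' + s) := by
    apply div_le_div_of_nonneg_left (by linarith) (by linarith)
    linarith
  have h3 : (5 / 12 : ℝ) ≤ (15 * h + 1) / (s + (15 * h + 1)) := by
    rw [div_le_div_iff₀ (by norm_num) (by nlinarith)]
    nlinarith
  have h4 : l' / (21 * h) * (5 / 12) ≤
      (l' / (l' + s)) * ((15 * h + 1) / (s + (15 * h + 1))) :=
    mul_le_mul h2 h3 (by norm_num) (by positivity)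
  have h5 : l' / h ≤ 64 * (l' / (21 * h) * (5 / 12)) := by
    have : 64 * (l' / (21 * h) * (5 / 12)) = (320 / 252) * (l' / h) := by
      field_simp
      norm_num
    rw [this]
    have : 0 ≤ l' / h := by positivity
    linarith
  linarith

/-- lower bound for the probability to be surrounded -/
theorem surr_lower : ∃ c : ℝ, 0 < c ∧ ∀ a b x y : ℤ, a ≤ b → 0 ≤ y →
    c * (Phi (y + 1) (b - a + 1) (max 0 (max (a - x) (x - b)))) ^ ((1 : ℝ) / 3) ≤
      (bondLaw half).real (SurrE (Set.Icc a b) x y) := by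
  obtain ⟨c0, hc0, hCN⟩ := CN_lower
  obtain ⟨c1, hc1, hLR1⟩ := LR_low 1
  obtain ⟨c5, hc5, hLR5⟩ := LR_low 5
  refine ⟨min (c0 * (1/2 : ℝ) ^ 141 * c1) (c0 * (1/2 : ℝ) ^ 141 * c5 / 4),
    lt_min (by positivity) (by positivity), ?_⟩
  intro a b x y hab hy
  obtain ⟨D, hD⟩ : ∃ D : ℤ, D = max 0 (max (a - x) (x - b)) := ⟨_, rfl⟩
  rw [← hD]
  have hh : (1 : ℝ) ≤ ((y + 1 : ℤ) : ℝ) := by exact_mod_cast (by omega : (1 : ℤ) ≤ y + 1)
  have hl : (1 : ℝ) ≤ ((b - a + 1 : ℤ) : ℝ) := by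
    exact_mod_cast (by omega : (1 : ℤ) ≤ b - a + 1)
  have hX0 := Phi_nonneg (h := y + 1) (l := b - a + 1) (D := D) (by omega) (by omega) (by omega)
  have hX : 0 ≤ (Phi (y + 1) (b - a + 1) D) ^ ((1 : ℝ) / 3) := by positivity
  rcases le_or_gt (4 * (y + 1)) D with hfar | hclose
  · -- far away
    refine le_trans (mul_le_mul_of_nonneg_right (min_le_left _ _) hX) ?_
    have hcase : D = x - b ∨ D = a - x := by omega
    rcases hcase with hc | hc
    · obtain ⟨N0, hN0⟩ := hCN a b (x - (y + 1)) (x + (y + 1)) hab (by omega) (by omega)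
      obtain ⟨N, hN⟩ : ∃ N : ℤ, N = max N0 (|x| + 3 * (y + 1)) := ⟨_, rfl⟩
      have hx1 := le_abs_self x
      have hx2 := neg_abs_le x
      have hx3 := abs_nonneg x
      have key := hN0 N (by omega)
      have hsub : RE (x - 3 * (y + 1)) (x + 3 * (y + 1)) 0 (0 + 3 * (y + 1)) ⊆ RE (-N) N 0 N :=
        RE_subset (by omega) (by omega) le_rfl (by omega)
      have hsub2 : RE (x - 3 * (y + 1)) (x + 3 * (y + 1)) 0 y ⊆ RE (-N) N 0 N :=
        RE_subset (by omega) (by omega) le_rfl (by omega)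
      have k2 := pr_HC (z := x) (t := 0) (r := y + 1) (by omega) (S := RE (-N) N 0 N)
        (VE_subset_RE.trans hsub)
      have k3 := hLR1 x y (y + 1) hy (by omega) (by push_cast; omega) (RE (-N) N 0 N)
        (LRE_subset_RE.trans hsub2)
      have k1 : c0 * (Phi (y + 1) (b - a + 1) D) ^ ((1 : ℝ) / 3) ≤
          P2 (RE (-N) N 0 N) (CN a b (x - (y + 1)) (x + (y + 1)) (-N) N 0 N) := by
        refine le_trans (mul_le_mul_of_nonneg_left (Real.rpow_le_rpow hX0 ?_ (by norm_num))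
          hc0.le) key
        have hdr : 4 * ((y + 1 : ℤ) : ℝ) ≤ (D : ℝ) := by exact_mod_cast hfar
        have := far_ratio hh hl hdr
        unfold Phi
        refine this.trans (le_of_eq ?_)
        rw [hc]
        push_cast
        ring_nf
      have k4 := lower_combine (CN_incr _ _ _ _ _ _ _ _ _) (HC_incr _ _ _ _)
        (LRc_incr (RE (-N) N 0 N) (x - 3 * (y + 1)) (x + 3 * (y + 1)) 0 y) hc0.le
        (by positivity) hc1.le hX k1 k2 k3
      refine k4.trans (P2_le_real ?_)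
      rintro ω ⟨e1, e2, e3⟩
      exact surr_far hy (FF_sub _ ω) (Or.inl (by omega)) (by omega) (by omega) (by omega) e1 e2 e3
    · obtain ⟨N0, hN0⟩ := hCN (x - (y + 1)) (x + (y + 1)) a b (by omega) (by omega) hab
      obtain ⟨N, hN⟩ : ∃ N : ℤ, N = max N0 (|x| + 3 * (y + 1)) := ⟨_, rfl⟩
      have hx1 := le_abs_self x
      have hx2 := neg_abs_le x
      have hx3 := abs_nonneg x
      have key := hN0 N (by omega)
      have hsub : RE (x - 3 * (y + 1)) (x + 3 * (y + 1)) 0 (0 + 3 * (y + 1)) ⊆ RE (-N) N 0 N :=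
        RE_subset (by omega) (by omega) le_rfl (by omega)
      have hsub2 : RE (x - 3 * (y + 1)) (x + 3 * (y + 1)) 0 y ⊆ RE (-N) N 0 N :=
        RE_subset (by omega) (by omega) le_rfl (by omega)
      have k2 := pr_HC (z := x) (t := 0) (r := y + 1) (by omega) (S := RE (-N) N 0 N)
        (VE_subset_RE.trans hsub)
      have k3 := hLR1 x y (y + 1) hy (by omega) (by push_cast; omega) (RE (-N) N 0 N)
        (LRE_subset_RE.trans hsub2)
      have k1 : c0 * (Phi (y + 1) (b - a + 1) D) ^ ((1 : ℝ) / 3) ≤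
          P2 (RE (-N) N 0 N) (CN (x - (y + 1)) (x + (y + 1)) a b (-N) N 0 N) := by
        refine le_trans (mul_le_mul_of_nonneg_left (Real.rpow_le_rpow hX0 ?_ (by norm_num))
          hc0.le) key
        have hdr : 4 * ((y + 1 : ℤ) : ℝ) ≤ (D : ℝ) := by exact_mod_cast hfar
        have := far_ratio hh hl hdr
        unfold Phi
        refine this.trans (le_of_eq ?_)
        rw [hc]
        push_cast
        ring_nf
      have k4 := lower_combine (CN_incr _ _ _ _ _ _ _ _ _) (HC_incr _ _ _ _)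
        (LRc_incr (RE (-N) N 0 N) (x - 3 * (y + 1)) (x + 3 * (y + 1)) 0 y) hc0.le
        (by positivity) hc1.le hX k1 k2 k3
      refine k4.trans (P2_le_real ?_)
      rintro ω ⟨e1, e2, e3⟩
      exact surr_far hy (FF_sub _ ω) (Or.inr (by omega)) (by omega) (by omega) (by omega)
        (CN_symm e1) e2 e3
  · -- close
    refine le_trans (mul_le_mul_of_nonneg_right (min_le_right _ _) hX) ?_
    obtain ⟨l', hl'⟩ : ∃ l' : ℤ, l' = min (b - a + 1) (y + 1) := ⟨_, rfl⟩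
    obtain ⟨a', ha1, ha2, ha3, ha4⟩ : ∃ a' : ℤ, a ≤ a' ∧ a' + l' - 1 ≤ b ∧ x - 5 * (y + 1) ≤ a' ∧
        a' + l' - 1 ≤ x + 5 * (y + 1) := by
      rcases le_or_gt x a with h1 | h1
      · exact ⟨a, by omega, by omega, by omega, by omega⟩
      · rcases le_or_gt b x with h2 | h2
        · exact ⟨b - l' + 1, by omega, by omega, by omega, by omega⟩
        · exact ⟨max a (x - l' + 1), by omega, by omega, by omega, by omega⟩
    obtain ⟨b', hb'⟩ : ∃ b' : ℤ, b' = a' + l' - 1 := ⟨_, rfl⟩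
    obtain ⟨N0, hN0⟩ := hCN a' b' (x + 3 * (5 * (y + 1))) (x + 6 * (5 * (y + 1))) (by omega)
      (by omega) (by omega)
    obtain ⟨N, hN⟩ : ∃ N : ℤ, N = max N0 (|x| + 3 * (5 * (y + 1))) := ⟨_, rfl⟩
    have hx1 := le_abs_self x
    have hx2 := neg_abs_le x
    have hx3 := abs_nonneg x
    have key := hN0 N (by omega)
    have hsub : RE (x - 3 * (5 * (y + 1))) (x + 3 * (5 * (y + 1))) 0 (0 + 3 * (5 * (y + 1))) ⊆
        RE (-N) N 0 N := RE_subset (by omega) (by omega) le_rfl (by omega)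
    have hsub2 : RE (x - 3 * (5 * (y + 1))) (x + 3 * (5 * (y + 1))) 0 y ⊆ RE (-N) N 0 N :=
      RE_subset (by omega) (by omega) le_rfl (by omega)
    have k2 := pr_HC (z := x) (t := 0) (r := 5 * (y + 1)) (by omega) (S := RE (-N) N 0 N)
      (VE_subset_RE.trans hsub)
    have k3 := hLR5 x y (5 * (y + 1)) hy (by omega) (by push_cast; omega) (RE (-N) N 0 N)
      (LRE_subset_RE.trans hsub2)
    have k1 : c0 / 4 * (Phi (y + 1) (b - a + 1) D) ^ ((1 : ℝ) / 3) ≤
        P2 (RE (-N) N 0 N) (CN a' b' (x + 3 * (5 * (y + 1))) (x + 6 * (5 * (y + 1)))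
          (-N) N 0 N) := by
      refine le_trans ?_ key
      have hDr : (0 : ℝ) ≤ (D : ℝ) := by exact_mod_cast (by omega : 0 ≤ D)
      have hl1 : (1 : ℝ) ≤ (l' : ℝ) := by exact_mod_cast (by omega : 1 ≤ l')
      have hs0 : (0 : ℝ) < ((x + 3 * (5 * (y + 1)) - b' : ℤ) : ℝ) := by
        exact_mod_cast (by omega : 0 < x + 3 * (5 * (y + 1)) - b')
      have hs1 : ((x + 3 * (5 * (y + 1)) - b' : ℤ) : ℝ) ≤ 20 * ((y + 1 : ℤ) : ℝ) := by
        exact_mod_cast (by omega : x + 3 * (5 * (y + 1)) - b' ≤ 20 * (y + 1))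
      have hm : (l' : ℝ) = min ((b - a + 1 : ℤ) : ℝ) ((y + 1 : ℤ) : ℝ) := by
        rw [hl']; push_cast; rfl
      have h1 := close_ratio hh hl hDr hl1 hm hs0 hs1
      have e1 : b' - a' + 1 = l' := by omega
      have e2 : x + 6 * (5 * (y + 1)) - (x + 3 * (5 * (y + 1))) + 1 = 15 * (y + 1) + 1 := by ring
      rw [e1, e2]
      set R : ℝ := ((l' : ℝ) / ((l' + (x + 3 * (5 * (y + 1)) - b') : ℤ) : ℝ)) *
        (((15 * (y + 1) + 1 : ℤ) : ℝ) /
          ((x + 3 * (5 * (y + 1)) - b' + (15 * (y + 1) + 1) : ℤ) : ℝ)) with hR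
      have hR2 : Phi (y + 1) (b - a + 1) D ≤ 64 * R := by
        unfold Phi
        refine h1.trans (le_of_eq ?_)
        rw [hR]
        push_cast
        ring
      have hR0 : 0 ≤ R := by
        have : 0 ≤ 64 * R := hX0.trans hR2
        linarith
      have h2 := cube_root_le (K := 4) hX0 hR0 (by norm_num) hR2 (by norm_num)
      calc c0 / 4 * (Phi (y + 1) (b - a + 1) D) ^ ((1 : ℝ) / 3)
          ≤ c0 / 4 * (4 * R ^ ((1 : ℝ) / 3)) := mul_le_mul_of_nonneg_left h2 (by positivity)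
        _ = c0 * R ^ ((1 : ℝ) / 3) := by ring
    have k4 := lower_combine (CN_incr _ _ _ _ _ _ _ _ _) (HC_incr _ _ _ _)
      (LRc_incr (RE (-N) N 0 N) (x - 3 * (5 * (y + 1))) (x + 3 * (5 * (y + 1))) 0 y)
      (by positivity) (by positivity) hc5.le hX k1 k2 k3
    have k5 : c0 * (1/2 : ℝ) ^ 141 * c5 / 4 * (Phi (y + 1) (b - a + 1) D) ^ ((1 : ℝ) / 3) =
        c0 / 4 * (1/2 : ℝ) ^ 141 * c5 * (Phi (y + 1) (b - a + 1) D) ^ ((1 : ℝ) / 3) := by ring
    rw [k5]
    refine (k4.trans (P2_le_real (A := SurrE (Set.Icc a' b') x y) ?_)).trans (real_mono' ?_)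
    · rintro ω ⟨e1, e2, e3⟩
      exact surr_close hy (FF_sub _ ω) (by omega) (by omega) (by omega) (by omega) (by omega)
        e1 e2 e3
    · intro ω hω hO
      exact hω (Out_anti (Set.Icc_subset_Icc (by omega) (by omega)) hO)

end Pool.Agent.H67LP
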