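import Pool.Agent.H67LP.ProbA

/-!
Upper bound for the probability that a face is surrounded by the cluster of a boundary set.
-/

set_option autoImplicit false

namespace Pool.Agent.H67LP

open H974 H731C Finset MeasureTheory Filter Topology

/-- the column below the face is connected to the interval inside a box -/
def UE (a b x y N : ℤ) (F : Finset Edg) : Prop :=
  ∃ i j, (a ≤ i ∧ i ≤ b) ∧ (0 ≤ j ∧ j ≤ y) ∧ Reach (↑F ∩ ↑(RE (-N) N 0 N)) (i, 0) (x, j)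

theorem UE_incr (S : Finset Edg) (a b x y N : ℤ) : IncrE S (UE a b x y N) := by
  rintro F G h _ ⟨i, j, h1, h2, h3⟩
  exact ⟨i, j, h1, h2, h3.mono (Set.inter_subset_inter_left _ (by exact_mod_cast h))⟩

theorem UE_HC_CN {a b x y N : ℤ} {F : Finset Edg} (hy : 0 ≤ y)
    (hd : b ≤ x - 3 * (y + 1) ∨ x + 3 * (y + 1) ≤ a)
    (hN1 : -N ≤ x - 3 * (y + 1)) (hN2 : x + 3 * (y + 1) ≤ N) (hN3 : 3 * (y + 1) ≤ N)
    (h1 : UE a b x y N F) (h2 : HC x 0 (y + 1) F) :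
    CN a b (x - 3 * (y + 1)) (x + 3 * (y + 1)) (-N) N 0 N F := by
  obtain ⟨i, j, hi, hj, hr⟩ := h1
  have hin : inR (x - (y + 1)) (x + (y + 1)) 0 (0 + (y + 1)) (x, j) := by
    unfold inR
    simp only
    omega
  obtain ⟨w, hw, hr2⟩ := exit_box (z := x) (m := y + 1) (n := 3 * (y + 1)) (by omega) hN1 hN2 hN3
    hin (v := (i, 0)) (by simp only; omega) hr.symm
  obtain ⟨fl, fr, hfl, hfr, hmeet⟩ := HC_meet (z := x) (t := 0) (r := y + 1) (by omega) h2
  have h3 := (hmeet (x, j) w hin hw hr2).1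
  refine ⟨i, fl, hi, by omega, hr.trans (h3.mono ?_)⟩
  exact Set.inter_subset_inter_right _ (by
    exact_mod_cast RE_subset hN1 hN2 le_rfl (by omega))

theorem far_ratio_up {h l d : ℝ} (hh : 1 ≤ h) (hl : 1 ≤ l) (hd : 6 * h ≤ d) :
    (l / (l + (d - 3 * h))) * ((6 * h + 1) / ((d - 3 * h) + (6 * h + 1))) ≤
      27 * (h * l / ((d + h) * (d + h + l))) := by
  have h1 : l / (l + (d - 3 * h)) ≤ 3 * (l / (d + h + l)) := by
    rw [mul_div_assoc', div_le_div_iff₀ (by linarith) (by linarith)]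
    nlinarith
  have h2 : (6 * h + 1) / ((d - 3 * h) + (6 * h + 1)) ≤ 9 * (h / (d + h)) := by
    rw [mul_div_assoc', div_le_div_iff₀ (by linarith) (by linarith)]
    nlinarith
  have h3 : 0 ≤ l / (d + h + l) := by
    apply div_nonneg <;> linarith
  calc (l / (l + (d - 3 * h))) * ((6 * h + 1) / ((d - 3 * h) + (6 * h + 1)))
      ≤ (3 * (l / (d + h + l))) * (9 * (h / (d + h))) :=
        mul_le_mul h1 h2 (by apply div_nonneg <;> linarith) (by linarith)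
    _ = 27 * (h * l / ((d + h) * (d + h + l))) := by
        rw [mul_mul_mul_comm, div_mul_div_comm]
        norm_num
        ring_nf

theorem UE_upper : ∃ C : ℝ, 0 < C ∧ ∀ a b x y D : ℤ, a ≤ b → 0 ≤ y → (D = x - b ∨ D = a - x) →
    6 * (y + 1) ≤ D → ∃ N0 : ℤ, ∀ N : ℤ, N0 ≤ N →
    P2 (RE (-N) N 0 N) (UE a b x y N) ≤
      C * (Phi (y + 1) (b - a + 1) D) ^ ((1 : ℝ) / 3) := by
  obtain ⟨C, hC, hup⟩ := CN_upper
  refine ⟨2 ^ 141 * (3 * C), by positivity, ?_⟩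
  intro a b x y D hab hy hcase hD
  refine ⟨|x| + |a| + |b| + 20 * D, ?_⟩
  intro N hN
  have hx1 := le_abs_self x
  have hx2 := neg_abs_le x
  have ha1 := le_abs_self a
  have ha2 := neg_abs_le a
  have hb1 := le_abs_self b
  have hb2 := neg_abs_le b
  have hh : (1 : ℝ) ≤ ((y + 1 : ℤ) : ℝ) := by exact_mod_cast (by omega : (1 : ℤ) ≤ y + 1)
  have hl : (1 : ℝ) ≤ ((b - a + 1 : ℤ) : ℝ) := by
    exact_mod_cast (by omega : (1 : ℤ) ≤ b - a + 1)
  have hdr : 6 * ((y + 1 : ℤ) : ℝ) ≤ (D : ℝ) := by exact_mod_cast hD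
  have hX0 := Phi_nonneg (h := y + 1) (l := b - a + 1) (D := D) (by omega) (by omega) (by omega)
  have hsub : RE (x - 3 * (y + 1)) (x + 3 * (y + 1)) 0 (0 + 3 * (y + 1)) ⊆ RE (-N) N 0 N :=
    RE_subset (by omega) (by omega) le_rfl (by omega)
  have k2 := pr_HC (z := x) (t := 0) (r := y + 1) (by omega) (S := RE (-N) N 0 N)
    (VE_subset_RE.trans hsub)
  have i1 := Pr_harris okhalf2 (UE_incr (RE (-N) N 0 N) a b x y N)
    (HC_incr (RE (-N) N 0 N) x 0 (y + 1))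
  have i2 : Pr (fun _ => (1/2 : ℝ)) (RE (-N) N 0 N)
      (fun F => UE a b x y N F ∧ HC x 0 (y + 1) F) ≤
      P2 (RE (-N) N 0 N) (CN a b (x - 3 * (y + 1)) (x + 3 * (y + 1)) (-N) N 0 N) := by
    apply Pr_mono okhalf2
    rintro F _ ⟨h1, h2⟩
    exact UE_HC_CN hy (by omega) (by omega) (by omega) (by omega) h1 h2
  have hratio := far_ratio_up hh hl hdr
  have i3 : P2 (RE (-N) N 0 N) (CN a b (x - 3 * (y + 1)) (x + 3 * (y + 1)) (-N) N 0 N) ≤
      3 * C * (Phi (y + 1) (b - a + 1) D) ^ ((1 : ℝ) / 3) := by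
    set R : ℝ := (((b - a + 1 : ℤ) : ℝ) / (((b - a + 1 : ℤ) : ℝ) +
      ((D : ℝ) - 3 * ((y + 1 : ℤ) : ℝ)))) *
      ((6 * ((y + 1 : ℤ) : ℝ) + 1) / (((D : ℝ) - 3 * ((y + 1 : ℤ) : ℝ)) +
        (6 * ((y + 1 : ℤ) : ℝ) + 1))) with hR
    have hR0 : 0 ≤ R := by
      rw [hR]
      apply mul_nonneg
      · apply div_nonneg <;> linarith
      · apply div_nonneg <;> linarith
    have hR2 : R ≤ 27 * Phi (y + 1) (b - a + 1) D := by
      unfold Phi
      exact hratio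
    have h2 := cube_root_le (K := 3) hR0 hX0 (by norm_num) hR2 (by norm_num)
    have h3 : P2 (RE (-N) N 0 N) (CN a b (x - 3 * (y + 1)) (x + 3 * (y + 1)) (-N) N 0 N) ≤
        C * R ^ ((1 : ℝ) / 3) := by
      rcases hcase with hc | hc
      · have h4 := hup a b (x - 3 * (y + 1)) (x + 3 * (y + 1)) (-N) N 0 N hab (by omega)
          (by omega) (by omega) (by omega) (by omega)
        refine h4.trans (le_of_eq ?_)
        rw [hR, hc]
        push_cast
        ring_nf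
      · have h4 := hup (x - 3 * (y + 1)) (x + 3 * (y + 1)) a b (-N) N 0 N (by omega) (by omega)
          hab (by omega) (by omega) (by omega)
        have h5 : P2 (RE (-N) N 0 N) (CN a b (x - 3 * (y + 1)) (x + 3 * (y + 1)) (-N) N 0 N) ≤
            P2 (RE (-N) N 0 N) (CN (x - 3 * (y + 1)) (x + 3 * (y + 1)) a b (-N) N 0 N) :=
          Pr_mono okhalf2 (fun F _ hF => CN_symm hF)
        refine (h5.trans h4).trans (le_of_eq ?_)
        rw [hR, hc]
        push_cast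
        ring_nf
    calc _ ≤ C * R ^ ((1 : ℝ) / 3) := h3
      _ ≤ C * (3 * (Phi (y + 1) (b - a + 1) D) ^ ((1 : ℝ) / 3)) :=
          mul_le_mul_of_nonneg_left h2 hC.le
      _ = _ := by ring
  have hU0 : 0 ≤ P2 (RE (-N) N 0 N) (UE a b x y N) := Pr_nonneg okhalf2 _ _
  have i4 : P2 (RE (-N) N 0 N) (UE a b x y N) * (1/2 : ℝ) ^ 141 ≤
      3 * C * (Phi (y + 1) (b - a + 1) D) ^ ((1 : ℝ) / 3) :=
    (mul_le_mul_of_nonneg_left k2 hU0).trans (i1.trans (i2.trans i3))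
  have e : P2 (RE (-N) N 0 N) (UE a b x y N) =
      2 ^ 141 * (P2 (RE (-N) N 0 N) (UE a b x y N) * (1/2 : ℝ) ^ 141) := by
    rw [mul_comm (P2 (RE (-N) N 0 N) (UE a b x y N)), ← mul_assoc, ← mul_pow]
    norm_num
  rw [e]
  calc _ ≤ (2 : ℝ) ^ 141 * (3 * C * (Phi (y + 1) (b - a + 1) D) ^ ((1 : ℝ) / 3)) :=
        mul_le_mul_of_nonneg_left i4 (by positivity)
    _ = _ := by ring

/-- increasing unions -/
theorem real_iUnion_le {A : ℕ → Set (sqLattice.edgeSet → Bool)} (hA : Monotone A) {C : ℝ}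
    (h : ∀ᶠ N in atTop, (bondLaw half).real (A N) ≤ C) : (bondLaw half).real (⋃ N, A N) ≤ C := by
  have h1 := tendsto_measure_iUnion_atTop (μ := bondLaw half) hA
  have h2 := (ENNReal.tendsto_toReal (measure_ne_top (bondLaw half) (⋃ N, A N))).comp h1
  exact le_of_tendsto h2 h

theorem window {G : Set Edg} {u v : Vtx} (h : Reach (G ∩ HP) u v) :
    ∃ N : ℕ, Reach (G ∩ ↑(RE (-(N : ℤ)) N 0 N)) u v := by
  induction h with
  | refl => exact ⟨0, Reach.refl _ _⟩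
  | @tail v w _ hs ih =>
    obtain ⟨N, hN⟩ := ih
    obtain ⟨e, ⟨he, hP⟩, hc⟩ := hs
    obtain ⟨p, q, o⟩ := e
    refine ⟨N + (p.natAbs + q.natAbs + 1), (hN.mono ?_).trans (Adj.reach
      ⟨(p, q, o), ⟨he, ?_⟩, hc⟩)⟩
    · exact Set.inter_subset_inter_right _ (by exact_mod_cast RE_mono' (by omega))
    · have hq : 0 ≤ q := hP
      rw [Finset.mem_coe]
      cases o
      · rw [mem_RE_false]
        omega
      · rw [mem_RE_true]
        omega

/-- the column below the face meets the cluster -/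
def ColE (I : Set ℤ) (x y : ℤ) : Set (sqLattice.edgeSet → Bool) :=
  {ω | ∃ j, (0 ≤ j ∧ j ≤ y) ∧ CI I (opn ω) (x, j)}

theorem ColE_eq (a b x y : ℤ) :
    ColE (Set.Icc a b) x y =
      ⋃ N : ℕ, {ω | UE a b x y N (FF (RE (-(N : ℤ)) N 0 N) ω)} := by
  ext ω
  rw [Set.mem_iUnion]
  constructor
  · rintro ⟨j, hj, i, hi, hr⟩
    obtain ⟨N, hN⟩ := window hr
    refine ⟨N, i, j, hi, hj, ?_⟩
    rw [FF_coe, Set.inter_assoc, Set.inter_self]
    exact hN
  · rintro ⟨N, i, j, hi, hj, hr⟩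
    rw [FF_coe, Set.inter_assoc, Set.inter_self] at hr
    exact ⟨j, hj, i, hi, hr.mono (Set.inter_subset_inter_right _ (HP_RE le_rfl))⟩

theorem UE_mono_N (a b x y : ℤ) :
    Monotone (fun N : ℕ => {ω | UE a b x y N (FF (RE (-(N : ℤ)) N 0 N) ω)}) := by
  intro N M hNM ω h
  obtain ⟨i, j, hi, hj, hr⟩ := h
  refine ⟨i, j, hi, hj, ?_⟩
  rw [FF_coe, Set.inter_assoc, Set.inter_self] at hr ⊢
  refine hr.mono (Set.inter_subset_inter_right _ ?_)
  exact_mod_cast RE_mono' (by exact_mod_cast hNM)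

theorem ColE_upper : ∃ C : ℝ, 0 < C ∧ ∀ a b x y D : ℤ, a ≤ b → 0 ≤ y →
    (D = x - b ∨ D = a - x) → 6 * (y + 1) ≤ D →
    (bondLaw half).real (ColE (Set.Icc a b) x y) ≤
      C * (Phi (y + 1) (b - a + 1) D) ^ ((1 : ℝ) / 3) := by
  obtain ⟨C, hC, hU⟩ := UE_upper
  refine ⟨C, hC, ?_⟩
  intro a b x y D hab hy hcase hD
  obtain ⟨N0, hN0⟩ := hU a b x y D hab hy hcase hD
  rw [ColE_eq]
  apply real_iUnion_le (UE_mono_N a b x y)
  filter_upwards [eventually_ge_atTop N0.toNat] with N hN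
  rw [law2]
  exact hN0 N (by omega)

theorem surr_sub_col {I : Set ℤ} {x y : ℤ} (hy : 0 ≤ y) : SurrE I x y ⊆ ColE I x y := by
  intro ω hω
  exact surr_col hy hω

theorem real_le_one' (A : Set (sqLattice.edgeSet → Bool)) : (bondLaw half).real A ≤ 1 :=
  measureReal_le_one

theorem triv_ratio {h l d : ℝ} (hh : 1 ≤ h) (hl : h ≤ l) (hd0 : 0 ≤ d) (hd : d ≤ 6 * h) :
    1 ≤ 64 * (h * l / ((d + h) * (d + h + l))) := by
  rw [mul_div_assoc', le_div_iff₀ (by nlinarith)]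
  have h1 : (d + h) * (d + h + l) ≤ (7 * h) * (7 * h + l) :=
    mul_le_mul (by linarith) (by linarith) (by linarith) (by linarith)
  nlinarith

theorem near_ratio {h l d s : ℝ} (hh : 1 ≤ h) (hl : 1 ≤ l) (hlh : l ≤ h) (hd0 : 0 ≤ d)
    (hd : d ≤ 6 * h) (hs : h ≤ 2 * s) :
    l / s ≤ 125 * (h * l / ((d + h) * (d + h + l))) := by
  have hs0 : 0 < s := by linarith
  rw [mul_div_assoc', div_le_div_iff₀ hs0 (by nlinarith)]
  have h1 : (d + h) * (d + h + l) ≤ (7 * h) * (8 * h) :=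
    mul_le_mul (by linarith) (by linarith) (by linarith) (by linarith)
  calc l * ((d + h) * (d + h + l)) ≤ l * ((7 * h) * (8 * h)) :=
        mul_le_mul_of_nonneg_left h1 (by linarith)
    _ = 56 * (l * h) * h := by ring
    _ ≤ 56 * (l * h) * (2 * s) := mul_le_mul_of_nonneg_left hs (by positivity)
    _ ≤ 125 * (h * l) * s := by nlinarith [mul_nonneg (mul_nonneg (by linarith : 0 ≤ l) (by linarith : 0 ≤ h)) hs0.le]

/-- upper bound for the probability to be surrounded -/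
theorem surr_upper : ∃ C : ℝ, 0 < C ∧ ∀ a b x y : ℤ, a ≤ b → 0 ≤ y →
    (bondLaw half).real (SurrE (Set.Icc a b) x y) ≤
      C * (Phi (y + 1) (b - a + 1) (max 0 (max (a - x) (x - b)))) ^ ((1 : ℝ) / 3) := by
  obtain ⟨C1, hC1, hCol⟩ := ColE_upper
  obtain ⟨C2, hC2, hHA⟩ := HA_upper
  refine ⟨C1 + 4 + 5 * C2, by positivity, ?_⟩
  intro a b x y hab hy
  obtain ⟨D, hD⟩ : ∃ D : ℤ, D = max 0 (max (a - x) (x - b)) := ⟨_, rfl⟩
  rw [← hD]
  have hh : (1 : ℝ) ≤ ((y + 1 : ℤ) : ℝ) := by exact_mod_cast (by omega : (1 : ℤ) ≤ y + 1)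
  have hl : (1 : ℝ) ≤ ((b - a + 1 : ℤ) : ℝ) := by
    exact_mod_cast (by omega : (1 : ℤ) ≤ b - a + 1)
  have hDr : (0 : ℝ) ≤ (D : ℝ) := by exact_mod_cast (by omega : 0 ≤ D)
  have hX0 := Phi_nonneg (h := y + 1) (l := b - a + 1) (D := D) (by omega) (by omega) (by omega)
  have hX : 0 ≤ (Phi (y + 1) (b - a + 1) D) ^ ((1 : ℝ) / 3) := by positivity
  rcases le_or_gt (6 * (y + 1)) D with hfar | hclose
  · have h1 := hCol a b x y D hab hy (by omega) hfar
    have h2 := real_mono' (surr_sub_col (I := Set.Icc a b) (x := x) hy)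
    refine (h2.trans h1).trans (mul_le_mul_of_nonneg_right (by linarith) hX)
  · have hD6 : (D : ℝ) ≤ 6 * ((y + 1 : ℤ) : ℝ) := by exact_mod_cast hclose.le
    rcases le_or_gt (y + 1) (b - a + 1) with hl2 | hl2
    · have h1 : (1 : ℝ) ≤ 64 * Phi (y + 1) (b - a + 1) D := by
        unfold Phi
        exact triv_ratio hh (by exact_mod_cast hl2) hDr hD6
      have h2 := cube_root_le (K := 4) (by norm_num) hX0 (by norm_num) h1 (by norm_num)
      rw [Real.one_rpow] at h2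
      refine (real_le_one' _).trans (h2.trans (mul_le_mul_of_nonneg_right (by linarith) hX))
    · have hy1 : 1 ≤ y := by omega
      have h1 : (bondLaw half).real (SurrE (Set.Icc a b) x y) ≤
          P2 (RE (b - y) (b + y) 0 (0 + y)) (HA b 0 (b - a + 1) y) := by
        apply real_le_P2
        intro ω hω
        obtain ⟨u, v, hu, hv, hr⟩ := surr_near (I := Set.Icc a b) (G := opn ω) (z := b)
          (m := b - a + 1) (n := y) (x := x) (y := y)
          (fun i hi => ⟨by have := hi.1; omega, by have := hi.2; omega⟩) (by omega) hy1 le_rfl hω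
        refine ⟨u, v, hu, hv, ?_⟩
        rw [FF_coe, Set.inter_assoc, Set.inter_self]
        exact hr
      have h2 := hHA b 0 (b - a + 1) y (by omega) (by omega) _
        (Finset.Subset.refl (RE (b - y) (b + y) 0 (0 + y)))
      have hy1r : (1 : ℝ) ≤ (y : ℝ) := by exact_mod_cast hy1
      have h3 : (((b - a + 1 : ℤ) : ℝ)) / (y : ℝ) ≤ 125 * Phi (y + 1) (b - a + 1) D := by
        unfold Phi
        refine near_ratio hh hl (by exact_mod_cast hl2.le) hDr hD6 ?_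
        push_cast
        linarith
      have h4 := cube_root_le (K := 5) (by positivity) hX0 (by norm_num) h3 (by norm_num)
      calc _ ≤ _ := h1
        _ ≤ _ := h2
        _ ≤ C2 * (5 * (Phi (y + 1) (b - a + 1) D) ^ ((1 : ℝ) / 3)) :=
            mul_le_mul_of_nonneg_left h4 hC2.le
        _ ≤ _ := by nlinarith [mul_nonneg (by linarith : 0 ≤ C1 + 4) hX]

/-- the half-infinite interval -/
theorem ColE_Iic (b x y : ℤ) :
    ColE (Set.Iic b) x y = ⋃ M : ℕ, ColE (Set.Icc (-(M : ℤ)) b) x y := by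
  ext ω
  rw [Set.mem_iUnion]
  constructor
  · rintro ⟨j, hj, i, hi, hr⟩
    refine ⟨i.natAbs, j, hj, i, ⟨?_, hi⟩, hr⟩
    omega
  · rintro ⟨M, j, hj, i, hi, hr⟩
    exact ⟨j, hj, i, hi.2, hr⟩

theorem ColE_mono_M (b x y : ℤ) : Monotone (fun M : ℕ => ColE (Set.Icc (-(M : ℤ)) b) x y) := by
  intro M M' h ω hω
  obtain ⟨j, hj, hc⟩ := hω
  exact ⟨j, hj, CI_mono (Set.Icc_subset_Icc (by omega) le_rfl) hc⟩

theorem surr_upper_Iic : ∃ C : ℝ, 0 < C ∧ ∀ b x y : ℤ, 0 ≤ y →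
    (bondLaw half).real (SurrE (Set.Iic b) x y) ≤
      C * (((y + 1 : ℤ) : ℝ) / ((max 0 (x - b) : ℤ) + ((y + 1 : ℤ) : ℝ))) ^ ((1 : ℝ) / 3) := by
  obtain ⟨C1, hC1, hCol⟩ := ColE_upper
  refine ⟨C1 + 2, by positivity, ?_⟩
  intro b x y hy
  obtain ⟨D, hD⟩ : ∃ D : ℤ, D = max 0 (x - b) := ⟨_, rfl⟩
  rw [← hD]
  have hh : (1 : ℝ) ≤ ((y + 1 : ℤ) : ℝ) := by exact_mod_cast (by omega : (1 : ℤ) ≤ y + 1)
  have hDr : (0 : ℝ) ≤ (D : ℝ) := by exact_mod_cast (by omega : 0 ≤ D)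
  have hX0 : 0 ≤ ((y + 1 : ℤ) : ℝ) / ((D : ℝ) + ((y + 1 : ℤ) : ℝ)) := by positivity
  have hX : 0 ≤ (((y + 1 : ℤ) : ℝ) / ((D : ℝ) + ((y + 1 : ℤ) : ℝ))) ^ ((1 : ℝ) / 3) := by
    positivity
  rcases le_or_gt (6 * (y + 1)) D with hfar | hclose
  · have h2 := real_mono' (surr_sub_col (I := Set.Iic b) (x := x) hy)
    refine h2.trans ?_
    rw [ColE_Iic]
    apply real_iUnion_le (ColE_mono_M b x y)
    filter_upwards [eventually_ge_atTop b.natAbs] with M hM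
    have h1 := hCol (-(M : ℤ)) b x y D (by omega) hy (by omega) hfar
    refine h1.trans ?_
    have h3 : Phi (y + 1) (b - -(M : ℤ) + 1) D ≤ ((y + 1 : ℤ) : ℝ) /
        ((D : ℝ) + ((y + 1 : ℤ) : ℝ)) := by
      have hl : (1 : ℝ) ≤ ((b - -(M : ℤ) + 1 : ℤ) : ℝ) := by
        exact_mod_cast (by omega : (1 : ℤ) ≤ b - -(M : ℤ) + 1)
      unfold Phi
      set h : ℝ := ((y + 1 : ℤ) : ℝ)
      set l : ℝ := ((b - -(M : ℤ) + 1 : ℤ) : ℝ)
      rw [div_le_div_iff₀ (by positivity) (by positivity)]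
      have : l ≤ (D : ℝ) + h + l := by linarith
      calc h * l * (D + h) = h * (D + h) * l := by ring
        _ ≤ h * (D + h) * (D + h + l) := mul_le_mul_of_nonneg_left this (by positivity)
        _ = _ := by ring
    have h4 := Real.rpow_le_rpow (Phi_nonneg (by omega) (by omega) (by omega)) h3
      (by norm_num : (0 : ℝ) ≤ (1 : ℝ) / 3)
    calc _ ≤ C1 * (((y + 1 : ℤ) : ℝ) / ((D : ℝ) + ((y + 1 : ℤ) : ℝ))) ^ ((1 : ℝ) / 3) :=
          mul_le_mul_of_nonneg_left h4 hC1.le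
      _ ≤ _ := mul_le_mul_of_nonneg_right (by linarith) hX
  · have hD6 : (D : ℝ) ≤ 6 * ((y + 1 : ℤ) : ℝ) := by exact_mod_cast hclose.le
    have h1 : (1 : ℝ) ≤ 8 * (((y + 1 : ℤ) : ℝ) / ((D : ℝ) + ((y + 1 : ℤ) : ℝ))) := by
      rw [mul_div_assoc', le_div_iff₀ (by positivity)]
      linarith
    have h2 := cube_root_le (K := 2) (by norm_num) hX0 (by norm_num) h1 (by norm_num)
    rw [Real.one_rpow] at h2
    exact (real_le_one' _).trans (h2.trans (mul_le_mul_of_nonneg_right (by linarith) hX))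

/-- lower bound for the half-infinite interval -/
theorem surr_lower_Iic : ∃ c : ℝ, 0 < c ∧ ∀ b x y : ℤ, 0 ≤ y →
    c * (((y + 1 : ℤ) : ℝ) / ((max 0 (x - b) : ℤ) + ((y + 1 : ℤ) : ℝ))) ^ ((1 : ℝ) / 3) ≤
      (bondLaw half).real (SurrE (Set.Iic b) x y) := by
  obtain ⟨c, hc, hlow⟩ := surr_lower
  refine ⟨c / 2, by positivity, ?_⟩
  intro b x y hy
  obtain ⟨D, hD⟩ : ∃ D : ℤ, D = max 0 (x - b) := ⟨_, rfl⟩
  rw [← hD]
  obtain ⟨l, hl⟩ : ∃ l : ℤ, l = max (D + (y + 1)) (b - x + 1) := ⟨_, rfl⟩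
  have h1 := hlow (b - l + 1) b x y (by omega) hy
  have e1 : b - (b - l + 1) + 1 = l := by ring
  have e2 : max 0 (max (b - l + 1 - x) (x - b)) = D := by omega
  rw [e1, e2] at h1
  have hh : (1 : ℝ) ≤ ((y + 1 : ℤ) : ℝ) := by exact_mod_cast (by omega : (1 : ℤ) ≤ y + 1)
  have hDr : (0 : ℝ) ≤ (D : ℝ) := by exact_mod_cast (by omega : 0 ≤ D)
  have hlr : (D : ℝ) + ((y + 1 : ℤ) : ℝ) ≤ (l : ℝ) := by
    have : D + (y + 1) ≤ l := by omega
    exact_mod_cast this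
  have h2 : ((y + 1 : ℤ) : ℝ) / ((D : ℝ) + ((y + 1 : ℤ) : ℝ)) ≤ 8 * Phi (y + 1) l D := by
    unfold Phi
    set h : ℝ := ((y + 1 : ℤ) : ℝ)
    have hl0 : 0 < (l : ℝ) := by linarith
    rw [mul_div_assoc', div_le_div_iff₀ (by positivity) (by positivity)]
    have : (D : ℝ) + h + l ≤ 8 * l := by linarith
    calc h * ((D + h) * (D + h + l)) = (h * (D + h)) * (D + h + l) := by ring
      _ ≤ (h * (D + h)) * (8 * l) := mul_le_mul_of_nonneg_left this (by positivity)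
      _ = _ := by ring
  have h3 := cube_root_le (K := 2) (by positivity)
    (Phi_nonneg (h := y + 1) (l := l) (D := D) (by omega) (by omega) (by omega)) (by norm_num) h2
    (by norm_num)
  calc c / 2 * (((y + 1 : ℤ) : ℝ) / ((D : ℝ) + ((y + 1 : ℤ) : ℝ))) ^ ((1 : ℝ) / 3)
      ≤ c / 2 * (2 * (Phi (y + 1) l D) ^ ((1 : ℝ) / 3)) :=
        mul_le_mul_of_nonneg_left h3 (by positivity)
    _ = c * (Phi (y + 1) l D) ^ ((1 : ℝ) / 3) := by ring
    _ ≤ _ := h1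
    _ ≤ _ := real_mono' (fun ω hω hO => hω (Out_anti (fun i hi => hi.2) hO))

end Pool.Agent.H67LP
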