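import Pool.Agent.H67LP.ProbB

/-!
Upper bound for the probability that a face is not surrounded.
-/

set_option autoImplicit false

namespace Pool.Agent.H67LP

open H974 H731C Finset MeasureTheory Filter Topology

/-- a connection between the two sides which avoids the half-box of radius `r` -/
def QE (a b x r K N : ℤ) (F : Finset Edg) : Prop :=
  ∃ i1 i2, (a ≤ i1 ∧ i1 ≤ x - K) ∧ (x + K ≤ i2 ∧ i2 ≤ b) ∧
    Reach (↑F ∩ (↑(RE (-N) N 0 N) \ ↑(RE (x - r) (x + r) 0 r))) (i1, 0) (i2, 0)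

theorem QE_incr (S : Finset Edg) (a b x r K N : ℤ) : IncrE S (QE a b x r K N) := by
  rintro F G h _ ⟨i, j, h1, h2, h3⟩
  exact ⟨i, j, h1, h2, h3.mono (Set.inter_subset_inter_left _ (by exact_mod_cast h))⟩

theorem QE_of {a b x r K N : ℤ} (hrK : r < K) (hN1 : -N ≤ x - K) (hN2 : x + K ≤ N)
    (hN3 : K ≤ N) {F : Finset Edg} (h1 : CN a (x - K) (x + K) b (-N) N 0 N F)
    (h2 : ¬ HA x 0 r K F) : QE a b x r K N F := by
  obtain ⟨i1, i2, hi1, hi2, hr1⟩ := h1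
  refine ⟨i1, i2, hi1, hi2, ?_⟩
  have key : ∀ v, Reach (↑F ∩ ↑(RE (-N) N 0 N)) (i1, 0) v →
      ¬ inR (x - r) (x + r) 0 (0 + r) v ∧
      Reach (↑F ∩ (↑(RE (-N) N 0 N) \ ↑(RE (x - r) (x + r) 0 r))) (i1, 0) v := by
    intro v hv
    have hnot : ¬ inR (x - r) (x + r) 0 (0 + r) v := by
      intro hin
      obtain ⟨w, hw, hrw⟩ := exit_box (z := x) (m := r) (n := K) hrK.le hN1 hN2 hN3 hin
        (v := (i1, 0)) (Or.inl hi1.2) hv.symm
      exact h2 ⟨v, w, hin, hw, hrw⟩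
    refine ⟨hnot, ?_⟩
    clear hnot
    induction hv with
    | refl => exact Reach.refl _ _
    | @tail v w hv hs ih =>
      have hnot : ¬ inR (x - r) (x + r) 0 (0 + r) v := by
        intro hin
        obtain ⟨w', hw, hrw⟩ := exit_box (z := x) (m := r) (n := K) hrK.le hN1 hN2 hN3 hin
          (v := (i1, 0)) (Or.inl hi1.2) (Reach.symm hv)
        exact h2 ⟨v, w', hin, hw, hrw⟩
      refine ih.trans (Adj.reach ?_)
      obtain ⟨e, ⟨heF, heS⟩, hc⟩ := hs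
      refine ⟨e, ⟨heF, heS, ?_⟩, hc⟩
      intro he
      have hends := RE_ends (Finset.mem_coe.mp he)
      rw [zero_add] at hnot
      rcases hc with ⟨h3, -⟩ | ⟨-, h3⟩
      · rw [h3] at hends
        exact hnot hends.1
      · rw [h3] at hends
        exact hnot hends.2
  exact (key _ hr1).2

theorem out_sub_QE {a b x y K N : ℤ} (hy : 0 ≤ y) (hK : y + 1 < K)
    {S : Finset Edg} {ω : sqLattice.edgeSet → Bool}
    (h : Out (Set.Icc a b) (opn ω) (x, y)) : ¬ QE a b x (y + 1) K N (FF S ω) := by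
  rintro ⟨i1, i2, hi1, hi2, hr⟩
  refine surr_arc (I := Set.Icc a b) (G := opn ω) (z := x) (r := y + 1) (x := x) (y := y) (N := N)
    (i1 := i1) (i2 := i2) (fun k h1 h2 => ⟨by omega, by omega⟩) (by omega) (by omega) (by omega)
    (by omega) hy le_rfl (hr.mono ?_) h
  exact Set.inter_subset_inter_left _ (FF_sub S ω)

theorem exists_K : ∃ K : ℕ, 2 ≤ K ∧ ∀ z r : ℤ, 1 ≤ r → ∀ S : Finset Edg,
    RE (z - K * r) (z + K * r) 0 (0 + K * r) ⊆ S → P2 S (HA z 0 r (K * r)) ≤ 1 / 2 := by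
  obtain ⟨C, hC, hHA⟩ := HA_upper
  obtain ⟨n, hn⟩ := exists_nat_ge (8 * C ^ 3)
  refine ⟨n + 2, by omega, ?_⟩
  intro z r hr S hS
  have hr0 : (0 : ℝ) < r := by exact_mod_cast (by omega : 0 < r)
  have hKr : r ≤ ((n + 2 : ℕ) : ℤ) * r := by
    push_cast
    nlinarith [Int.natCast_nonneg n]
  have h1 := hHA z 0 r (((n + 2 : ℕ) : ℤ) * r) hr hKr S hS
  refine h1.trans ?_
  have e : (r : ℝ) / ((((n + 2 : ℕ) : ℤ) * r : ℤ) : ℝ) = 1 / ((n : ℝ) + 2) := by
    push_cast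
    field_simp
  rw [e]
  have h2 : (1 : ℝ) / ((n : ℝ) + 2) ≤ (1 / (2 * C)) ^ 3 * 1 := by
    rw [mul_one, div_pow, one_pow, div_le_div_iff₀ (by positivity) (by positivity)]
    have : (2 * C) ^ 3 = 8 * C ^ 3 := by ring
    rw [this]
    linarith
  have h3 := cube_root_le (x := 1 / ((n : ℝ) + 2)) (y := 1) (K := 1 / (2 * C)) (by positivity)
    (by norm_num) (by positivity) h2 le_rfl
  rw [Real.one_rpow, mul_one] at h3
  calc C * (1 / ((n : ℝ) + 2)) ^ ((1 : ℝ) / 3) ≤ C * (1 / (2 * C)) :=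
        mul_le_mul_of_nonneg_left h3 hC.le
    _ = 1 / 2 := by field_simp

theorem deep_ratio {h e u K : ℝ} (hh : 1 ≤ h) (he : 0 ≤ e) (hu : e ≤ u) (hK : 1 ≤ K) :
    2 * (K * h) / (u + K * h + 1) ≤ 2 * K * (h / (e + h)) := by
  have hu0 : 0 ≤ u := he.trans hu
  rw [mul_div_assoc', div_le_div_iff₀ (by positivity) (by positivity)]
  have : e + h ≤ u + K * h + 1 := by nlinarith
  calc 2 * (K * h) * (e + h) ≤ 2 * (K * h) * (u + K * h + 1) :=
        mul_le_mul_of_nonneg_left this (by positivity)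
    _ = _ := by ring

/-- upper bound for the probability not to be surrounded -/
theorem out_upper : ∃ C : ℝ, 0 < C ∧ ∀ a b x y : ℤ, a ≤ b → 0 ≤ y →
    (bondLaw half).real (OutE (Set.Icc a b) x y) ≤
      C * (((y + 1 : ℤ) : ℝ) / ((max 0 (min (x - a) (b - x)) : ℤ) + ((y + 1 : ℤ) : ℝ))) ^
        ((1 : ℝ) / 3) := by
  obtain ⟨K, hK2, hHA⟩ := exists_K
  obtain ⟨C, hC, hCN⟩ := CN_compl_upper
  refine ⟨(1 + K) + 2 * (C * (2 * K)), by positivity, ?_⟩
  intro a b x y hab hy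
  obtain ⟨e, he⟩ : ∃ e : ℤ, e = max 0 (min (x - a) (b - x)) := ⟨_, rfl⟩
  rw [← he]
  have hh : (1 : ℝ) ≤ ((y + 1 : ℤ) : ℝ) := by exact_mod_cast (by omega : (1 : ℤ) ≤ y + 1)
  have her : (0 : ℝ) ≤ (e : ℝ) := by exact_mod_cast (by omega : 0 ≤ e)
  have hKr : (1 : ℝ) ≤ (K : ℝ) := by exact_mod_cast (by omega : 1 ≤ K)
  have hX0 : 0 ≤ ((y + 1 : ℤ) : ℝ) / ((e : ℝ) + ((y + 1 : ℤ) : ℝ)) := by positivity
  have hX : 0 ≤ (((y + 1 : ℤ) : ℝ) / ((e : ℝ) + ((y + 1 : ℤ) : ℝ))) ^ ((1 : ℝ) / 3) := by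
    positivity
  rcases lt_or_ge e ((K : ℤ) * (y + 1)) with hlt | hge
  · -- not deep
    have heK : (e : ℝ) ≤ K * ((y + 1 : ℤ) : ℝ) := by exact_mod_cast hlt.le
    have h1 : (1 : ℝ) ≤ (1 + K) * (((y + 1 : ℤ) : ℝ) / ((e : ℝ) + ((y + 1 : ℤ) : ℝ))) := by
      rw [mul_div_assoc', le_div_iff₀ (by positivity)]
      linarith
    have h2 : (1 : ℝ) ≤ ((1 + K) * (((y + 1 : ℤ) : ℝ) / ((e : ℝ) + ((y + 1 : ℤ) : ℝ)))) ^
        ((1 : ℝ) / 3) := Real.one_le_rpow h1 (by norm_num)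
    have h3 := F_cube_le hX0 (K := 1 + K) (by linarith)
    refine (real_le_one' _).trans (h2.trans (h3.trans (mul_le_mul_of_nonneg_right ?_ hX)))
    have : 0 ≤ 2 * (C * (2 * K)) := by positivity
    linarith
  · -- deep
    obtain ⟨k, hk⟩ : ∃ k : ℤ, k = (K : ℤ) * (y + 1) := ⟨_, rfl⟩
    have hk1 : y + 1 < k := by rw [hk]; nlinarith
    rw [← hk] at hge
    obtain ⟨N0, hN0⟩ := hCN a (x - k) (x + k) b (by omega) (by omega) (by omega)
    obtain ⟨N, hN⟩ : ∃ N : ℤ, N = max N0 (|x| + k) := ⟨_, rfl⟩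
    have hx1 := le_abs_self x
    have hx2 := neg_abs_le x
    have hx3 := abs_nonneg x
    have key := hN0 N (by omega)
    have hsub : RE (x - K * (y + 1)) (x + K * (y + 1)) 0 (0 + K * (y + 1)) ⊆ RE (-N) N 0 N := by
      rw [← hk]
      exact RE_subset (by omega) (by omega) le_rfl (by omega)
    have k1 := hHA x (y + 1) (by omega) (RE (-N) N 0 N) hsub
    rw [← hk] at k1
    have k2 := Pr_harris_dd okhalf2 (QE_incr (RE (-N) N 0 N) a b x (y + 1) k N)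
      (HA_incr (RE (-N) N 0 N) x 0 (y + 1) k)
    have k3 : Pr (fun _ => (1/2 : ℝ)) (RE (-N) N 0 N)
        (fun F => ¬ QE a b x (y + 1) k N F ∧ ¬ HA x 0 (y + 1) k F) ≤
        P2 (RE (-N) N 0 N) (fun F => ¬ CN a (x - k) (x + k) b (-N) N 0 N F) := by
      apply Pr_mono okhalf2
      rintro F _ ⟨h1, h2⟩ h3
      exact h1 (QE_of hk1 (by omega) (by omega) (by omega) h3 h2)
    have k4 : (bondLaw half).real (OutE (Set.Icc a b) x y) ≤
        P2 (RE (-N) N 0 N) (fun F => ¬ QE a b x (y + 1) k N F) := by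
      apply real_le_P2
      intro ω hω
      exact out_sub_QE hy hk1 hω
    have k5 : P2 (RE (-N) N 0 N) (fun F => ¬ QE a b x (y + 1) k N F) =
        1 - P2 (RE (-N) N 0 N) (QE a b x (y + 1) k N) := Pr_not _ _
    set q : ℝ := P2 (RE (-N) N 0 N) (QE a b x (y + 1) k N) with hq
    have hq1 : q ≤ 1 := Pr_le_one okhalf2 _ _
    have k6 : (1 - q) * (1 / 2) ≤
        P2 (RE (-N) N 0 N) (fun F => ¬ CN a (x - k) (x + k) b (-N) N 0 N F) := by
      refine le_trans ?_ (k2.trans k3)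
      exact mul_le_mul_of_nonneg_left (by
        have : P2 (RE (-N) N 0 N) (HA x 0 (y + 1) k) ≤ 1 / 2 := k1
        unfold P2 at this
        linarith) (by linarith)
    have k7 : max (((x + k - (x - k) : ℤ) : ℝ) / ((x - k - a + 1 + (x + k - (x - k)) : ℤ) : ℝ))
        (((x + k - (x - k) : ℤ) : ℝ) / ((x + k - (x - k) + (b - (x + k) + 1) : ℤ) : ℝ)) ≤
        2 * K * (((y + 1 : ℤ) : ℝ) / ((e : ℝ) + ((y + 1 : ℤ) : ℝ))) := by
      have hu1 : (e : ℝ) ≤ ((x - a : ℤ) : ℝ) := by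
        exact_mod_cast (by omega : e ≤ x - a)
      have hu2 : (e : ℝ) ≤ ((b - x : ℤ) : ℝ) := by
        exact_mod_cast (by omega : e ≤ b - x)
      have d1 := deep_ratio (K := (K : ℝ)) hh her hu1 hKr
      have d2 := deep_ratio (K := (K : ℝ)) hh her hu2 hKr
      apply max_le
      · refine le_trans (le_of_eq ?_) d1
        rw [hk]
        push_cast
        ring_nf
      · refine le_trans (le_of_eq ?_) d2
        rw [hk]
        push_cast
        ring_nf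
    have k8 : P2 (RE (-N) N 0 N) (fun F => ¬ CN a (x - k) (x + k) b (-N) N 0 N F) ≤
        C * (2 * K) * (((y + 1 : ℤ) : ℝ) / ((e : ℝ) + ((y + 1 : ℤ) : ℝ))) ^ ((1 : ℝ) / 3) := by
      refine key.trans ?_
      rw [mul_assoc]
      refine mul_le_mul_of_nonneg_left ?_ hC.le
      refine le_trans (Real.rpow_le_rpow ?_ k7 (by norm_num))
        (F_cube_le hX0 (K := 2 * K) (by linarith))
      apply le_max_of_le_left
      apply div_nonneg
      · exact_mod_cast (by omega : (0 : ℤ) ≤ x + k - (x - k))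
      · exact_mod_cast (by omega : (0 : ℤ) ≤ x - k - a + 1 + (x + k - (x - k)))
    rw [k5] at k4
    calc (bondLaw half).real (OutE (Set.Icc a b) x y) ≤ 1 - q := k4
      _ = 2 * ((1 - q) * (1 / 2)) := by ring
      _ ≤ 2 * (C * (2 * K) *
          (((y + 1 : ℤ) : ℝ) / ((e : ℝ) + ((y + 1 : ℤ) : ℝ))) ^ ((1 : ℝ) / 3)) := by
          linarith [k6.trans k8]
      _ ≤ _ := by nlinarith [mul_nonneg (by linarith : (0 : ℝ) ≤ 1 + K) hX]

theorem out_upper_Iic : ∃ C : ℝ, 0 < C ∧ ∀ b x y : ℤ, 0 ≤ y →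
    (bondLaw half).real (OutE (Set.Iic b) x y) ≤
      C * (((y + 1 : ℤ) : ℝ) / ((max 0 (b - x) : ℤ) + ((y + 1 : ℤ) : ℝ))) ^ ((1 : ℝ) / 3) := by
  obtain ⟨C, hC, h⟩ := out_upper
  refine ⟨C, hC, ?_⟩
  intro b x y hy
  have h1 := h (min b (2 * x - b)) b x y (by omega) hy
  have e : max 0 (min (x - min b (2 * x - b)) (b - x)) = max 0 (b - x) := by omega
  rw [e] at h1
  refine le_trans (real_mono' ?_) h1
  intro ω hω
  exact Out_anti (fun i hi => hi.2) hω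

end Pool.Agent.H67LP
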