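import Pool.Agent.H67LP.ProbC
import Pool.Agent.H67LP.Dual

/-!
Lower bound for the probability that a face is not surrounded.
-/

set_option autoImplicit false

namespace Pool.Agent.H67LP

open H974 H731C Finset MeasureTheory Filter Topology

theorem low2 {S : Finset Edg} {A B : Finset Edg → Prop} {c1 c2 : ℝ}
    (hA : IncrE S A) (hB : IncrE S B) (hc1 : 0 ≤ c1) (hc2 : 0 ≤ c2)
    (h1 : c1 ≤ P2 S A) (h2 : c2 ≤ P2 S B) :
    c1 * c2 ≤ P2 S (fun F => A F ∧ B F) :=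
  (mul_le_mul h1 h2 hc2 (hc1.trans h1)).trans (Pr_harris okhalf2 hA hB)

theorem and_incr {S : Finset Edg} {A B : Finset Edg → Prop} (hA : IncrE S A) (hB : IncrE S B) :
    IncrE S (fun F => A F ∧ B F) :=
  fun F G h1 h2 h3 => ⟨hA F G h1 h2 h3.1, hB F G h1 h2 h3.2⟩

/-- the dual half-circuit -/
def DHC (x r y : ℤ) (F : Finset Edg) : Prop :=
  LRc (x - 3 * r) (x + 3 * r) (r - 1) (3 * r - 1) F ∧
    TBc (x + r) (x + 3 * r - 1) (-1) (3 * r) F ∧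
    TBc (x - 3 * r + 1) (x - r - 1) (-1) (3 * r) F ∧
    LRc (x - 3 * r) (x + 3 * r) 0 y F ∧ ((x, 0, false) : Edg) ∈ F

theorem edge_incr (S : Finset Edg) (e : Edg) : IncrE S (fun F => e ∈ F) :=
  fun _ _ h1 _ h3 => h1 h3

theorem DHC_incr (S : Finset Edg) (x r y : ℤ) : IncrE S (DHC x r y) :=
  and_incr (LRc_incr _ _ _ _ _) (and_incr (TBc_incr _ _ _ _ _) (and_incr (TBc_incr _ _ _ _ _)
    (and_incr (LRc_incr _ _ _ _ _) (edge_incr _ _))))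

theorem DHC_lower : ∃ c : ℝ, 0 < c ∧ ∀ x r y N : ℤ, 1 ≤ y → r = y + 2 → |x| + 3 * r + 2 ≤ N →
    c ≤ P2 (dmp (RE (-N) N 0 N)) (DHC x r y) := by
  obtain ⟨c, hc, hLR⟩ := LR_low 2
  refine ⟨(1/2 : ℝ) ^ 47 * ((1/2 : ℝ) ^ 47 * ((1/2 : ℝ) ^ 47 * (c * (1/2)))), by positivity, ?_⟩
  intro x r y N hy hr hN
  have hx1 := le_abs_self x
  have hx2 := neg_abs_le x
  have hx3 := abs_nonneg x
  have s1 : LRE (x - 3 * r) (x + 3 * r) (r - 1) (3 * r - 1) ⊆ dmp (RE (-N) N 0 N) :=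
    ((LRE_subset_VE (t := -1) (by omega)).trans (VE_mono (by omega) (by omega) (by omega))).trans
      VE_subset_dmp
  have s2 : TBE (x + r) (x + 3 * r - 1) (-1) (3 * r) ⊆ dmp (RE (-N) N 0 N) :=
    ((TBE_subset_VE (A := x + r) (B := x + 3 * r - 1) le_rfl le_rfl).trans
      (VE_mono (by omega) (by omega) (by omega))).trans VE_subset_dmp
  have s3 : TBE (x - 3 * r + 1) (x - r - 1) (-1) (3 * r) ⊆ dmp (RE (-N) N 0 N) :=
    ((TBE_subset_VE (A := x - 3 * r + 1) (B := x - r - 1) le_rfl le_rfl).trans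
      (VE_mono (by omega) (by omega) (by omega))).trans VE_subset_dmp
  have s4 : LRE (x - 3 * r) (x + 3 * r) 0 y ⊆ dmp (RE (-N) N 0 N) :=
    ((LRE_subset_VE (t := -1) (by omega)).trans (VE_mono (by omega) (by omega) (by omega))).trans
      VE_subset_dmp
  have s5 : ((x, 0, false) : Edg) ∈ dmp (RE (-N) N 0 N) := by
    apply VE_subset_dmp
    rw [mem_VE_false]
    omega
  have k1 : (1/2 : ℝ) ^ 47 ≤ P2 (dmp (RE (-N) N 0 N))
      (LRc (x - 3 * r) (x + 3 * r) (r - 1) (3 * r - 1)) := by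
    unfold P2
    rw [pr_LRc (1/2) s1]
    exact rsw (n := r) (by omega) (by omega) (by omega) (by omega)
  have k2 : (1/2 : ℝ) ^ 47 ≤ P2 (dmp (RE (-N) N 0 N))
      (TBc (x + r) (x + 3 * r - 1) (-1) (3 * r)) := by
    unfold P2
    rw [pr_TBc (1/2) s2]
    exact rsw (n := r - 1) (by omega) (by omega) (by omega) (by omega)
  have k3 : (1/2 : ℝ) ^ 47 ≤ P2 (dmp (RE (-N) N 0 N))
      (TBc (x - 3 * r + 1) (x - r - 1) (-1) (3 * r)) := by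
    unfold P2
    rw [pr_TBc (1/2) s3]
    exact rsw (n := r - 1) (by omega) (by omega) (by omega) (by omega)
  have k4 := hLR x y r (by omega) (by omega) (by push_cast; omega) _ s4
  have k5 : (1/2 : ℝ) ≤ P2 (dmp (RE (-N) N 0 N)) (fun F => ((x, 0, false) : Edg) ∈ F) :=
    (P2_edge s5).ge
  have j4 := low2 (LRc_incr _ (x - 3 * r) (x + 3 * r) 0 y) (edge_incr _ _) hc.le (by norm_num)
    k4 k5
  have j3 := low2 (TBc_incr _ (x - 3 * r + 1) (x - r - 1) (-1) (3 * r))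
    (and_incr (LRc_incr _ (x - 3 * r) (x + 3 * r) 0 y) (edge_incr _ _)) (by positivity)
    (by positivity) k3 j4
  have j2 := low2 (TBc_incr _ (x + r) (x + 3 * r - 1) (-1) (3 * r))
    (and_incr (TBc_incr _ (x - 3 * r + 1) (x - r - 1) (-1) (3 * r))
    (and_incr (LRc_incr _ (x - 3 * r) (x + 3 * r) 0 y) (edge_incr _ _))) (by positivity)
    (by positivity) k2 j3
  exact low2 (LRc_incr _ (x - 3 * r) (x + 3 * r) (r - 1) (3 * r - 1))
    (and_incr (TBc_incr _ (x + r) (x + 3 * r - 1) (-1) (3 * r))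
    (and_incr (TBc_incr _ (x - 3 * r + 1) (x - r - 1) (-1) (3 * r))
    (and_incr (LRc_incr _ (x - 3 * r) (x + 3 * r) 0 y) (edge_incr _ _)))) (by positivity)
    (by positivity) k1 j2

theorem dual_sub (S : Finset Edg) (hS : (↑S : Set Edg) ⊆ HP) (ω : sqLattice.edgeSet → Bool) :
    (↑(dmp (S \ FF S ω)) : Set Edg) ⊆ dl '' ((opn ω)ᶜ ∩ HP) := by
  rw [coe_dmp]
  rintro _ ⟨e, he, rfl⟩
  rw [Finset.mem_coe, Finset.mem_sdiff] at he
  refine ⟨e, ⟨?_, hS (Finset.mem_coe.mpr he.1)⟩, rfl⟩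
  intro h
  apply he.2
  rw [← Finset.mem_coe, FF_coe]
  exact ⟨h, Finset.mem_coe.mpr he.1⟩

theorem out_down {I : Set ℤ} {G : Set Edg} {x : ℤ} (h : ((x, 1, true) : Edg) ∉ G)
    (h1 : Out I G (x, 1)) : Out I G (x, 0) := by
  have h2 : ((x, 1, true) : Edg) ∉ Wall I G := by
    rintro ⟨-, h3 | h3⟩
    · exact h h3.1
    · have : (1 : ℤ) = 0 := h3.1
      omega
  have h3 := (Out_step h2).mpr (by simpa using h1)
  simpa using h3

/-- deterministic part -/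
theorem out_of_dual {I : Set ℤ} {G : Set Edg} {x y r p q : ℤ} (hy : 0 ≤ y)
    (hr : r = max y 1 + 2) {F : Finset Edg} (hF : (↑F : Set Edg) ⊆ dl '' (Gᶜ ∩ HP))
    (hD : DHC x r (max y 1) F) (hp : x - r ≤ p ∧ p ≤ x + r)
    (hq : q ≤ x - 3 * r ∨ x + 3 * r ≤ q) (hpq : Reach (↑F : Set Edg) (p, -1) (q, -1))
    (hqI : ¬ (q ∈ I ∧ q + 1 ∈ I)) : Out I G (x, y) := by
  obtain ⟨h1, h2, h3, h4, h5⟩ := hD
  have key : Out I G (x, max y 1) := out_ring (z := x) (r := r) (x := x) (y := max y 1)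
    (by omega) (by omega) (by omega) (by omega) (by omega) hF h1 h2 h3 h4 hp hq hpq hqI
  rcases eq_or_lt_of_le hy with h0 | h0
  · have e : max y 1 = 1 := by omega
    rw [e] at key
    rw [← h0]
    apply out_down _ key
    intro hG
    obtain ⟨e', he', hee⟩ := hF (Finset.mem_coe.mpr h5)
    have : e' = (x, 1, true) := by
      apply dl.injective
      rw [hee]
      simp
    rw [this] at he'
    exact he'.1 hG
  · have e : max y 1 = y := by omega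
    rwa [e] at key

theorem xc_ratio {r s h : ℝ} (hh : 1 ≤ h) (hr : h ≤ r) (hs : r + 1 ≤ s) :
    h / s ≤ 8 * ((2 * r + 1) * (s + 1) / (2 * s + r + 1) ^ 2) := by
  have hs0 : 0 < s := by linarith
  have hb : 0 < 2 * s + r + 1 := by linarith
  rw [mul_div_assoc', div_le_div_iff₀ hs0 (by positivity)]
  have h1 : (2 * s + r + 1) ^ 2 ≤ (3 * s) ^ 2 := pow_le_pow_left₀ hb.le (by linarith) 2
  calc h * (2 * s + r + 1) ^ 2 ≤ r * (3 * s) ^ 2 := mul_le_mul hr h1 (by positivity) (by linarith)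
    _ = 9 * (r * s) * s := by ring
    _ ≤ 8 * ((2 * r + 1) * (s + 1)) * s := by
        apply mul_le_mul_of_nonneg_right _ hs0.le
        nlinarith [mul_nonneg (by linarith : 0 ≤ r) hs0.le]

theorem out_lower_gen : ∃ c : ℝ, 0 < c ∧ ∀ (I : Set ℤ) (x y s : ℤ), 0 ≤ y →
    3 * (max y 1 + 2) ≤ s →
    ((∀ q, x + s ≤ q → ¬ (q ∈ I ∧ q + 1 ∈ I)) ∨ (∀ q, q ≤ x - s → ¬ (q ∈ I ∧ q + 1 ∈ I))) →
    c * (((y + 1 : ℤ) : ℝ) / s) ^ ((1 : ℝ) / 3) ≤ (bondLaw half).real (OutE I x y) := by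
  obtain ⟨c0, hc0, hX⟩ := XC_lower
  obtain ⟨c1, hc1, hDH⟩ := DHC_lower
  refine ⟨c0 / 2 * c1, by positivity, ?_⟩
  intro I x y s hy hs hI
  obtain ⟨r, hr⟩ : ∃ r : ℤ, r = max y 1 + 2 := ⟨_, rfl⟩
  obtain ⟨N, hN⟩ : ∃ N : ℤ, N = |x| + 40 * s := ⟨_, rfl⟩
  have hx1 := le_abs_self x
  have hx2 := neg_abs_le x
  have hx3 := abs_nonneg x
  have k2 := hDH x r (max y 1) N (by omega) hr (by omega)
  have hHP : (↑(RE (-N) N 0 N) : Set Edg) ⊆ HP := HP_RE le_rfl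
  have hh : (1 : ℝ) ≤ ((y + 1 : ℤ) : ℝ) := by exact_mod_cast (by omega : (1 : ℤ) ≤ y + 1)
  have hhr : ((y + 1 : ℤ) : ℝ) ≤ (r : ℝ) := by exact_mod_cast (by omega : y + 1 ≤ r)
  have hrs : (r : ℝ) + 1 ≤ (s : ℝ) := by exact_mod_cast (by omega : r + 1 ≤ s)
  have hs0 : (0 : ℝ) < (s : ℝ) := by linarith
  have hr1 : (0 : ℝ) < (r : ℝ) := by linarith
  have hrat := xc_ratio hh hhr hrs
  set R : ℝ := (2 * (r : ℝ) + 1) * ((s : ℝ) + 1) / (2 * (s : ℝ) + r + 1) ^ 2 with hR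
  have hR0 : 0 ≤ R := by positivity
  have hcube := cube_root_le (K := 2) (by positivity) hR0 (by norm_num) hrat (by norm_num)
  have hq0 : 0 ≤ (((y + 1 : ℤ) : ℝ) / s) ^ ((1 : ℝ) / 3) := by positivity
  rcases hI with hI | hI
  · -- to the right
    have k1 := hX (x - r) (x + r) (x + s) (x + 2 * s) (-1) (-N) (N - 1) (N - 1) (by omega)
      (by omega) (by omega) (by omega) (by omega) (by omega) (dmp (RE (-N) N 0 N)) VE_subset_dmp
    have e1 : ((((x + r - (x - r) + 1 : ℤ) : ℝ) * ((x + 2 * s - (x + s) + 1 : ℤ) : ℝ)) /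
        ((x + 2 * s - (x - r) + 1 : ℤ) : ℝ) ^ 2) = R := by
      rw [hR]
      push_cast
      ring_nf
    rw [e1] at k1
    have k3 : c0 / 2 * (((y + 1 : ℤ) : ℝ) / s) ^ ((1 : ℝ) / 3) ≤
        P2 (dmp (RE (-N) N 0 N)) (XC (x - r) (x + r) (x + s) (x + 2 * s) (-N) (N - 1) (-1)
          (N - 1)) := by
      refine le_trans ?_ k1
      calc c0 / 2 * (((y + 1 : ℤ) : ℝ) / s) ^ ((1 : ℝ) / 3)
          ≤ c0 / 2 * (2 * R ^ ((1 : ℝ) / 3)) := mul_le_mul_of_nonneg_left hcube (by positivity)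
        _ = _ := by ring
    have k4 := low2 (XC_incr (dmp (RE (-N) N 0 N)) (x - r) (x + r) (x + s) (x + 2 * s) (-N)
      (N - 1) (-1) (N - 1)) (DHC_incr (dmp (RE (-N) N 0 N)) x r (max y 1)) (by positivity) hc1.le
      k3 k2
    have e2 : c0 / 2 * c1 * (((y + 1 : ℤ) : ℝ) / s) ^ ((1 : ℝ) / 3) =
        c0 / 2 * (((y + 1 : ℤ) : ℝ) / s) ^ ((1 : ℝ) / 3) * c1 := by ring
    rw [e2]
    refine k4.trans ?_
    rw [← P2_dual]
    apply P2_le_real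
    rintro ω ⟨⟨p, q, hp, hq, hpq⟩, hD⟩
    exact out_of_dual hy hr (dual_sub _ hHP ω) hD hp (Or.inr (by omega))
      (hpq.mono Set.inter_subset_left) (hI q hq.1)
  · -- to the left
    have k1 := hX (x - 2 * s) (x - s) (x - r) (x + r) (-1) (-N) (N - 1) (N - 1) (by omega)
      (by omega) (by omega) (by omega) (by omega) (by omega) (dmp (RE (-N) N 0 N)) VE_subset_dmp
    have e1 : ((((x - s - (x - 2 * s) + 1 : ℤ) : ℝ) * ((x + r - (x - r) + 1 : ℤ) : ℝ)) /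
        ((x + r - (x - 2 * s) + 1 : ℤ) : ℝ) ^ 2) = R := by
      rw [hR]
      push_cast
      ring_nf
    rw [e1] at k1
    have k3 : c0 / 2 * (((y + 1 : ℤ) : ℝ) / s) ^ ((1 : ℝ) / 3) ≤
        P2 (dmp (RE (-N) N 0 N)) (XC (x - 2 * s) (x - s) (x - r) (x + r) (-N) (N - 1) (-1)
          (N - 1)) := by
      refine le_trans ?_ k1
      calc c0 / 2 * (((y + 1 : ℤ) : ℝ) / s) ^ ((1 : ℝ) / 3)
          ≤ c0 / 2 * (2 * R ^ ((1 : ℝ) / 3)) := mul_le_mul_of_nonneg_left hcube (by positivity)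
        _ = _ := by ring
    have k4 := low2 (XC_incr (dmp (RE (-N) N 0 N)) (x - 2 * s) (x - s) (x - r) (x + r) (-N)
      (N - 1) (-1) (N - 1)) (DHC_incr (dmp (RE (-N) N 0 N)) x r (max y 1)) (by positivity) hc1.le
      k3 k2
    have e2 : c0 / 2 * c1 * (((y + 1 : ℤ) : ℝ) / s) ^ ((1 : ℝ) / 3) =
        c0 / 2 * (((y + 1 : ℤ) : ℝ) / s) ^ ((1 : ℝ) / 3) * c1 := by ring
    rw [e2]
    refine k4.trans ?_
    rw [← P2_dual]
    apply P2_le_real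
    rintro ω ⟨⟨q, p, hq, hp, hpq⟩, hD⟩
    exact out_of_dual hy hr (dual_sub _ hHP ω) hD hp (Or.inl (by omega))
      (hpq.symm.mono Set.inter_subset_left) (hI q hq.2)

/-- lower bound for the probability not to be surrounded -/
theorem out_lower : ∃ c : ℝ, 0 < c ∧ ∀ a b x y : ℤ, a ≤ b → 0 ≤ y →
    c * (((y + 1 : ℤ) : ℝ) / ((max 0 (min (x - a) (b - x)) : ℤ) + ((y + 1 : ℤ) : ℝ))) ^
        ((1 : ℝ) / 3) ≤ (bondLaw half).real (OutE (Set.Icc a b) x y) := by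
  obtain ⟨c, hc, hg⟩ := out_lower_gen
  refine ⟨c / 3, by positivity, ?_⟩
  intro a b x y hab hy
  obtain ⟨e, he⟩ : ∃ e : ℤ, e = max 0 (min (x - a) (b - x)) := ⟨_, rfl⟩
  rw [← he]
  have hh : (1 : ℝ) ≤ ((y + 1 : ℤ) : ℝ) := by exact_mod_cast (by omega : (1 : ℤ) ≤ y + 1)
  have her : (0 : ℝ) ≤ (e : ℝ) := by exact_mod_cast (by omega : 0 ≤ e)
  obtain ⟨s, hs1, hs2, hs3⟩ : ∃ s : ℤ, 3 * (max y 1 + 2) ≤ s ∧ s ≤ 10 * (y + 1) + e ∧
      ((∀ q, x + s ≤ q → ¬ (q ∈ Set.Icc a b ∧ q + 1 ∈ Set.Icc a b)) ∨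
        (∀ q, q ≤ x - s → ¬ (q ∈ Set.Icc a b ∧ q + 1 ∈ Set.Icc a b))) := by
    rcases le_or_gt (b - x) (x - a) with h | h
    · refine ⟨max (3 * (max y 1 + 2)) (b - x), by omega, by omega, Or.inl ?_⟩
      rintro q hq ⟨-, h2⟩
      have := h2.2
      omega
    · refine ⟨max (3 * (max y 1 + 2)) (x - a + 1), by omega, by omega, Or.inr ?_⟩
      rintro q hq ⟨h1, -⟩
      have := h1.1
      omega
  have k1 := hg (Set.Icc a b) x y s hy hs1 hs3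
  have hs0 : (0 : ℝ) < (s : ℝ) := by exact_mod_cast (by omega : 0 < s)
  have hs4 : (s : ℝ) ≤ 10 * ((y + 1 : ℤ) : ℝ) + e := by exact_mod_cast hs2
  have h1 : ((y + 1 : ℤ) : ℝ) / ((e : ℝ) + ((y + 1 : ℤ) : ℝ)) ≤
      27 * (((y + 1 : ℤ) : ℝ) / s) := by
    rw [mul_div_assoc', div_le_div_iff₀ (by positivity) hs0]
    nlinarith
  have h2 := cube_root_le (K := 3) (by positivity) (by positivity) (by norm_num) h1 (by norm_num)
  calc c / 3 * (((y + 1 : ℤ) : ℝ) / ((e : ℝ) + ((y + 1 : ℤ) : ℝ))) ^ ((1 : ℝ) / 3)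
      ≤ c / 3 * (3 * (((y + 1 : ℤ) : ℝ) / s) ^ ((1 : ℝ) / 3)) :=
        mul_le_mul_of_nonneg_left h2 (by positivity)
    _ = c * (((y + 1 : ℤ) : ℝ) / s) ^ ((1 : ℝ) / 3) := by ring
    _ ≤ _ := k1

theorem out_lower_Iic : ∃ c : ℝ, 0 < c ∧ ∀ b x y : ℤ, 0 ≤ y →
    c * (((y + 1 : ℤ) : ℝ) / ((max 0 (b - x) : ℤ) + ((y + 1 : ℤ) : ℝ))) ^
        ((1 : ℝ) / 3) ≤ (bondLaw half).real (OutE (Set.Iic b) x y) := by
  obtain ⟨c, hc, hg⟩ := out_lower_gen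
  refine ⟨c / 3, by positivity, ?_⟩
  intro b x y hy
  obtain ⟨e, he⟩ : ∃ e : ℤ, e = max 0 (b - x) := ⟨_, rfl⟩
  rw [← he]
  have hh : (1 : ℝ) ≤ ((y + 1 : ℤ) : ℝ) := by exact_mod_cast (by omega : (1 : ℤ) ≤ y + 1)
  have her : (0 : ℝ) ≤ (e : ℝ) := by exact_mod_cast (by omega : 0 ≤ e)
  obtain ⟨s, hs⟩ : ∃ s : ℤ, s = max (3 * (max y 1 + 2)) (b - x) := ⟨_, rfl⟩
  have k1 := hg (Set.Iic b) x y s hy (by omega) (Or.inl (by
    rintro q hq ⟨-, h2⟩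
    have : q + 1 ≤ b := h2
    omega))
  have hs0 : (0 : ℝ) < (s : ℝ) := by exact_mod_cast (by omega : 0 < s)
  have hs4 : (s : ℝ) ≤ 10 * ((y + 1 : ℤ) : ℝ) + e := by
    exact_mod_cast (by omega : s ≤ 10 * (y + 1) + e)
  have h1 : ((y + 1 : ℤ) : ℝ) / ((e : ℝ) + ((y + 1 : ℤ) : ℝ)) ≤
      27 * (((y + 1 : ℤ) : ℝ) / s) := by
    rw [mul_div_assoc', div_le_div_iff₀ (by positivity) hs0]
    nlinarith
  have h2 := cube_root_le (K := 3) (by positivity) (by positivity) (by norm_num) h1 (by norm_num)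
  calc c / 3 * (((y + 1 : ℤ) : ℝ) / ((e : ℝ) + ((y + 1 : ℤ) : ℝ))) ^ ((1 : ℝ) / 3)
      ≤ c / 3 * (3 * (((y + 1 : ℤ) : ℝ) / s) ^ ((1 : ℝ) / 3)) :=
        mul_le_mul_of_nonneg_left h2 (by positivity)
    _ = c * (((y + 1 : ℤ) : ℝ) / s) ^ ((1 : ℝ) / 3) := by ring
    _ ≤ _ := k1

end Pool.Agent.H67LP
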