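import Pool.Agent.H67LP.Defs
import Pool.Agent.H974R2.RSW2

/-!
Left passage: open rings and open arcs block dual paths.
-/

set_option autoImplicit false

namespace Pool.Agent.H67LP

open H974 H731C

/-- Inner faces of the rectangle `[A, B] × [0, D]`. -/
def Inn (A B D : ℤ) (f : Vtx) : Prop := (A ≤ f.1 ∧ f.1 < B) ∧ (0 ≤ f.2 ∧ f.2 < D)

/-- A dual path which leaves the rectangle does so through the top, the bottom, or the sides. -/
theorem dexit {G : Set Edg} {A B D : ℤ} {f g : Vtx} (hf : Inn A B D f) (h : DReach G f g)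
    (hg : ¬ Inn A B D g) :
    (∃ w, (w.2 = D ∨ w.2 = -1) ∧ DReach (G ∩ ↑(LRE A B 0 D)) f w) ∨
      (∃ w, (w.1 = B ∨ w.1 = A - 1) ∧ DReach (G ∩ ↑(TBE A B 0 D)) f w) := by
  have key : ∀ g, DReach G f g → ((∃ w, (w.2 = D ∨ w.2 = -1) ∧
      DReach (G ∩ ↑(LRE A B 0 D)) f w) ∨
      (∃ w, (w.1 = B ∨ w.1 = A - 1) ∧ DReach (G ∩ ↑(TBE A B 0 D)) f w)) ∨
      (Inn A B D g ∧ DReach (G ∩ (↑(LRE A B 0 D) ∩ ↑(TBE A B 0 D))) f g) := by
    intro g hg
    induction hg with
    | refl => exact Or.inr ⟨hf, DReach.refl _ _⟩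
    | @tail v w _ hs ih =>
      rcases ih with ih | ⟨hv, hr⟩
      · exact Or.inl ih
      · have hrL : DReach (G ∩ ↑(LRE A B 0 D)) f v :=
          hr.mono (Set.inter_subset_inter_right _ Set.inter_subset_left)
        have hrT : DReach (G ∩ ↑(TBE A B 0 D)) f v :=
          hr.mono (Set.inter_subset_inter_right _ Set.inter_subset_right)
        unfold Inn at hv
        obtain ⟨⟨p, q, _ | _⟩, heG, hc⟩ := hs
        · -- horizontal dual step
          by_cases hw : Inn A B D w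
          · refine Or.inr ⟨hw, hr.trans (DAdj.reach ⟨(p, q, false), ⟨heG, ?_, ?_⟩, hc⟩)⟩
            · rw [Finset.mem_coe, mem_LRE_false]
              unfold Inn at hw
              simp only [dsrc_false, dtgt_mk] at hc
              rcases hc with ⟨k1, k2⟩ | ⟨k1, k2⟩ <;> subst k1 <;> subst k2 <;>
                simp only at hv hw <;> omega
            · rw [Finset.mem_coe, mem_TBE_false]
              unfold Inn at hw
              simp only [dsrc_false, dtgt_mk] at hc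
              rcases hc with ⟨k1, k2⟩ | ⟨k1, k2⟩ <;> subst k1 <;> subst k2 <;>
                simp only at hv hw <;> omega
          · refine Or.inl (Or.inr ⟨w, ?_, hrT.trans (DAdj.reach ⟨(p, q, false), ⟨heG, ?_⟩, hc⟩)⟩)
            · unfold Inn at hw
              simp only [dsrc_false, dtgt_mk] at hc
              rcases hc with ⟨k1, k2⟩ | ⟨k1, k2⟩ <;> subst k1 <;> subst k2 <;>
                simp only at hv hw ⊢ <;> omega
            · rw [Finset.mem_coe, mem_TBE_false]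
              simp only [dsrc_false, dtgt_mk] at hc
              rcases hc with ⟨k1, k2⟩ | ⟨k1, k2⟩ <;> subst k1 <;> subst k2 <;>
                simp only at hv <;> omega
        · by_cases hw : Inn A B D w
          · refine Or.inr ⟨hw, hr.trans (DAdj.reach ⟨(p, q, true), ⟨heG, ?_, ?_⟩, hc⟩)⟩
            · rw [Finset.mem_coe, mem_LRE_true]
              unfold Inn at hw
              simp only [dsrc_true, dtgt_mk] at hc
              rcases hc with ⟨k1, k2⟩ | ⟨k1, k2⟩ <;> subst k1 <;> subst k2 <;>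
                simp only at hv hw <;> omega
            · rw [Finset.mem_coe, mem_TBE_true]
              unfold Inn at hw
              simp only [dsrc_true, dtgt_mk] at hc
              rcases hc with ⟨k1, k2⟩ | ⟨k1, k2⟩ <;> subst k1 <;> subst k2 <;>
                simp only at hv hw <;> omega
          · refine Or.inl (Or.inl ⟨w, ?_, hrL.trans (DAdj.reach ⟨(p, q, true), ⟨heG, ?_⟩, hc⟩)⟩)
            · unfold Inn at hw
              simp only [dsrc_true, dtgt_mk] at hc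
              rcases hc with ⟨k1, k2⟩ | ⟨k1, k2⟩ <;> subst k1 <;> subst k2 <;>
                simp only at hv hw ⊢ <;> omega
            · rw [Finset.mem_coe, mem_LRE_true]
              simp only [dsrc_true, dtgt_mk] at hc
              rcases hc with ⟨k1, k2⟩ | ⟨k1, k2⟩ <;> subst k1 <;> subst k2 <;>
                simp only at hv <;> omega
  rcases key g h with h1 | ⟨h1, -⟩
  · exact h1
  · exact absurd h1 hg

/-- a dual top-bottom path, restricted to a smaller strip -/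
theorem dsub_TB {G : Set Edg} {A B D c d : ℤ} (hc : 0 ≤ c) (hcd : c ≤ d) (hd : d ≤ D) {f w : Vtx}
    (h : DReach (G ∩ ↑(LRE A B 0 D)) f w) (hf : f.2 ≤ c - 1) (hw : d ≤ w.2) :
    ∃ x1 x2, (A ≤ x1 ∧ x1 < B) ∧ DReach (G ∩ ↑(LRE A B c d)) (x1, c - 1) (x2, d) := by
  rw [← reach_dl] at h
  obtain ⟨x1, x2, h1, h2, h3, -⟩ := sub_TB (a := A) (b := B - 1) (c := c - 1) (d := d) (by omega)
    (by
      rintro x y ⟨⟨p, q, _ | _⟩, ⟨-, he⟩, heq⟩ - -
      · simp at heq
      · simp only [dl_t, Prod.mk.injEq] at heq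
        rw [Finset.mem_coe, mem_LRE_true] at he
        omega)
    (by
      rintro x y ⟨⟨p, q, _ | _⟩, ⟨-, he⟩, heq⟩ - -
      · simp only [dl_f, Prod.mk.injEq] at heq
        rw [Finset.mem_coe, mem_LRE_false] at he
        omega
      · simp at heq) h hf hw
  refine ⟨x1, x2, ⟨h1.1, by omega⟩, ?_⟩
  rw [← reach_dl]
  refine h3.mono ?_
  rintro _ ⟨⟨⟨p, q, _ | _⟩, ⟨he, heS⟩, rfl⟩, h5⟩
  · refine Set.mem_image_of_mem _ ⟨he, ?_⟩
    rw [Finset.mem_coe, mem_LRE_false] at heS ⊢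
    simp only [dl_f, Finset.mem_coe, mem_TBE_true] at h5
    omega
  · refine Set.mem_image_of_mem _ ⟨he, ?_⟩
    rw [Finset.mem_coe, mem_LRE_true] at heS ⊢
    simp only [dl_t, Finset.mem_coe, mem_TBE_false] at h5
    omega

/-- a dual left-right path, restricted to a smaller strip -/
theorem dsub_LR {G : Set Edg} {A B D a b : ℤ} (ha : A ≤ a) (hab : a ≤ b) (hb : b ≤ B)
    {f w : Vtx} (h : DReach (G ∩ ↑(TBE A B 0 D)) f w) (hf : f.1 ≤ a - 1) (hw : b ≤ w.1) :
    ∃ y1 y2, (0 ≤ y1 ∧ y1 < D) ∧ DReach (G ∩ ↑(TBE a b 0 D)) (a - 1, y1) (b, y2) := by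
  rw [← reach_dl] at h
  obtain ⟨x1, x2, h1, h2, h3, -⟩ := sub_LR (a := a - 1) (b := b) (c := 0) (d := D - 1) (by omega)
    (by
      rintro x y ⟨⟨p, q, _ | _⟩, ⟨-, he⟩, heq⟩ - -
      · simp only [dl_f, Prod.mk.injEq] at heq
        rw [Finset.mem_coe, mem_TBE_false] at he
        omega
      · simp at heq)
    (by
      rintro x y ⟨⟨p, q, _ | _⟩, ⟨-, he⟩, heq⟩ - -
      · simp at heq
      · simp only [dl_t, Prod.mk.injEq] at heq
        rw [Finset.mem_coe, mem_TBE_true] at he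
        omega) h hf hw
  refine ⟨x1, x2, ⟨h1.1, by omega⟩, ?_⟩
  rw [← reach_dl]
  refine h3.mono ?_
  rintro _ ⟨⟨⟨p, q, _ | _⟩, ⟨he, heS⟩, rfl⟩, h5⟩
  · refine Set.mem_image_of_mem _ ⟨he, ?_⟩
    rw [Finset.mem_coe, mem_TBE_false] at heS ⊢
    simp only [dl_f, Finset.mem_coe, mem_LRE_true] at h5
    omega
  · refine Set.mem_image_of_mem _ ⟨he, ?_⟩
    rw [Finset.mem_coe, mem_TBE_true] at heS ⊢
    simp only [dl_t, Finset.mem_coe, mem_LRE_false] at h5
    omega

/-- Four open crossings around a face: no closed dual path leaves. -/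
theorem ring_blocks {F : Set Edg} {A B D a b c c' s s' u u' p p' q q' : ℤ}
    (hAa : A ≤ a) (hbB : b ≤ B) (hc0 : 0 ≤ c) (hcD : c' ≤ D)
    (hT : Reach (F ∩ ↑(LRE A B c' D)) (A, s) (B, s')) (hT' : c' ≤ s' ∧ s' ≤ D)
    (hB : Reach (F ∩ ↑(LRE A B 0 c)) (A, u) (B, u')) (hB' : 0 ≤ u' ∧ u' ≤ c)
    (hL : Reach (F ∩ ↑(TBE A a 0 D)) (p, 0) (p', D)) (hL' : A ≤ p' ∧ p' ≤ a)
    (hR : Reach (F ∩ ↑(TBE b B 0 D)) (q, 0) (q', D)) (hR' : b ≤ q' ∧ q' ≤ B)
    {f g : Vtx} (hf : (a ≤ f.1 ∧ f.1 + 1 ≤ b) ∧ (c ≤ f.2 ∧ f.2 + 1 ≤ c'))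
    (hg : ¬ Inn A B D g) (h : DReach Fᶜ f g) : False := by
  rcases dexit (A := A) (B := B) (D := D) (f := f) (by unfold Inn; omega) h hg with
    ⟨w, hw | hw, hr⟩ | ⟨w, hw | hw, hr⟩
  · obtain ⟨x1, x2, hx, h3⟩ := dsub_TB (c := c') (d := D) (by omega) hcD le_rfl hr (by omega)
      (by omega)
    exact no_both hcD hT' hx hT h3
  · obtain ⟨x1, x2, hx, h3⟩ := dsub_TB (c := 0) (d := c) le_rfl hc0 (by omega) hr.symm
      (by omega) (by omega)
    have h3' : DReach (Fᶜ ∩ ↑(LRE A B 0 c)) (x1, 0 - 1) (x2, c) := h3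
    exact no_both hc0 hB' hx hB h3'
  · obtain ⟨y1, y2, hy, h3⟩ := dsub_LR (a := b) (b := B) (by omega) hbB le_rfl hr (by omega)
      (by omega)
    exact no_both_TB hbB hR' hy hR h3
  · obtain ⟨y1, y2, hy, h3⟩ := dsub_LR (a := A) (b := a) le_rfl hAa (by omega) hr.symm (by omega)
      (by omega)
    exact no_both_TB hAa hL' hy hL h3

/-- a path in a single row visits all the columns -/
theorem row_visit {G : Set Edg} {A B k s s' : ℤ} (hk : A ≤ k) (hk2 : k ≤ B) (hs : s = 0)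
    (h : Reach (G ∩ ↑(LRE A B 0 0)) (A, s) (B, s')) :
    Reach (G ∩ ↑(LRE A B 0 0)) (A, s) (k, 0) := by
  subst hs
  rcases hk2.eq_or_lt with h1 | h1
  · subst h1
    have : s' = 0 := by
      have key : ∀ v, Reach (G ∩ ↑(LRE A k 0 0)) (A, 0) v → v.2 = 0 := by
        intro v hv
        induction hv with
        | refl => rfl
        | tail _ hs ih =>
          obtain ⟨⟨p, q, _ | _⟩, ⟨-, he⟩, hc⟩ := hs
          · rw [Finset.mem_coe, mem_LRE_false] at he
            omega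
          · rw [Finset.mem_coe, mem_LRE_true] at he
            simp only [src_mk, tgt_true] at hc
            rcases hc with ⟨k1, k2⟩ | ⟨k1, k2⟩
            · rw [← k2]; simp only; omega
            · rw [← k1]; simp only; omega
      exact key _ h
    subst this
    exact h
  · obtain ⟨y1, y2, h2, -, -, h4⟩ := sub_LR (a := k) (b := B) (c := 0) (d := 0) h1
      (by
        rintro x y ⟨-, he⟩ _ _
        rw [Finset.mem_coe, mem_LRE_true] at he
        omega)
      (by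
        rintro x y ⟨-, he⟩ _ _
        rw [Finset.mem_coe, mem_LRE_false] at he
        omega) h hk le_rfl
    have e : y1 = 0 := by omega
    rw [e] at h4
    exact h4

/-- **Surrounded by a ring of the cluster.** -/
theorem surr_ring {I : Set ℤ} {G : Set Edg} {z r x y : ℤ} (hr : 1 ≤ r) (hx : z - r ≤ x)
    (hx2 : x + 1 ≤ z + r) (hy : 0 ≤ y) (hy2 : y + 1 ≤ r) {F : Finset Edg} (hFG : (↑F : Set Edg) ⊆ G)
    (hHC : HC z 0 r F) (hB : LRc (z - 3 * r) (z + 3 * r) 0 y F) {u v : Vtx}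
    (hu : inR (z - r) (z + r) 0 (0 + r) u) (hv : onH z 0 (3 * r) v)
    (huv : Reach (↑F ∩ ↑(RE (z - 3 * r) (z + 3 * r) 0 (0 + 3 * r))) u v) (huI : CI I G u) :
    ¬ Out I G (x, y) := by
  intro hout
  obtain ⟨⟨s, s', hs, hs', hT⟩, ⟨fr, fr', hr1, hr2, hR⟩, ⟨fl, fl', hl1, hl2, hL⟩⟩ := hHC
  obtain ⟨t, t', ht, ht', hB⟩ := hB
  have hT0 := hT.mono (Set.inter_subset_inter_right (↑F : Set Edg)
    (by exact_mod_cast LRE_subset_RE : (↑(LRE (z - 3 * r) (z + 3 * r) (0 + r) (0 + 3 * r)) :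
      Set Edg) ⊆ ↑(RE (z - 3 * r) (z + 3 * r) (0 + r) (0 + 3 * r))))
  have hR0 := hR.mono (Set.inter_subset_inter_right (↑F : Set Edg)
    (by exact_mod_cast TBE_subset_RE : (↑(TBE (z + r) (z + 3 * r) 0 (0 + 3 * r)) :
      Set Edg) ⊆ ↑(RE (z + r) (z + 3 * r) 0 (0 + 3 * r))))
  have hL0 := hL.mono (Set.inter_subset_inter_right (↑F : Set Edg)
    (by exact_mod_cast TBE_subset_RE : (↑(TBE (z - 3 * r) (z - r) 0 (0 + 3 * r)) :
      Set Edg) ⊆ ↑(RE (z - 3 * r) (z - r) 0 (0 + 3 * r))))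
  have hB0 := hB.mono (Set.inter_subset_inter_right (↑F : Set Edg)
    (by exact_mod_cast LRE_subset_RE : (↑(LRE (z - 3 * r) (z + 3 * r) 0 y) :
      Set Edg) ⊆ ↑(RE (z - 3 * r) (z + 3 * r) 0 y)))
  obtain ⟨m1, m2⟩ := half_meet (G := (↑F : Set Edg)) hr hr1 hl1 hT0 hR0 hL0 u v hu hv huv
  have big : (↑F : Set Edg) ∩ ↑(RE (z - 3 * r) (z + 3 * r) 0 (0 + 3 * r)) ⊆ G ∩ HP :=
    fun e he => ⟨hFG he.1, HP_RE le_rfl he.2⟩
  have cfl : CI I G (fl, 0) := CI_trans huI (m1.mono big)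
  have cfr : CI I G (fr, 0) := CI_trans huI (m2.mono big)
  have mTL : Reach (↑F ∩ ↑(RE (z - 3 * r) (z + 3 * r) 0 (0 + 3 * r))) (z - 3 * r, s) (fl, 0) :=
    cross_meet le_rfl (by omega) (by omega) (by omega) (by omega) le_rfl hT0 le_rfl
      (by simp only; omega) hL0 (by simp only; omega) le_rfl
  have cT : CI I G (z - 3 * r, s) := CI_trans cfl (mTL.symm.mono big)
  have cB : CI I G (z - 3 * r, t) := by
    rcases hy.eq_or_lt with h0 | h0
    · subst h0
      have et : t = 0 := by omega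
      have := row_visit (k := fl) (by omega) (by omega) et hB
      refine CI_trans cfl (this.symm.mono ?_)
      exact fun e he => ⟨hFG he.1, HP_RE le_rfl (by
        have := LRE_subset_RE (Finset.mem_coe.mp he.2)
        exact Finset.mem_coe.mpr this)⟩
    · have mBL : Reach (↑F ∩ ↑(RE (z - 3 * r) (z + 3 * r) 0 (0 + 3 * r))) (z - 3 * r, t) (fl, 0) :=
        cross_meet le_rfl (by omega) (by omega) le_rfl h0 (by omega) hB0 le_rfl
          (by simp only; omega) hL0 (by simp only; omega) (by simp only; omega)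
      exact CI_trans cfl (mBL.symm.mono big)
  have hsub : ∀ S : Finset Edg, (↑S : Set Edg) ⊆ HP → ∀ {w w' : Vtx}, CI I G w →
      Reach (↑F ∩ ↑S) w w' → Reach (Wall I G ∩ ↑S) w w' := by
    intro S hS w w' hw h
    exact reach_wall hS hw (h.mono (Set.inter_subset_inter_left _ hFG))
  have eT := hsub _ ((by exact_mod_cast LRE_subset_RE :
    (↑(LRE (z - 3 * r) (z + 3 * r) (0 + r) (0 + 3 * r)) : Set Edg) ⊆
      ↑(RE (z - 3 * r) (z + 3 * r) (0 + r) (0 + 3 * r))).trans (HP_RE (by omega))) cT hT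
  have eB := hsub _ ((by exact_mod_cast LRE_subset_RE :
    (↑(LRE (z - 3 * r) (z + 3 * r) 0 y) : Set Edg) ⊆
      ↑(RE (z - 3 * r) (z + 3 * r) 0 y)).trans (HP_RE le_rfl)) cB hB
  have eL := hsub _ ((by exact_mod_cast TBE_subset_RE :
    (↑(TBE (z - 3 * r) (z - r) 0 (0 + 3 * r)) : Set Edg) ⊆
      ↑(RE (z - 3 * r) (z - r) 0 (0 + 3 * r))).trans (HP_RE le_rfl)) cfl hL
  have eR := hsub _ ((by exact_mod_cast TBE_subset_RE :
    (↑(TBE (z + r) (z + 3 * r) 0 (0 + 3 * r)) : Set Edg) ⊆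
      ↑(RE (z + r) (z + 3 * r) 0 (0 + 3 * r))).trans (HP_RE le_rfl)) cfr hR
  exact ring_blocks (F := Wall I G) (A := z - 3 * r) (B := z + 3 * r) (D := 0 + 3 * r)
    (a := z - r) (b := z + r) (c := y) (c' := 0 + r) (by omega) (by omega) hy (by omega)
    eT hs' eB ht' eL hl2 eR hr2 (f := (x, y)) (g := (0, -1))
    ⟨⟨by simpa using hx, by simpa using hx2⟩, le_rfl, by simp only; omega⟩
    (by unfold Inn; simp) hout

/-- a dual path of the half-plane is contained in a finite window -/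
theorem dwindow {G : Set Edg} {f g : Vtx} (h : DReach (G ∩ HP) f g) :
    ∃ N : ℕ, DReach (G ∩ ↑(RE (-(N : ℤ)) N 0 N)) f g := by
  induction h with
  | refl => exact ⟨0, DReach.refl _ _⟩
  | tail _ hs ih =>
    obtain ⟨N, hN⟩ := ih
    obtain ⟨⟨p, q, b⟩, ⟨heG, heH⟩, hc⟩ := hs
    have h0 : 0 ≤ q := heH
    obtain ⟨M, hM⟩ : ∃ M : ℕ, N ≤ M ∧ -(M : ℤ) ≤ p ∧ p + 1 ≤ M ∧ q + 1 ≤ M :=
      ⟨N + (p.natAbs + q.natAbs + 1), by omega, by omega, by omega, by omega⟩
    have hsub : RE (-(N : ℤ)) N 0 N ⊆ RE (-(M : ℤ)) M 0 M :=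
      RE_subset (by omega) (by omega) le_rfl (by omega)
    refine ⟨M, (hN.mono (Set.inter_subset_inter_right _ (by exact_mod_cast hsub))).trans
      (DAdj.reach ⟨(p, q, b), ⟨heG, ?_⟩, hc⟩)⟩
    cases b
    · rw [Finset.mem_coe, mem_RE_false]; omega
    · rw [Finset.mem_coe, mem_RE_true]; omega

/-- first visit below the axis -/
theorem dbottom {G : Set Edg} {f g : Vtx} (hf : 0 ≤ f.2) (h : DReach G f g) (hg : g.2 < 0) :
    ∃ p : ℤ, ((p, 0, true) : Edg) ∈ G ∧ DReach (G ∩ HP) f (p, -1) := by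
  have key : ∀ g, DReach G f g → (∃ p : ℤ, ((p, 0, true) : Edg) ∈ G ∧
      DReach (G ∩ HP) f (p, -1)) ∨ (0 ≤ g.2 ∧ DReach (G ∩ HP) f g) := by
    intro g hg
    induction hg with
    | refl => exact Or.inr ⟨hf, DReach.refl _ _⟩
    | @tail v w _ hs ih =>
      rcases ih with ih | ⟨hv, hr⟩
      · exact Or.inl ih
      · obtain ⟨⟨p, q, _ | _⟩, heG, hc⟩ := hs
        · have hq : 0 ≤ q := by
            simp only [dsrc_false, dtgt_mk] at hc
            rcases hc with ⟨k1, k2⟩ | ⟨k1, k2⟩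
            · rw [← k1] at hv; exact hv
            · rw [← k2] at hv; exact hv
          refine Or.inr ⟨?_, hr.trans (DAdj.reach ⟨(p, q, false), ⟨heG, hq⟩, hc⟩)⟩
          simp only [dsrc_false, dtgt_mk] at hc
          rcases hc with ⟨k1, k2⟩ | ⟨k1, k2⟩
          · rw [← k2]; exact hq
          · rw [← k1]; exact hq
        · simp only [dsrc_true, dtgt_mk] at hc
          rcases hc with ⟨k1, k2⟩ | ⟨k1, k2⟩
          · -- going up
            have hq : 0 ≤ q - 1 := by rw [← k1] at hv; exact hv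
            refine Or.inr ⟨by rw [← k2]; simp only; omega,
              hr.trans (DAdj.reach ⟨(p, q, true), ⟨heG, show 0 ≤ q by omega⟩, Or.inl ⟨k1, k2⟩⟩)⟩
          · have hq : 0 ≤ q := by rw [← k2] at hv; exact hv
            have hstep : DReach (G ∩ HP) f w :=
              hr.trans (DAdj.reach ⟨(p, q, true), ⟨heG, hq⟩, Or.inr ⟨k1, k2⟩⟩)
            rcases hq.eq_or_lt with h0 | h0
            · subst h0
              left
              refine ⟨p, heG, ?_⟩
              rw [← k1] at hstep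
              simpa using hstep
            · right
              exact ⟨by rw [← k1]; simp only; omega, hstep⟩
  rcases key g h with h1 | ⟨h1, -⟩
  · exact h1
  · omega

/-- **Surrounded by an arc of the cluster.** -/
theorem surr_arc {I : Set ℤ} {G : Set Edg} {z r x y N i1 i2 : ℤ}
    (hI : ∀ k, i1 ≤ k → k ≤ i2 → k ∈ I) (hi1 : i1 ≤ z - r) (hi2 : z + r ≤ i2)
    (hx : z - r ≤ x) (hx2 : x + 1 ≤ z + r) (hy : 0 ≤ y) (hy2 : y + 1 ≤ r)
    (h : Reach (G ∩ (↑(RE (-N) N 0 N) \ ↑(RE (z - r) (z + r) 0 r))) (i1, 0) (i2, 0)) :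
    ¬ Out I G (x, y) := by
  intro hout
  obtain ⟨p, hp, hd⟩ := dbottom (f := (x, y)) (g := (0, -1)) hy hout (by simp)
  have hpI : p < i1 ∨ i2 ≤ p := by
    by_contra hc
    push Not at hc
    exact hp ⟨le_rfl, Or.inr ⟨rfl, rfl, hI p hc.1 (by omega), hI (p + 1) (by omega) (by omega)⟩⟩
  obtain ⟨M, hM⟩ := dwindow hd
  -- a common window
  obtain ⟨K, hK⟩ : ∃ K : ℕ, N ≤ K ∧ M ≤ K ∧ -(K : ℤ) ≤ x ∧ x + 1 ≤ K ∧ y + 1 ≤ K :=
    ⟨N.natAbs + M + (x.natAbs + y.natAbs + 1), by omega, by omega, by omega, by omega, by omega⟩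
  have s1 : RE (-N) N 0 N ⊆ RE (-(K : ℤ)) K 0 K :=
    RE_subset (by omega) (by omega) le_rfl (by omega)
  have s2 : RE (-(M : ℤ)) M 0 M ⊆ RE (-(K : ℤ)) K 0 K :=
    RE_subset (by omega) (by omega) le_rfl (by omega)
  set F : Set Edg := Wall I G \ ↑(RE (z - r) (z + r) 0 r) with hF
  have hi1I : i1 ∈ I := hI i1 le_rfl (by omega)
  have hS : (↑(RE (-N) N 0 N) \ ↑(RE (z - r) (z + r) 0 r) : Set Edg) ⊆ HP :=
    fun e he => HP_RE le_rfl he.1
  have hprim : Reach (F ∩ ↑(RE (-(K : ℤ)) K 0 K)) (i1, 0) (i2, 0) := by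
    refine (reach_wall hS (CI_of_mem hi1I) h).mono ?_
    rintro e ⟨h1, h2, h3⟩
    exact ⟨⟨h1, h3⟩, by exact_mod_cast s1 (Finset.mem_coe.mp h2)⟩
  have hdual1 : DReach (Fᶜ ∩ ↑(RE (-(K : ℤ)) K 0 K)) (x, y) (p, -1) := by
    refine hM.mono ?_
    rintro e ⟨h1, h2⟩
    exact ⟨fun h3 => h1 h3.1, by exact_mod_cast s2 (Finset.mem_coe.mp h2)⟩
  have hdual2 : ∀ n : ℕ, (n : ℤ) ≤ y + 1 →
      DReach (Fᶜ ∩ ↑(RE (-(K : ℤ)) K 0 K)) (x, -1) (x, (n : ℤ) - 1) := by
    intro n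
    induction n with
    | zero => intro _; simpa using DReach.refl _ _
    | succ n ih =>
      intro hn
      push_cast at hn ⊢
      refine (ih (by omega)).trans (DAdj.reach ⟨(x, (n : ℤ), true), ⟨?_, ?_⟩, Or.inl ⟨?_, ?_⟩⟩)
      · rintro ⟨-, h3⟩
        apply h3
        rw [Finset.mem_coe, mem_RE_true]
        omega
      · rw [Finset.mem_coe, mem_RE_true]
        omega
      · simp
      · simp
  have hd2 := hdual2 (y + 1).toNat (by omega)
  have ey : (((y + 1).toNat : ℕ) : ℤ) - 1 = y := by omega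
  rw [ey] at hd2
  have hd3 : DReach (Fᶜ ∩ ↑(RE (-(K : ℤ)) K 0 K)) (x, -1) (p, -1) := hd2.trans hdual1
  rcases hpI with h1 | h1
  · exact no_half (p := p) (q := x) (u := i1) (v := i2) ⟨h1, by omega⟩ (Or.inr (by omega))
      hd3.symm hprim
  · exact no_half (p := x) (q := p) (u := i2) (v := i1) ⟨by omega, h1⟩ (Or.inl (by omega))
      hd3 hprim.symm

end Pool.Agent.H67LP
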